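import Mathlib

/-!
Weighted satisfiability of Boolean circuits and formulas, the classes of the chain, and
reductions that are definable slice by slice in infinitary logic with few variables.
-/

namespace Pool.Agent.WSatChain

/-- A labelled directed graph on the node set `U`: variables (inputs), AND, OR and NOT gates, an
output mark, and `wire g h` (the node `h` is an input of the gate `g`). -/
structure Circ (U : Type) where
  isVar : U → Prop
  isAnd : U → Prop
  isOr : U → Prop
  isNot : U → Prop
  isOut : U → Prop
  wire : U → U → Prop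

variable {U : Type}

/-- `C` is a Boolean circuit: every node has exactly one type, exactly one node is the output,
variables have no inputs, NOT gates have exactly one input, and there is no directed cycle. -/
structure Circ.IsCircuit (C : Circ U) : Prop where
  kind : ∀ g, (C.isVar g ∧ ¬ C.isAnd g ∧ ¬ C.isOr g ∧ ¬ C.isNot g) ∨
    (¬ C.isVar g ∧ C.isAnd g ∧ ¬ C.isOr g ∧ ¬ C.isNot g) ∨
    (¬ C.isVar g ∧ ¬ C.isAnd g ∧ C.isOr g ∧ ¬ C.isNot g) ∨
    (¬ C.isVar g ∧ ¬ C.isAnd g ∧ ¬ C.isOr g ∧ C.isNot g)
  out : ∃! g, C.isOut g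
  var_in : ∀ g h, C.isVar g → ¬ C.wire g h
  not_in : ∀ g, C.isNot g → ∃! h, C.wire g h
  acyclic : ∀ g, ¬ Relation.TransGen C.wire g g

/-- `C` is a Boolean formula, regarded as a circuit: every node is the output or is used, and
a node that is not a variable is used at most once. -/
structure Circ.IsFormula (C : Circ U) : Prop extends C.IsCircuit where
  used : ∀ g, C.isOut g ∨ ∃ p, C.wire p g
  once : ∀ g p q, ¬ C.isVar g → C.wire p g → C.wire q g → p = q

/-- A literal: a variable or a negated variable. -/
def Circ.IsLit (C : Circ U) (g : U) : Prop :=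
  C.isVar g ∨ (C.isNot g ∧ ∀ h, C.wire g h → C.isVar h)

/-- AND gates for `true`, OR gates for `false`. -/
def Circ.gate (C : Circ U) : Bool → U → Prop
  | true => C.isAnd
  | false => C.isOr

/-- `C.InLevel d true t g`: the subformula at `g` is in `Γ_{t,d}`;
`C.InLevel d false t g`: it is in `Δ_{t,d}`. (A conjunction or disjunction of one formula may be
written as that formula.) -/
def Circ.InLevel (C : Circ U) (d : ℕ) : Bool → ℕ → U → Prop
  | b, 0, g => (1 ≤ d ∧ C.IsLit g) ∨
      (C.gate b g ∧ (∀ h, C.wire g h → C.IsLit h) ∧ Nat.card {h // C.wire g h} ≤ d)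
  | b, t + 1, g => C.InLevel d (!b) t g ∨
      (C.gate b g ∧ ∀ h, C.wire g h → C.InLevel d (!b) t h)

/-- `val` is the evaluation of the circuit under the assignment it gives to the variables. -/
structure Circ.IsEval (C : Circ U) (val : U → Prop) : Prop where
  and : ∀ g, C.isAnd g → (val g ↔ ∀ h, C.wire g h → val h)
  or : ∀ g, C.isOr g → (val g ↔ ∃ h, C.wire g h ∧ val h)
  not : ∀ g, C.isNot g → (val g ↔ ∀ h, C.wire g h → ¬ val h)

/-- `C` is `k`-satisfiable: some satisfying assignment has weight exactly `k`. -/
def Circ.WSat (C : Circ U) (k : ℕ) : Prop :=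
  ∃ val : U → Prop, C.IsEval val ∧ (∀ g, C.isOut g → val g) ∧
    Nat.card {g // C.isVar g ∧ val g} = k

/-- A class of circuits. -/
def CClass : Type 1 := ∀ U : Type, Circ U → Prop

/-- All Boolean circuits. -/
def CIRC : CClass := fun _ C => C.IsCircuit

/-- All Boolean formulas. -/
def PROP : CClass := fun _ C => C.IsFormula

/-- The class `Γ_{t,d}`. -/
def GAMMA (t d : ℕ) : CClass :=
  fun _ C => C.IsFormula ∧ ∀ g, C.isOut g → C.InLevel d true t g

/-- Formulas of the infinitary logic `L_{∞ω}` with the variables `x_0, …, x_{c-1}` only, over the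
vocabulary of circuits, with counting quantifiers `∃^{≥ m} x_i` for `m ≤ N`. -/
inductive Fml (c N : ℕ) : Type 1
  | eq (i j : Fin c) : Fml c N
  | isVar (i : Fin c) : Fml c N
  | isAnd (i : Fin c) : Fml c N
  | isOr (i : Fin c) : Fml c N
  | isNot (i : Fin c) : Fml c N
  | isOut (i : Fin c) : Fml c N
  | wire (i j : Fin c) : Fml c N
  | neg (φ : Fml c N) : Fml c N
  | conj (ι : Type) (φ : ι → Fml c N) : Fml c N
  | atLeast (m : Fin (N + 1)) (i : Fin c) (φ : Fml c N) : Fml c N

/-- Satisfaction in the structure `C` under the assignment `v`. -/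
def Circ.Sat (C : Circ U) {c N : ℕ} : Fml c N → (Fin c → U) → Prop
  | .eq i j, v => v i = v j
  | .isVar i, v => C.isVar (v i)
  | .isAnd i, v => C.isAnd (v i)
  | .isOr i, v => C.isOr (v i)
  | .isNot i, v => C.isNot (v i)
  | .isOut i, v => C.isOut (v i)
  | .wire i j, v => C.wire (v i) (v j)
  | .neg φ, v => ¬ C.Sat φ v
  | .conj _ φ, v => ∀ x, C.Sat (φ x) v
  | .atLeast m i φ, v => ∃ s : Finset U, s.card = m ∧ ∀ b ∈ s, C.Sat φ (Function.update v i b)

/-- An interpretation of circuits in circuits, of dimension `a` and with `M` copies, together with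
a list of sentences that give the new parameter. -/
structure Interp (c N : ℕ) where
  a : ℕ
  a_pos : 0 < a
  two_a : 2 * a ≤ c
  M : ℕ
  dom : Fin M → Fml c N
  isVar : Fin M → Fml c N
  isAnd : Fin M → Fml c N
  isOr : Fin M → Fml c N
  isNot : Fin M → Fml c N
  isOut : Fin M → Fml c N
  wire : Fin M → Fin M → Fml c N
  K : ℕ
  par : Fin K → Fml c N

variable {c N : ℕ}

/-- The assignment given by an `a`-tuple: `x_i ↦ u_i` for `i < a`, all other variables `↦ u_0`. -/
def Interp.one (F : Interp c N) (u : Fin F.a → U) : Fin c → U :=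
  fun i => if h : i.1 < F.a then u ⟨i.1, h⟩ else u ⟨0, F.a_pos⟩

/-- The assignment given by two `a`-tuples: `x_i ↦ u_i` and `x_{a+i} ↦ w_i` for `i < a`, all other
variables `↦ u_0`. -/
def Interp.two (F : Interp c N) (u w : Fin F.a → U) : Fin c → U :=
  fun i => if h : i.1 < F.a then u ⟨i.1, h⟩ else
    if h' : i.1 - F.a < F.a then w ⟨i.1 - F.a, h'⟩ else u ⟨0, F.a_pos⟩

/-- The nodes of the interpreted circuit: the pairs `(i, u)` of a copy `i < M` and an `a`-tuple
`u` of nodes that satisfies the domain formula of that copy. -/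
def Interp.Univ (F : Interp c N) (C : Circ U) : Type :=
  {p : Fin F.M × (Fin F.a → U) // C.Sat (F.dom p.1) (F.one p.2)}

/-- The interpreted circuit. -/
def Interp.apply (F : Interp c N) (C : Circ U) : Circ (F.Univ C) where
  isVar p := C.Sat (F.isVar p.1.1) (F.one p.1.2)
  isAnd p := C.Sat (F.isAnd p.1.1) (F.one p.1.2)
  isOr p := C.Sat (F.isOr p.1.1) (F.one p.1.2)
  isNot p := C.Sat (F.isNot p.1.1) (F.one p.1.2)
  isOut p := C.Sat (F.isOut p.1.1) (F.one p.1.2)
  wire p q := C.Sat (F.wire p.1.1 q.1.1) (F.two p.1.2 q.1.2)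

/-- The new parameter: the number of those sentences `par j` that are true in `C`. -/
noncomputable def Interp.param (F : Interp c N) (C : Circ U) : ℕ :=
  Nat.card {j : Fin F.K // ∀ v, C.Sat (F.par j) v}

/-- `p-WSAT(A)` reduces to `p-WSAT(B)` by definable reductions with `c` variables: for every
parameter `k` and every size `n` there is an interpretation `F k n` in the infinitary logic with
`c k` variables and counting quantifiers with thresholds at most `N k`, such that for every
circuit `C ∈ A` with `n` nodes the interpreted circuit is in `B`, the new parameter is at most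
`K k`, and `C` is `k`-satisfiable exactly if the interpreted circuit is satisfiable by an
assignment whose weight is the new parameter. No linear order of the nodes is available, and
nothing is required about how `F k n` depends on `k` and `n`. -/
def Reduces (c : ℕ → ℕ) (A B : CClass) : Prop :=
  ∃ (N K : ℕ → ℕ) (F : ∀ k : ℕ, ℕ → Interp (c k) (N k)), (∀ k n, (F k n).K ≤ K k) ∧
    ∀ (k : ℕ) (U : Type) [Finite U] (C : Circ U), A U C →
      B _ ((F k (Nat.card U)).apply C) ∧
      (C.WSat k ↔ ((F k (Nat.card U)).apply C).WSat ((F k (Nat.card U)).param C))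

end Pool.Agent.WSatChain
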