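import Mathlib
import Pool.Agent.WSatChain.Defs

/-! The reductions along the chain. -/

namespace Pool.Agent.WSatChain

/-- isomorphism of circuits -/
structure CIso {U V : Type} (C : Circ U) (C' : Circ V) (e : U ≃ V) : Prop where
  var : ∀ g, C.isVar g ↔ C'.isVar (e g)
  and : ∀ g, C.isAnd g ↔ C'.isAnd (e g)
  or : ∀ g, C.isOr g ↔ C'.isOr (e g)
  not : ∀ g, C.isNot g ↔ C'.isNot (e g)
  out : ∀ g, C.isOut g ↔ C'.isOut (e g)
  wire : ∀ g h, C.wire g h ↔ C'.wire (e g) (e h)

section iso

variable {U V : Type} {C : Circ U} {C' : Circ V} {e : U ≃ V}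

theorem CIso.symm (i : CIso C C' e) : CIso C' C e.symm where
  var g := by rw [i.var, e.apply_symm_apply]
  and g := by rw [i.and, e.apply_symm_apply]
  or g := by rw [i.or, e.apply_symm_apply]
  not g := by rw [i.not, e.apply_symm_apply]
  out g := by rw [i.out, e.apply_symm_apply]
  wire g h := by rw [i.wire, e.apply_symm_apply, e.apply_symm_apply]

theorem iso_circuit (i : CIso C C' e) (h : C.IsCircuit) : C'.IsCircuit where
  kind g := by
    obtain ⟨g, rfl⟩ := e.surjective g
    rw [← i.var, ← i.and, ← i.or, ← i.not]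
    exact h.kind g
  out := by
    obtain ⟨g, hg, hu⟩ := h.out
    refine ⟨e g, (i.out g).1 hg, ?_⟩
    intro y hy
    obtain ⟨y, rfl⟩ := e.surjective y
    rw [hu y ((i.out y).2 hy)]
  var_in g g' hg hw := by
    obtain ⟨g, rfl⟩ := e.surjective g
    obtain ⟨g', rfl⟩ := e.surjective g'
    exact h.var_in g g' ((i.var g).2 hg) ((i.wire g g').2 hw)
  not_in g hg := by
    obtain ⟨g, rfl⟩ := e.surjective g
    obtain ⟨g', hg', hu⟩ := h.not_in g ((i.not g).2 hg)
    refine ⟨e g', (i.wire g g').1 hg', ?_⟩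
    intro y hy
    obtain ⟨y, rfl⟩ := e.surjective y
    rw [hu y ((i.wire g y).2 hy)]
  acyclic g hg := by
    have key : ∀ a b, Relation.TransGen C'.wire a b →
        Relation.TransGen C.wire (e.symm a) (e.symm b) := by
      intro a b hab
      induction hab with
      | single h => exact Relation.TransGen.single ((i.symm.wire _ _).1 h)
      | tail _ h ih => exact ih.tail ((i.symm.wire _ _).1 h)
    exact h.acyclic _ (key g g hg)

theorem iso_formula (i : CIso C C' e) (h : C.IsFormula) : C'.IsFormula where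
  toIsCircuit := iso_circuit i h.toIsCircuit
  used g := by
    obtain ⟨g, rfl⟩ := e.surjective g
    rcases h.used g with hg | ⟨p, hp⟩
    · exact Or.inl ((i.out g).1 hg)
    · exact Or.inr ⟨e p, (i.wire p g).1 hp⟩
  once g p q hg hp hq := by
    obtain ⟨g, rfl⟩ := e.surjective g
    obtain ⟨p, rfl⟩ := e.surjective p
    obtain ⟨q, rfl⟩ := e.surjective q
    rw [h.once g p q (fun hh => hg ((i.var g).1 hh)) ((i.wire p g).2 hp) ((i.wire q g).2 hq)]

theorem iso_lit (i : CIso C C' e) {g : U} (h : C.IsLit g) : C'.IsLit (e g) := by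
  rcases h with h | ⟨h, h'⟩
  · exact Or.inl ((i.var g).1 h)
  · refine Or.inr ⟨(i.not g).1 h, ?_⟩
    intro y hy
    obtain ⟨y, rfl⟩ := e.surjective y
    exact (i.var y).1 (h' y ((i.wire g y).2 hy))

theorem iso_gate (i : CIso C C' e) {g : U} {b : Bool} (h : C.gate b g) : C'.gate b (e g) := by
  cases b
  · exact (i.or g).1 h
  · exact (i.and g).1 h

theorem iso_level (i : CIso C C' e) {d : ℕ} :
    ∀ (t : ℕ) (b : Bool) (g : U), C.InLevel d b t g → C'.InLevel d b t (e g) := by
  intro t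
  induction t with
  | zero =>
    rintro b g (⟨h1, h2⟩ | ⟨h1, h2, h3⟩)
    · exact Or.inl ⟨h1, iso_lit i h2⟩
    · refine Or.inr ⟨iso_gate i h1, ?_, ?_⟩
      · intro y hy
        obtain ⟨y, rfl⟩ := e.surjective y
        exact iso_lit i (h2 y ((i.wire g y).2 hy))
      · have : Nat.card {h // C.wire g h} = Nat.card {h // C'.wire (e g) h} :=
          Nat.card_congr (e.subtypeEquiv fun h => i.wire g h)
        rwa [← this]
  | succ t ih =>
    rintro b g (h | ⟨h1, h2⟩)
    · exact Or.inl (ih _ _ h)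
    · refine Or.inr ⟨iso_gate i h1, ?_⟩
      intro y hy
      obtain ⟨y, rfl⟩ := e.surjective y
      exact ih _ _ (h2 y ((i.wire g y).2 hy))

theorem iso_wsat (i : CIso C C' e) {k : ℕ} (h : C.WSat k) : C'.WSat k := by
  obtain ⟨val, hv, hout, hcard⟩ := h
  refine ⟨fun g => val (e.symm g), ⟨?_, ?_, ?_⟩, ?_, ?_⟩
  · intro g hg
    rw [hv.and _ ((i.symm.and g).1 hg)]
    constructor
    · intro h y hy
      exact h _ ((i.symm.wire g y).1 hy)
    · intro h y hy
      have := h (e y) ((i.symm.wire g (e y)).2 (by rwa [e.symm_apply_apply]))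
      simpa using this
  · intro g hg
    rw [hv.or _ ((i.symm.or g).1 hg)]
    constructor
    · rintro ⟨y, hy, h⟩
      exact ⟨e y, (i.symm.wire g (e y)).2 (by rwa [e.symm_apply_apply]), by simpa using h⟩
    · rintro ⟨y, hy, h⟩
      exact ⟨e.symm y, (i.symm.wire g y).1 hy, h⟩
  · intro g hg
    rw [hv.not _ ((i.symm.not g).1 hg)]
    constructor
    · intro h y hy
      exact h _ ((i.symm.wire g y).1 hy)
    · intro h y hy
      have := h (e y) ((i.symm.wire g (e y)).2 (by rwa [e.symm_apply_apply]))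
      simpa using this
  · intro g hg
    exact hout _ ((i.symm.out g).1 hg)
  · rw [← hcard]
    exact Nat.card_congr (e.symm.subtypeEquiv fun g => and_congr_left fun _ => i.symm.var g)

end iso

/-- invariance under isomorphism -/
def IsoInv (B : CClass) : Prop :=
  ∀ (U V : Type) (C : Circ U) (C' : Circ V) (e : U ≃ V), CIso C C' e → B U C → B V C'

theorem isoInv_circ : IsoInv CIRC := fun _ _ _ _ _ i h => iso_circuit i h

theorem isoInv_prop : IsoInv PROP := fun _ _ _ _ _ i h => iso_formula i h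

theorem isoInv_gamma (t d : ℕ) : IsoInv (GAMMA t d) := by
  rintro U V C C' e i ⟨h1, h2⟩
  refine ⟨iso_formula i h1, ?_⟩
  intro g hg
  obtain ⟨g, rfl⟩ := e.surjective g
  exact iso_level i t true g (h2 g ((i.out g).2 hg))

/-- the identity interpretation -/
def idInterp (k : ℕ) : Interp 2 0 where
  a := 1
  a_pos := by omega
  two_a := le_refl _
  M := 1
  dom _ := .eq 0 0
  isVar _ := .isVar 0
  isAnd _ := .isAnd 0
  isOr _ := .isOr 0
  isNot _ := .isNot 0
  isOut _ := .isOut 0
  wire _ _ := .wire 0 1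
  K := k
  par _ := .eq 0 0

/-- the nodes of the identity interpretation -/
def idEquiv {U : Type} (k : ℕ) (C : Circ U) : U ≃ (idInterp k).Univ C where
  toFun g := ⟨(⟨0, by show 0 < 1; omega⟩, fun _ => g), rfl⟩
  invFun p := p.1.2 ⟨0, by show 0 < 1; omega⟩
  left_inv _ := rfl
  right_inv := by
    rintro ⟨⟨i, u⟩, h⟩
    apply Subtype.ext
    apply Prod.ext
    · exact Subsingleton.elim (α := Fin 1) _ _
    · funext j
      show u _ = u j
      congr 1
      exact Subsingleton.elim (α := Fin 1) _ _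

theorem id_iso {U : Type} (k : ℕ) (C : Circ U) :
    CIso C ((idInterp k).apply C) (idEquiv k C) where
  var _ := Iff.rfl
  and _ := Iff.rfl
  or _ := Iff.rfl
  not _ := Iff.rfl
  out _ := Iff.rfl
  wire _ _ := Iff.rfl

theorem id_param {U : Type} (k : ℕ) (C : Circ U) : (idInterp k).param C = k := by
  unfold Interp.param
  have : Nat.card {j : Fin (idInterp k).K // ∀ v, C.Sat ((idInterp k).par j) v} =
      Nat.card (Fin k) :=
    Nat.card_congr (Equiv.subtypeUnivEquiv fun j v => rfl)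
  rw [this, Nat.card_fin]

theorem reduces_of_sub {A B : CClass} (h : ∀ U C, A U C → B U C) (hB : IsoInv B) :
    Reduces (fun _ => 2) A B := by
  refine ⟨fun _ => 0, fun k => k, fun k _ => idInterp k, fun k _ => le_refl _, ?_⟩
  intro k U _ C hC
  refine ⟨hB _ _ _ _ _ (id_iso k C) (h U C hC), ?_⟩
  rw [id_param]
  exact ⟨iso_wsat (id_iso k C), iso_wsat (id_iso k C).symm⟩

section inclusions

variable {U : Type} {C : Circ U}

theorem level_mono {d d' : ℕ} (hd : d ≤ d') :
    ∀ (t : ℕ) (b : Bool) (g : U), C.InLevel d b t g → C.InLevel d' b t g := by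
  intro t
  induction t with
  | zero =>
    rintro b g (⟨h1, h2⟩ | ⟨h1, h2, h3⟩)
    · exact Or.inl ⟨h1.trans hd, h2⟩
    · exact Or.inr ⟨h1, h2, h3.trans hd⟩
  | succ t ih =>
    rintro b g (h | ⟨h1, h2⟩)
    · exact Or.inl (ih _ _ h)
    · exact Or.inr ⟨h1, fun y hy => ih _ _ (h2 y hy)⟩

theorem level_succ {d : ℕ} :
    ∀ (t : ℕ) (b : Bool) (g : U), C.InLevel d b t g → C.InLevel 1 b (t + 1) g := by
  intro t
  induction t with
  | zero =>
    rintro b g (⟨h1, h2⟩ | ⟨h1, h2, h3⟩)
    · exact Or.inl (Or.inl ⟨le_refl _, h2⟩)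
    · exact Or.inr ⟨h1, fun y hy => Or.inl ⟨le_refl _, h2 y hy⟩⟩
  | succ t ih =>
    rintro b g (h | ⟨h1, h2⟩)
    · exact Or.inl (ih _ _ h)
    · exact Or.inr ⟨h1, fun y hy => ih _ _ (h2 y hy)⟩

end inclusions

theorem gamma_sub_d {t d d' : ℕ} (hd : d ≤ d') (U : Type) (C : Circ U) (h : GAMMA t d U C) :
    GAMMA t d' U C := ⟨h.1, fun g hg => level_mono hd t true g (h.2 g hg)⟩

theorem gamma_sub_succ {t d : ℕ} (U : Type) (C : Circ U) (h : GAMMA t d U C) :
    GAMMA (t + 1) 1 U C := ⟨h.1, fun g hg => level_succ t true g (h.2 g hg)⟩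

theorem reduces_sub_left {c : ℕ → ℕ} {A A' B : CClass} (h : ∀ U C, A' U C → A U C)
    (hr : Reduces c A B) : Reduces c A' B := by
  obtain ⟨N, K, F, h1, h2⟩ := hr
  exact ⟨N, K, F, h1, fun k U _ C hC => h2 k U C (h U C hC)⟩

end Pool.Agent.WSatChain
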