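import Mathlib
import Pool.Agent.WSatChain.Defs

/-! Evaluation of circuits. -/

namespace Pool.Agent.WSatChain

variable {U : Type}

theorem Circ.IsCircuit.wf [Finite U] {C : Circ U} (hC : C.IsCircuit) :
    WellFounded (fun h g => C.wire g h) := by
  have h1 : IsTrans U (fun h g => Relation.TransGen C.wire g h) :=
    ⟨fun a b c hab hbc => Relation.TransGen.trans hbc hab⟩
  have h2 : Std.Irrefl (fun h g => Relation.TransGen C.wire g h) := ⟨fun a => hC.acyclic a⟩
  have h3 : WellFounded (fun h g => Relation.TransGen C.wire g h) :=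
    Finite.wellFounded_of_trans_of_irrefl _
  refine Subrelation.wf ?_ h3
  intro a b hab
  exact Relation.TransGen.single hab

/-- Evaluations exist. -/
theorem eval_exists [Finite U] {C : Circ U} (hC : C.IsCircuit) (T : U → Prop) :
    ∃ val : U → Prop, C.IsEval val ∧ ∀ g, C.isVar g → (val g ↔ T g) := by
  classical
  let step : (g : U) → ((h : U) → C.wire g h → Prop) → Prop := fun g rec =>
    (C.isVar g ∧ T g) ∨ (C.isAnd g ∧ ∀ h, ∀ w : C.wire g h, rec h w) ∨
      (C.isOr g ∧ ∃ h, ∃ w : C.wire g h, rec h w) ∨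
      (C.isNot g ∧ ∀ h, ∀ w : C.wire g h, ¬ rec h w)
  let val : U → Prop := hC.wf.fix step
  have hval : ∀ g, val g ↔ step g (fun h _ => val h) := by
    intro g
    show hC.wf.fix step g ↔ _
    rw [hC.wf.fix_eq]
  refine ⟨val, ⟨?_, ?_, ?_⟩, ?_⟩
  · intro g hg
    rw [hval]
    rcases hC.kind g with h | h | h | h <;> simp only [step] <;> tauto
  · intro g hg
    rw [hval]
    rcases hC.kind g with h | h | h | h
    · exact absurd hg h.2.2.1
    · exact absurd hg h.2.2.1
    · simp [step, h.1, h.2.1, h.2.2.1, h.2.2.2]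
    · exact absurd hg h.2.2.1
  · intro g hg
    rw [hval]
    rcases hC.kind g with h | h | h | h <;> simp only [step] <;> tauto
  · intro g hg
    rw [hval]
    rcases hC.kind g with h | h | h | h <;> simp only [step] <;> tauto

/-- Values of gates with matching inputs agree. -/
theorem gate_val {V V' : Type} {C : Circ V} {C' : Circ V'} (hC : C.IsCircuit)
    {val : V → Prop} {val' : V' → Prop}
    (hv : C.IsEval val) (hv' : C'.IsEval val') {g : V} {g' : V'}
    (h0 : C.isVar g → (val g ↔ val' g'))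
    (ha : C.isAnd g → C'.isAnd g') (ho : C.isOr g → C'.isOr g') (hn : C.isNot g → C'.isNot g')
    (h1 : ∀ h, C.wire g h → ∃ h', C'.wire g' h' ∧ (val h ↔ val' h'))
    (h2 : ∀ h', C'.wire g' h' → ∃ h, C.wire g h ∧ (val h ↔ val' h')) :
    val g ↔ val' g' := by
  rcases hC.kind g with h | h | h | h
  · exact h0 h.1
  · rw [hv.and g h.2.1, hv'.and g' (ha h.2.1)]
    constructor
    · intro hh x hx
      obtain ⟨y, hy, he⟩ := h2 x hx
      exact he.1 (hh y hy)
    · intro hh x hx
      obtain ⟨y, hy, he⟩ := h1 x hx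
      exact he.2 (hh y hy)
  · rw [hv.or g h.2.2.1, hv'.or g' (ho h.2.2.1)]
    constructor
    · rintro ⟨x, hx, hh⟩
      obtain ⟨y, hy, he⟩ := h1 x hx
      exact ⟨y, hy, he.1 hh⟩
    · rintro ⟨x, hx, hh⟩
      obtain ⟨y, hy, he⟩ := h2 x hx
      exact ⟨y, hy, he.2 hh⟩
  · rw [hv.not g h.2.2.2, hv'.not g' (hn h.2.2.2)]
    constructor
    · intro hh x hx
      obtain ⟨y, hy, he⟩ := h2 x hx
      exact fun hc => hh y hy (he.2 hc)
    · intro hh x hx
      obtain ⟨y, hy, he⟩ := h1 x hx
      exact fun hc => hh y hy (he.1 hc)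

/-- Evaluations are unique. -/
theorem eval_unique [Finite U] {C : Circ U} (hC : C.IsCircuit) {val val' : U → Prop}
    (hv : C.IsEval val) (hv' : C.IsEval val') (h : ∀ g, C.isVar g → (val g ↔ val' g)) :
    ∀ g, val g ↔ val' g := by
  intro g
  induction g using hC.wf.induction with
  | _ g ih =>
    exact gate_val hC hv hv' (h g) id id id (fun x hx => ⟨x, hx, ih x hx⟩)
      (fun x hx => ⟨x, hx, ih x hx⟩)

end Pool.Agent.WSatChain
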