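import Mathlib
import Pool.Agent.WSatChain.Circuit

/-! With `k + 2` variables everything reduces to `Γ_{1,1}`. -/

namespace Pool.Agent.WSatChain

namespace Brute

variable {k : ℕ} {U : Type} {C : Circ U}

/-- false -/
def ff : Fml (k + 2) 1 := .neg (.eq 0 0)

/-- conjunction -/
def con (φ ψ : Fml (k + 2) 1) : Fml (k + 2) 1 := .conj Bool fun b => cond b φ ψ

/-- disjunction -/
def dis (ι : Type) (φ : ι → Fml (k + 2) 1) : Fml (k + 2) 1 := .neg (.conj ι fun x => .neg (φ x))

/-- disjunction of two formulas -/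
def dj (φ ψ : Fml (k + 2) 1) : Fml (k + 2) 1 := dis Bool fun b => cond b φ ψ

/-- existential quantifier -/
def ex (i : Fin (k + 2)) (φ : Fml (k + 2) 1) : Fml (k + 2) 1 := .atLeast 1 i φ

theorem sat_ff (v : Fin (k + 2) → U) : ¬ C.Sat (ff (k := k)) v := fun h => h rfl

theorem sat_con (φ ψ : Fml (k + 2) 1) (v : Fin (k + 2) → U) :
    C.Sat (con φ ψ) v ↔ C.Sat φ v ∧ C.Sat ψ v := by
  constructor
  · intro h
    exact ⟨h true, h false⟩
  · rintro ⟨h1, h2⟩ b
    cases b
    · exact h2
    · exact h1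

theorem sat_dis (ι : Type) (φ : ι → Fml (k + 2) 1) (v : Fin (k + 2) → U) :
    C.Sat (dis ι φ) v ↔ ∃ x, C.Sat (φ x) v := by
  show (¬ ∀ x, ¬ C.Sat (φ x) v) ↔ _
  push Not
  exact Iff.rfl

theorem sat_dj (φ ψ : Fml (k + 2) 1) (v : Fin (k + 2) → U) :
    C.Sat (dj φ ψ) v ↔ C.Sat φ v ∨ C.Sat ψ v := by
  unfold dj
  rw [sat_dis]
  constructor
  · rintro ⟨b, hb⟩
    cases b
    · exact Or.inr hb
    · exact Or.inl hb
  · rintro (h | h)
    · exact ⟨true, h⟩
    · exact ⟨false, h⟩

theorem sat_ex (i : Fin (k + 2)) (φ : Fml (k + 2) 1) (v : Fin (k + 2) → U) :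
    C.Sat (ex i φ) v ↔ ∃ b, C.Sat φ (Function.update v i b) := by
  show (∃ s : Finset U, s.card = 1 ∧ ∀ b ∈ s, C.Sat φ (Function.update v i b)) ↔ _
  constructor
  · rintro ⟨s, hs, h⟩
    obtain ⟨b, hb⟩ := Finset.card_pos.1 (by omega : 0 < s.card)
    exact ⟨b, h b hb⟩
  · rintro ⟨b, hb⟩
    exact ⟨{b}, Finset.card_singleton b, by simpa using hb⟩

/-- the two extra variables -/
def yi (b : Bool) : Fin (k + 2) := if b then ⟨k, by omega⟩ else ⟨k + 1, by omega⟩

/-- the first `k` variables -/
def xi (i : Fin k) : Fin (k + 2) := ⟨i.1, by omega⟩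

theorem yi_ne (b : Bool) : (yi b : Fin (k + 2)) ≠ yi (!b) := by
  cases b <;> simp [yi]

theorem xi_ne (b : Bool) (i : Fin k) : xi i ≠ yi b := by
  have := i.2
  intro e
  have h2 := congrArg Fin.val e
  cases b
  · change i.1 = k + 1 at h2
    omega
  · change i.1 = k at h2
    omega

/-- the value of the node `yi b`, unfolded `r` times -/
def evF : ℕ → Bool → Fml (k + 2) 1
  | 0, _ => ff
  | r + 1, b =>
    dj (con (.isVar (yi b)) (dis (Fin k) fun i => .eq (xi i) (yi b)))
      (dj (con (.isAnd (yi b)) (.neg (ex (yi !b) (con (.wire (yi b) (yi !b))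
          (.neg (evF r !b))))))
        (dj (con (.isOr (yi b)) (ex (yi !b) (con (.wire (yi b) (yi !b)) (evF r !b))))
          (con (.isNot (yi b)) (.neg (ex (yi !b) (con (.wire (yi b) (yi !b)) (evF r !b)))))))

/-- the height is less than `r` -/
def Ht (C : Circ U) : ℕ → U → Prop
  | 0, _ => False
  | r + 1, g => ∀ h, C.wire g h → Ht C r h

theorem ht_succ : ∀ (r : ℕ) (g : U), Ht C r g → Ht C (r + 1) g := by
  intro r
  induction r with
  | zero => intro g h; exact h.elim
  | succ r ih => intro g h y hy; exact ih y (h y hy)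

theorem ht_mono {r r' : ℕ} (h : r ≤ r') {g : U} (hg : Ht C r g) : Ht C r' g := by
  induction h with
  | refl => exact hg
  | step _ ih => exact ht_succ _ _ ih

theorem ht_exists [Finite U] (hC : C.IsCircuit) (g : U) : ∃ r, Ht C r g := by
  induction g using hC.wf.induction with
  | _ g ih =>
    have h1 : ∀ h : U, ∃ r, C.wire g h → Ht C r h := by
      intro h
      by_cases hw : C.wire g h
      · obtain ⟨r, hr⟩ := ih h hw
        exact ⟨r, fun _ => hr⟩
      · exact ⟨0, fun h => absurd h hw⟩
    choose f hf using h1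
    obtain ⟨R, hR⟩ := Set.finite_range f |>.bddAbove
    exact ⟨R + 1, fun h hw => ht_mono (hR ⟨h, rfl⟩) (hf h hw)⟩

theorem sat_evF (hC : C.IsCircuit) {val : U → Prop} (hv : C.IsEval val) (w : Fin k → U)
    (hw : ∀ g, C.isVar g → (val g ↔ ∃ i, w i = g)) :
    ∀ (r : ℕ) (b : Bool) (v : Fin (k + 2) → U), (∀ i, v (xi i) = w i) → Ht C r (v (yi b)) →
      (C.Sat (evF r b) v ↔ val (v (yi b))) := by
  intro r
  induction r with
  | zero => intro b v _ h; exact h.elim
  | succ r ih =>
    intro b v hvw hht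
    have key : ∀ z, C.wire (v (yi b)) z →
        (C.Sat (evF r (!b)) (Function.update v (yi !b) z) ↔ val z) := by
      intro z hz
      have := ih (!b) (Function.update v (yi !b) z) (by
        intro i
        rw [Function.update_of_ne (xi_ne _ _), hvw]) (by
        rw [Function.update_self]
        exact hht z hz)
      rwa [Function.update_self] at this
    have hwire : ∀ z, C.Sat (.wire (yi b) (yi !b) : Fml (k + 2) 1)
        (Function.update v (yi !b) z) ↔ C.wire (v (yi b)) z := by
      intro z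
      show C.wire _ _ ↔ _
      rw [Function.update_of_ne (yi_ne b), Function.update_self]
    show C.Sat (dj _ (dj _ (dj _ _))) v ↔ _
    rw [sat_dj, sat_dj, sat_dj, sat_con, sat_con, sat_con, sat_con, sat_dis]
    have e1 : C.Sat (.neg (ex (yi !b) (con (.wire (yi b) (yi !b)) (.neg (evF r !b))))) v ↔
        ∀ z, C.wire (v (yi b)) z → val z := by
      show ¬ C.Sat _ v ↔ _
      rw [sat_ex]
      push Not
      refine forall_congr' fun z => ?_
      rw [sat_con, hwire]
      show ¬ (_ ∧ ¬ C.Sat _ _) ↔ _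
      constructor
      · intro h hz
        by_contra hcon
        exact h ⟨hz, fun hh => hcon ((key z hz).1 hh)⟩
      · rintro h ⟨hz, hh⟩
        exact hh ((key z hz).2 (h hz))
    have e2 : C.Sat (ex (yi !b) (con (.wire (yi b) (yi !b)) (evF r !b))) v ↔
        ∃ z, C.wire (v (yi b)) z ∧ val z := by
      rw [sat_ex]
      refine exists_congr fun z => ?_
      rw [sat_con, hwire]
      exact and_congr_right fun hz => key z hz
    have e3 : C.Sat (.neg (ex (yi !b) (con (.wire (yi b) (yi !b)) (evF r !b)))) v ↔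
        ∀ z, C.wire (v (yi b)) z → ¬ val z := by
      show ¬ C.Sat _ v ↔ _
      rw [e2]
      push Not
      exact Iff.rfl
    rw [e1, e2, e3]
    show ((C.isVar (v (yi b)) ∧ ∃ i, v (xi i) = v (yi b)) ∨ (C.isAnd (v (yi b)) ∧ _) ∨
      (C.isOr (v (yi b)) ∧ _) ∨ (C.isNot (v (yi b)) ∧ _)) ↔ _
    have e4 : (∃ i, v (xi i) = v (yi b)) ↔ ∃ i, w i = v (yi b) :=
      exists_congr fun i => by rw [hvw]
    rw [e4]
    rcases hC.kind (v (yi b)) with h | h | h | h
    · simp only [h.1, h.2.1, h.2.2.1, h.2.2.2, true_and, false_and, false_or, or_false]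
      exact (hw _ h.1).symm
    · simp only [h.1, h.2.1, h.2.2.1, h.2.2.2, true_and, false_and, false_or, or_false]
      exact (hv.and _ h.2.1).symm
    · simp only [h.1, h.2.1, h.2.2.1, h.2.2.2, true_and, false_and, false_or, or_false]
      exact (hv.or _ h.2.2.1).symm
    · simp only [h.1, h.2.1, h.2.2.1, h.2.2.2, true_and, false_and, false_or, or_false]
      exact (hv.not _ h.2.2.2).symm

/-- the value of the node `yi b` -/
def evI (b : Bool) : Fml (k + 2) 1 := dis ℕ fun R => .conj ℕ fun s => evF (R + s) b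

theorem sat_evI [Finite U] (hC : C.IsCircuit) {val : U → Prop} (hv : C.IsEval val)
    (w : Fin k → U) (hw : ∀ g, C.isVar g → (val g ↔ ∃ i, w i = g)) (b : Bool)
    (v : Fin (k + 2) → U) (hvw : ∀ i, v (xi i) = w i) :
    C.Sat (evI b) v ↔ val (v (yi b)) := by
  obtain ⟨r, hr⟩ := ht_exists hC (v (yi b))
  unfold evI
  rw [sat_dis]
  constructor
  · rintro ⟨R, hR⟩
    exact (sat_evF hC hv w hw (R + r) b v hvw (ht_mono (by omega) hr)).1 (hR r)
  · intro h
    exact ⟨r, fun s => (sat_evF hC hv w hw (r + s) b v hvw (ht_mono (by omega) hr)).2 h⟩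

/-- quantification over the first `j` variables -/
def exs : ℕ → Fml (k + 2) 1 → Fml (k + 2) 1
  | 0, φ => φ
  | j + 1, φ => if h : j < k + 2 then ex ⟨j, h⟩ (exs j φ) else φ

theorem sat_exs (φ : Fml (k + 2) 1) : ∀ (j : ℕ), j ≤ k + 2 → ∀ v : Fin (k + 2) → U,
    C.Sat (exs j φ) v ↔ ∃ w, (∀ i, j ≤ i.1 → w i = v i) ∧ C.Sat φ w := by
  intro j
  induction j with
  | zero =>
    intro _ v
    constructor
    · intro h
      exact ⟨v, fun _ _ => rfl, h⟩
    · rintro ⟨w, hw, h⟩
      have : w = v := funext fun i => hw i (Nat.zero_le _)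
      rw [← this]
      exact h
  | succ j ih =>
    intro hj v
    have hj' : j < k + 2 := by omega
    simp only [exs, dif_pos hj']
    rw [sat_ex]
    constructor
    · rintro ⟨b, hb⟩
      rw [ih (by omega)] at hb
      obtain ⟨w, hw, h⟩ := hb
      refine ⟨w, ?_, h⟩
      intro i hi
      rw [hw i (by omega), Function.update_of_ne]
      intro e
      rw [e] at hi
      simp at hi
    · rintro ⟨w, hw, h⟩
      refine ⟨w ⟨j, hj'⟩, ?_⟩
      rw [ih (by omega)]
      refine ⟨w, ?_, h⟩
      intro i hi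
      by_cases e : i = ⟨j, hj'⟩
      · rw [e, Function.update_self]
      · rw [Function.update_of_ne e]
        refine hw i ?_
        have : i.1 ≠ j := fun h => e (Fin.ext h)
        omega

/-- the first variables are distinct inputs -/
def dst : Fml (k + 2) 1 :=
  con (.conj (Fin k) fun i => .isVar (xi i))
    (.conj {p : Fin k × Fin k // p.1 ≠ p.2} fun p => .neg (.eq (xi p.1.1) (xi p.1.2)))

/-- `k`-satisfiability -/
def ws : Fml (k + 2) 1 :=
  exs k (con dst (ex (yi true) (con (.isOut (yi true)) (evI true))))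

theorem sat_ws [Finite U] (hC : C.IsCircuit) (v : Fin (k + 2) → U) :
    C.Sat (ws (k := k)) v ↔ C.WSat k := by
  classical
  unfold ws
  rw [sat_exs _ k (by omega)]
  constructor
  · rintro ⟨w, _, h⟩
    rw [sat_con, sat_ex] at h
    obtain ⟨hd, b, hb⟩ := h
    rw [sat_con] at hb
    obtain ⟨hb1, hb2⟩ := hb
    unfold dst at hd
    rw [sat_con] at hd
    obtain ⟨hd1, hd2⟩ := hd
    obtain ⟨val, hval, hT⟩ := eval_exists hC (fun g => ∃ i : Fin k, w (xi i) = g)
    have h3 := (sat_evI hC hval (fun i => w (xi i)) hT true (Function.update w (yi true) b)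
      (fun i => by rw [Function.update_of_ne (xi_ne _ _)])).1 hb2
    change C.isOut (Function.update w (yi true) b (yi true)) at hb1
    rw [Function.update_self] at hb1 h3
    refine ⟨val, hval, ?_, ?_⟩
    · intro g hg
      rw [hC.out.unique hg hb1]
      exact h3
    · rw [← Nat.card_fin k]
      symm
      refine Nat.card_eq_of_bijective (fun i : Fin k =>
        (⟨w (xi i), hd1 i, (hT _ (hd1 i)).2 ⟨i, rfl⟩⟩ : {g // C.isVar g ∧ val g})) ⟨?_, ?_⟩
      · intro i i' h
        by_contra hne
        exact hd2 ⟨(i, i'), hne⟩ (congrArg Subtype.val h)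
      · rintro ⟨g, hg1, hg2⟩
        obtain ⟨i, hi⟩ := (hT g hg1).1 hg2
        exact ⟨i, Subtype.ext hi⟩
  · rintro ⟨val, hval, hout, hcard⟩
    have : Finite {g // C.isVar g ∧ val g} := inferInstance
    let e := Finite.equivFinOfCardEq hcard
    obtain ⟨g0, hg0, _⟩ := hC.out
    have hw : ∀ g, C.isVar g → (val g ↔ ∃ i : Fin k, (e.symm i).1 = g) := by
      intro g hg
      constructor
      · intro h
        exact ⟨e ⟨g, hg, h⟩, by rw [e.symm_apply_apply]⟩
      · rintro ⟨i, rfl⟩
        exact (e.symm i).2.2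
    let w : Fin (k + 2) → U := fun i => if h : i.1 < k then (e.symm ⟨i.1, h⟩).1 else v i
    have hwx : ∀ i : Fin k, w (xi i) = (e.symm i).1 := by
      intro i
      show (if h : i.1 < k then (e.symm ⟨i.1, h⟩).1 else v (xi i)) = _
      rw [dif_pos i.2]
    refine ⟨w, ?_, ?_⟩
    · intro i hi
      show (if h : i.1 < k then (e.symm ⟨i.1, h⟩).1 else v i) = v i
      rw [dif_neg (by omega)]
    · rw [sat_con, sat_ex]
      refine ⟨?_, g0, ?_⟩
      · unfold dst
        rw [sat_con]
        constructor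
        · intro i
          show C.isVar (w (xi i))
          rw [hwx]
          exact (e.symm i).2.1
        · rintro ⟨⟨i, i'⟩, hne⟩ h
          apply hne
          change w (xi i) = w (xi i') at h
          rw [hwx, hwx] at h
          exact e.symm.injective (Subtype.ext h)
      · rw [sat_con]
        constructor
        · show C.isOut (Function.update w (yi true) g0 (yi true))
          rw [Function.update_self]
          exact hg0
        · rw [sat_evI hC hval (fun i => (e.symm i).1) hw true _ (fun i => by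
            rw [Function.update_of_ne (xi_ne _ _), hwx]), Function.update_self]
          exact hout g0 hg0

/-- the interpretation: one variable node, which is the output -/
def bruteInterp (k : ℕ) : Interp (k + 2) 1 where
  a := 1
  a_pos := by omega
  two_a := by omega
  M := 1
  dom _ := .isOut 0
  isVar _ := .eq 0 0
  isAnd _ := ff
  isOr _ := ff
  isNot _ := ff
  isOut _ := .eq 0 0
  wire _ _ := ff
  K := 1
  par _ := ws

theorem brute (C : Circ U) [Finite U] (hC : C.IsCircuit) :
    GAMMA 1 1 _ ((bruteInterp k).apply C) ∧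
      (C.WSat k ↔ ((bruteInterp k).apply C).WSat ((bruteInterp k).param C)) := by
  classical
  obtain ⟨g0, hg0, hu⟩ := hC.out
  have hsub : ∀ p q : (bruteInterp k).Univ C, p = q := by
    rintro ⟨⟨i, u⟩, h⟩ ⟨⟨i', u'⟩, h'⟩
    apply Subtype.ext
    apply Prod.ext
    · exact Subsingleton.elim (α := Fin 1) _ _
    · funext j
      show u j = u' j
      have hj : j = ⟨0, by show 0 < 1; omega⟩ := Subsingleton.elim (α := Fin 1) _ _
      subst hj
      exact (hu _ h).trans (hu _ h').symm
  let p0 : (bruteInterp k).Univ C := ⟨(⟨0, by show 0 < 1; omega⟩, fun _ => g0), hg0⟩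
  have hvar : ∀ p, ((bruteInterp k).apply C).isVar p := fun p => rfl
  have hw : ∀ p q, ¬ ((bruteInterp k).apply C).wire p q := fun p q h => h rfl
  have hand : ∀ p, ¬ ((bruteInterp k).apply C).isAnd p := fun p h => h rfl
  have hor : ∀ p, ¬ ((bruteInterp k).apply C).isOr p := fun p h => h rfl
  have hnot : ∀ p, ¬ ((bruteInterp k).apply C).isNot p := fun p h => h rfl
  have hF : ((bruteInterp k).apply C).IsFormula := by
    refine ⟨⟨fun p => Or.inl ⟨hvar p, hand p, hor p, hnot p⟩, ⟨p0, rfl, fun q _ => hsub _ _⟩,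
      fun p q _ => hw p q, fun p hp => absurd hp (hnot p), ?_⟩, fun p => Or.inl rfl,
      fun p _ _ hp => absurd (hvar p) hp⟩
    intro p hp
    obtain ⟨q, hq, _⟩ := Relation.TransGen.head'_iff.1 hp
    exact hw _ _ hq
  refine ⟨⟨hF, fun p _ => Or.inl (Or.inl ⟨le_refl _, Or.inl (hvar p)⟩)⟩, ?_⟩
  have hpar : (bruteInterp k).param C = if C.WSat k then 1 else 0 := by
    unfold Interp.param
    have h1 : ∀ j : Fin (bruteInterp k).K, (∀ v, C.Sat ((bruteInterp k).par j) v) ↔ C.WSat k := by
      intro j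
      constructor
      · intro h
        exact (sat_ws hC (fun _ => g0)).1 (h fun _ => g0)
      · intro h v
        exact (sat_ws hC v).2 h
    rw [Nat.card_congr (Equiv.subtypeEquivRight h1)]
    split
    · rename_i h
      rw [Nat.card_congr (Equiv.subtypeUnivEquiv fun _ => h)]
      exact Nat.card_fin 1
    · rename_i h
      have : IsEmpty {j : Fin (bruteInterp k).K // C.WSat k} := ⟨fun j => h j.2⟩
      exact Nat.card_of_isEmpty
  rw [hpar]
  constructor
  · intro h
    rw [if_pos h]
    refine ⟨fun _ => True, ⟨fun p hp => absurd hp (hand p), fun p hp => absurd hp (hor p),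
      fun p hp => absurd hp (hnot p)⟩, fun _ _ => trivial, ?_⟩
    rw [Nat.card_eq_one_iff_unique]
    exact ⟨⟨fun a b => Subtype.ext (hsub _ _)⟩, ⟨⟨p0, hvar p0, trivial⟩⟩⟩
  · rintro ⟨val, _, hout, hcard⟩
    by_contra h
    rw [if_neg h] at hcard
    have hfin : Finite ((bruteInterp k).Univ C) := ⟨⟨fun _ => (0 : Fin 1), fun _ => p0,
      fun _ => hsub _ _, fun _ => Subsingleton.elim _ _⟩⟩
    have : Nonempty {g // ((bruteInterp k).apply C).isVar g ∧ val g} :=
      ⟨⟨p0, hvar p0, hout p0 rfl⟩⟩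
    have h2 := Nat.card_pos (α := {g // ((bruteInterp k).apply C).isVar g ∧ val g})
    omega

end Brute

/-- With `k + 2` variables, weighted circuit satisfiability reduces to `Γ_{1,1}`. -/
theorem reduces_brute : Reduces (fun k => k + 2) CIRC (GAMMA 1 1) :=
  ⟨fun _ => 1, fun _ => 1, fun k _ => Brute.bruteInterp k, fun _ _ => le_refl _,
    fun _ _ _ C hC => Brute.brute C hC⟩

end Pool.Agent.WSatChain
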