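import Mathlib
import Pool.Agent.WSatChain.Defs

/-! Back-and-forth between circuits whose nodes are short lists over an underlying set. -/

namespace Pool.Agent.WSatChain

section basics

variable {W Sh : Type}

def Good (G : W × W → W × W → Prop) (l : List (W × W)) : Prop :=
  ∀ p ∈ l, ∀ q ∈ l, G p q

def Cov (l : List (W × W)) (e e' : Sh × List W) : Prop :=
  e.1 = e'.1 ∧ List.Forall₂ (fun x y => (x, y) ∈ l) e.2 e'.2

theorem forall₂_imp_mem {A B : Type} {R R' : A → B → Prop} {a : List A} {b : List B}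
    (h : List.Forall₂ R a b) (h' : ∀ x ∈ a, ∀ y ∈ b, R x y → R' x y) : List.Forall₂ R' a b := by
  induction h with
  | nil => exact List.Forall₂.nil
  | cons hxy _ ih =>
    refine List.Forall₂.cons (h' _ (by simp) _ (by simp) hxy) (ih ?_)
    intro x hx y hy hr
    exact h' x (by simp [hx]) y (by simp [hy]) hr

theorem forall₂_mem_left {A B : Type} {R : A → B → Prop} {a : List A} {b : List B}
    (h : List.Forall₂ R a b) : ∀ x ∈ a, ∃ y ∈ b, R x y := by
  induction h with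
  | nil => simp
  | cons hxy _ ih =>
    intro x hx
    rcases List.mem_cons.1 hx with rfl | hx
    · exact ⟨_, by simp, hxy⟩
    · obtain ⟨y, hy, hr⟩ := ih x hx
      exact ⟨y, by simp [hy], hr⟩

theorem forall₂_mem_right {A B : Type} {R : A → B → Prop} {a : List A} {b : List B}
    (h : List.Forall₂ R a b) : ∀ y ∈ b, ∃ x ∈ a, R x y := by
  induction h with
  | nil => simp
  | cons hxy _ ih =>
    intro y hy
    rcases List.mem_cons.1 hy with rfl | hy
    · exact ⟨_, by simp, hxy⟩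
    · obtain ⟨x, hx, hr⟩ := ih y hy
      exact ⟨x, by simp [hx], hr⟩

theorem forall₂_zip {A B : Type} {R : A → B → Prop} {a : List A} {b : List B}
    (h : List.Forall₂ R a b) : List.Forall₂ (fun x y => (x, y) ∈ a.zip b) a b := by
  induction h with
  | nil => exact List.Forall₂.nil
  | cons hxy _ ih =>
    refine List.Forall₂.cons (by simp) (ih.imp ?_)
    intro x y hz
    simp [hz]

theorem forall₂_zip_sub {A B : Type} {R : A → B → Prop} {a : List A} {b : List B}
    (h : List.Forall₂ R a b) : ∀ p ∈ a.zip b, R p.1 p.2 := by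
  induction h with
  | nil => simp
  | cons hxy _ ih =>
    intro p hp
    rw [List.zip_cons_cons, List.mem_cons] at hp
    rcases hp with rfl | hp
    · exact hxy
    · exact ih p hp

theorem Cov.mono {l l' : List (W × W)} {e e' : Sh × List W} (h : Cov l e e')
    (hl : ∀ p ∈ l, p ∈ l') : Cov l' e e' :=
  ⟨h.1, h.2.imp fun _ _ hp => hl _ hp⟩

theorem Cov.swap {l : List (W × W)} {e e' : Sh × List W} (h : Cov l e e') :
    Cov (l.map Prod.swap) e' e := by
  refine ⟨h.1.symm, h.2.flip.imp ?_⟩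
  intro x y hp
  exact List.mem_map.2 ⟨(y, x), hp, rfl⟩

theorem mem_map_swap {l : List (W × W)} {x y : W} : (x, y) ∈ l.map Prod.swap ↔ (y, x) ∈ l := by
  constructor
  · intro h
    obtain ⟨⟨a, b⟩, h1, h2⟩ := List.mem_map.1 h
    simp only [Prod.swap_prod_mk, Prod.mk.injEq] at h2
    obtain ⟨rfl, rfl⟩ := h2
    exact h1
  · intro h
    exact List.mem_map.2 ⟨(y, x), h, rfl⟩

theorem cov_of_map {l : List (W × W)} {s : Sh} {a : List W} {f : W → W}
    (hf : ∀ x ∈ a, (x, f x) ∈ l) : Cov l (s, a) (s, a.map f) := by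
  refine ⟨rfl, ?_⟩
  show List.Forall₂ _ a (a.map f)
  induction a with
  | nil => exact List.Forall₂.nil
  | cons x a ih =>
    refine List.Forall₂.cons (hf x (by simp)) (ih ?_)
    intro y hy
    exact hf y (by simp [hy])

theorem Cov.mem_left {l : List (W × W)} {e e' : Sh × List W} (h : Cov l e e') :
    ∀ x ∈ e.2, ∃ y ∈ e'.2, (x, y) ∈ l := forall₂_mem_left h.2

theorem Cov.mem_right {l : List (W × W)} {e e' : Sh × List W} (h : Cov l e e') :
    ∀ y ∈ e'.2, ∃ x ∈ e.2, (x, y) ∈ l := forall₂_mem_right h.2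

theorem Cov.restrict {l l' : List (W × W)} {e e' : Sh × List W} (h : Cov l e e')
    (hl : ∀ x ∈ e.2, ∀ y ∈ e'.2, (x, y) ∈ l → (x, y) ∈ l') : Cov l' e e' :=
  ⟨h.1, forall₂_imp_mem h.2 hl⟩

end basics

/-- A frame: an underlying set `W`, compatibility `G` of pairs, and a circuit structure on
labelled lists that is preserved by good partial maps. -/
structure Frame where
  W : Type
  Sh : Type
  L : ℕ
  G : W × W → W × W → Prop
  valid : Sh × List W → Prop
  cir : Circ (Sh × List W)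
  G_inj : ∀ p q, G p q → (p.1 = q.1 ↔ p.2 = q.2)
  G_swap : ∀ p q, G p q → G p.swap q.swap
  G_refl : ∀ x x', G (x, x) (x', x')
  len : ∀ e, valid e → e.2.length ≤ L
  p_valid : ∀ l e e', Good G l → Cov l e e' → valid e → valid e'
  p_var : ∀ l e e', Good G l → Cov l e e' → cir.isVar e → cir.isVar e'
  p_and : ∀ l e e', Good G l → Cov l e e' → cir.isAnd e → cir.isAnd e'
  p_or : ∀ l e e', Good G l → Cov l e e' → cir.isOr e → cir.isOr e'
  p_not : ∀ l e e', Good G l → Cov l e e' → cir.isNot e → cir.isNot e'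
  p_out : ∀ l e e', Good G l → Cov l e e' → cir.isOut e → cir.isOut e'
  p_wire : ∀ l e e' h h', Good G l → Cov l e e' → Cov l h h' → cir.wire e h → cir.wire e' h'

namespace Frame

variable (Fr : Frame)

/-- nodes over the domain `X` -/
def U (X : Fr.W → Prop) : Type := {e : Fr.Sh × List Fr.W // Fr.valid e ∧ ∀ x ∈ e.2, X x}

/-- the circuit over the domain `X` -/
def C (X : Fr.W → Prop) : Circ (Fr.U X) where
  isVar e := Fr.cir.isVar e.1
  isAnd e := Fr.cir.isAnd e.1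
  isOr e := Fr.cir.isOr e.1
  isNot e := Fr.cir.isNot e.1
  isOut e := Fr.cir.isOut e.1
  wire e h := Fr.cir.wire e.1 h.1

/-- positions -/
def Pos (X Y : Fr.W → Prop) (l : List (Fr.W × Fr.W)) : Prop :=
  Good Fr.G l ∧ ∀ p ∈ l, X p.1 ∧ Y p.2

/-- one-point extension with avoidance -/
def Ext (X Y : Fr.W → Prop) (R S : ℕ) : Prop :=
  ∀ l, Fr.Pos X Y l → l.length < R → ∀ x, X x → (∀ p ∈ l, p.1 ≠ x) →
    ∀ Z : List Fr.W, Z.length ≤ S → ∃ y, y ∉ Z ∧ Fr.Pos X Y ((x, y) :: l)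

variable {Fr} {X Y : Fr.W → Prop} {R S : ℕ}

theorem Pos.swap {l : List (Fr.W × Fr.W)} (h : Fr.Pos X Y l) :
    Fr.Pos Y X (l.map Prod.swap) := by
  constructor
  · intro p hp q hq
    obtain ⟨p', hp', rfl⟩ := List.mem_map.1 hp
    obtain ⟨q', hq', rfl⟩ := List.mem_map.1 hq
    exact Fr.G_swap _ _ (h.1 p' hp' q' hq')
  · intro p hp
    obtain ⟨p', hp', rfl⟩ := List.mem_map.1 hp
    exact (h.2 p' hp').symm

theorem Pos.sub {l l' : List (Fr.W × Fr.W)} (h : Fr.Pos X Y l) (hl : ∀ p ∈ l', p ∈ l) :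
    Fr.Pos X Y l' :=
  ⟨fun p hp q hq => h.1 p (hl p hp) q (hl q hq), fun p hp => h.2 p (hl p hp)⟩

theorem Pos.func {l : List (Fr.W × Fr.W)} (h : Fr.Pos X Y l) {x y y' : Fr.W}
    (h1 : (x, y) ∈ l) (h2 : (x, y') ∈ l) : y = y' :=
  ((Fr.G_inj _ _ (h.1 _ h1 _ h2)).1 rfl)

theorem Pos.inj {l : List (Fr.W × Fr.W)} (h : Fr.Pos X Y l) {x x' y : Fr.W}
    (h1 : (x, y) ∈ l) (h2 : (x', y) ∈ l) : x = x' :=
  ((Fr.G_inj _ _ (h.1 _ h1 _ h2)).2 rfl)

theorem pos_nil : Fr.Pos X Y [] := ⟨by intro p hp; simp at hp, by intro p hp; simp at hp⟩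

theorem pos_id {xs : List Fr.W} (h : ∀ x ∈ xs, X x ∧ Y x) :
    Fr.Pos X Y (xs.map fun x => (x, x)) := by
  constructor
  · intro p hp q hq
    obtain ⟨x, _, rfl⟩ := List.mem_map.1 hp
    obtain ⟨x', _, rfl⟩ := List.mem_map.1 hq
    exact Fr.G_refl x x'
  · intro p hp
    obtain ⟨x, hx, rfl⟩ := List.mem_map.1 hp
    exact h x hx

theorem mem_id {xs : List Fr.W} {x y : Fr.W} :
    (x, y) ∈ xs.map (fun x => (x, x)) ↔ x ∈ xs ∧ x = y := by
  constructor
  · intro h
    obtain ⟨z, hz, h2⟩ := List.mem_map.1 h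
    simp only [Prod.mk.injEq] at h2
    obtain ⟨rfl, rfl⟩ := h2
    exact ⟨hz, rfl⟩
  · rintro ⟨h, rfl⟩
    exact List.mem_map.2 ⟨x, h, rfl⟩

theorem cov_func {l : List (Fr.W × Fr.W)} (h : Fr.Pos X Y l) {e e1 e2 : Fr.Sh × List Fr.W}
    (h1 : Cov l e e1) (h2 : Cov l e e2) : e1 = e2 := by
  obtain ⟨s, a⟩ := e
  obtain ⟨s1, a1⟩ := e1
  obtain ⟨s2, a2⟩ := e2
  obtain ⟨h1s, h1l⟩ := h1
  obtain ⟨h2s, h2l⟩ := h2
  simp only at h1s h2s h1l h2l
  subst h1s
  subst h2s
  congr 1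
  induction h1l generalizing a2 with
  | nil => cases h2l; rfl
  | cons hxy _ ih =>
    cases h2l with
    | cons hxy' h2l' => rw [h.func hxy hxy', ih _ h2l']

theorem cov_inj {l : List (Fr.W × Fr.W)} (h : Fr.Pos X Y l) {e e1 e2 : Fr.Sh × List Fr.W}
    (h1 : Cov l e1 e) (h2 : Cov l e2 e) : e1 = e2 :=
  cov_func h.swap h1.swap h2.swap

/-- extension by a list -/
theorem ext_list (hE : Fr.Ext X Y R S) {Z : List Fr.W} (hZ : Z.length ≤ S) :
    ∀ (xs : List Fr.W) (l : List (Fr.W × Fr.W)), Fr.Pos X Y l → (∀ x ∈ xs, X x) →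
      l.length + xs.length ≤ R →
      ∃ l1, Fr.Pos X Y l1 ∧ (∀ p ∈ l, p ∈ l1) ∧ l1.length ≤ l.length + xs.length ∧
        (∀ x ∈ xs, ∃ y, (x, y) ∈ l1) ∧
        (∀ p ∈ l1, p ∈ l ∨ (p.2 ∉ Z ∧ p.1 ∈ xs ∧ ∀ q ∈ l, q.1 ≠ p.1)) := by
  intro xs
  induction xs with
  | nil =>
    intro l hl _ _
    exact ⟨l, hl, fun p hp => hp, by simp, by simp, fun p hp => Or.inl hp⟩
  | cons x xs ih =>
    intro l hl hx hR
    simp only [List.length_cons] at hR
    obtain ⟨l1, h1, h2, h3, h4, h5⟩ := ih l hl (fun z hz => hx z (by simp [hz])) (by omega)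
    by_cases hdom : ∀ p ∈ l1, p.1 ≠ x
    · obtain ⟨y, hy, hpos⟩ := hE l1 h1 (by omega) x (hx x (by simp)) hdom Z hZ
      refine ⟨(x, y) :: l1, hpos, ?_, ?_, ?_, ?_⟩
      · intro p hp
        exact List.mem_cons_of_mem _ (h2 p hp)
      · simp only [List.length_cons]
        omega
      · intro z hz
        rcases List.mem_cons.1 hz with rfl | hz
        · exact ⟨y, by simp⟩
        · obtain ⟨y', hy'⟩ := h4 z hz
          exact ⟨y', List.mem_cons_of_mem _ hy'⟩
      · intro p hp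
        rcases List.mem_cons.1 hp with rfl | hp
        · refine Or.inr ⟨hy, by simp, ?_⟩
          intro q hq
          exact hdom q (h2 q hq)
        · rcases h5 p hp with h | ⟨h, h', h''⟩
          · exact Or.inl h
          · exact Or.inr ⟨h, by simp [h'], h''⟩
    · push Not at hdom
      obtain ⟨⟨x', y⟩, hp, hpx⟩ := hdom
      simp only at hpx
      subst hpx
      refine ⟨l1, h1, h2, ?_, ?_, ?_⟩
      · simp only [List.length_cons]
        omega
      · intro z hz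
        rcases List.mem_cons.1 hz with rfl | hz
        · exact ⟨y, hp⟩
        · exact h4 z hz
      · intro p hp
        rcases h5 p hp with h | ⟨h, h', h''⟩
        · exact Or.inl h
        · exact Or.inr ⟨h, by simp [h'], h''⟩

/-- mapping a node -/
theorem cov_exists {l : List (Fr.W × Fr.W)} (hl : Fr.Pos X Y l) (e : Fr.U X)
    (h : ∀ x ∈ e.1.2, ∃ y, (x, y) ∈ l) : ∃ e' : Fr.U Y, Cov l e.1 e'.1 := by
  classical
  obtain ⟨⟨s, a⟩, hv, hd⟩ := e
  simp only at h
  let f : Fr.W → Fr.W := fun x => if hx : ∃ y, (x, y) ∈ l then hx.choose else x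
  have hf : ∀ x ∈ a, (x, f x) ∈ l := by
    intro x hx
    have hx' := h x hx
    simp only [f, dif_pos hx']
    exact hx'.choose_spec
  have hc : Cov l (s, a) (s, a.map f) := cov_of_map hf
  refine ⟨⟨(s, a.map f), Fr.p_valid l _ _ hl.1 hc hv, ?_⟩, hc⟩
  intro y hy
  obtain ⟨x, _, hxy⟩ := hc.mem_right y hy
  exact (hl.2 _ hxy).2

/-- the list of pairs used by a tuple -/
def zips {c : ℕ} (v : Fin c → Fr.U X) (v' : Fin c → Fr.U Y) : List (Fr.W × Fr.W) :=
  (List.finRange c).flatMap fun j => (v j).1.2.zip (v' j).1.2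

theorem zips_length {c : ℕ} (v : Fin c → Fr.U X) (v' : Fin c → Fr.U Y) :
    (zips v v').length ≤ c * Fr.L := by
  unfold zips
  rw [List.length_flatMap]
  have h : ∀ y ∈ List.map (fun j => ((v j).1.2.zip (v' j).1.2).length) (List.finRange c),
      y ≤ Fr.L := by
    intro y hy
    obtain ⟨j, _, rfl⟩ := List.mem_map.1 hy
    rw [List.length_zip]
    exact (min_le_left _ _).trans (Fr.len _ (v j).2.1)
  have := List.sum_le_card_nsmul _ _ h
  simpa using this

theorem zips_sub {c : ℕ} {v : Fin c → Fr.U X} {v' : Fin c → Fr.U Y} {l : List (Fr.W × Fr.W)}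
    (h : ∀ j, Cov l (v j).1 (v' j).1) : ∀ p ∈ zips v v', p ∈ l := by
  intro p hp
  obtain ⟨j, _, hj⟩ := List.mem_flatMap.1 hp
  exact forall₂_zip_sub (h j).2 p hj

theorem zips_cov {c : ℕ} {v : Fin c → Fr.U X} {v' : Fin c → Fr.U Y} {l : List (Fr.W × Fr.W)}
    (h : ∀ j, Cov l (v j).1 (v' j).1) (j : Fin c) : Cov (zips v v') (v j).1 (v' j).1 := by
  refine ⟨(h j).1, (forall₂_zip (h j).2).imp ?_⟩
  intro x y hxy
  exact List.mem_flatMap.2 ⟨j, List.mem_finRange j, hxy⟩

end Frame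

end Pool.Agent.WSatChain
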