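import Mathlib
import Pool.Agent.WSatChain.Frame

/-! Formulas with few variables are preserved by back-and-forth. -/

namespace Pool.Agent.WSatChain

namespace Frame

variable {Fr : Frame} {X Y : Fr.W → Prop} {R S : ℕ}

theorem eq_iff {l : List (Fr.W × Fr.W)} (hl : Fr.Pos X Y l) {e e' h h' : Fr.Sh × List Fr.W}
    (h1 : Cov l e e') (h2 : Cov l h h') : e = h ↔ e' = h' := by
  constructor
  · rintro rfl
    exact cov_func hl h1 h2
  · rintro rfl
    exact cov_inj hl h1 h2

theorem var_iff {l : List (Fr.W × Fr.W)} (hl : Fr.Pos X Y l) {e e' : Fr.Sh × List Fr.W}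
    (h : Cov l e e') : Fr.cir.isVar e ↔ Fr.cir.isVar e' :=
  ⟨Fr.p_var l e e' hl.1 h, Fr.p_var _ e' e hl.swap.1 h.swap⟩

theorem and_iff' {l : List (Fr.W × Fr.W)} (hl : Fr.Pos X Y l) {e e' : Fr.Sh × List Fr.W}
    (h : Cov l e e') : Fr.cir.isAnd e ↔ Fr.cir.isAnd e' :=
  ⟨Fr.p_and l e e' hl.1 h, Fr.p_and _ e' e hl.swap.1 h.swap⟩

theorem or_iff' {l : List (Fr.W × Fr.W)} (hl : Fr.Pos X Y l) {e e' : Fr.Sh × List Fr.W}
    (h : Cov l e e') : Fr.cir.isOr e ↔ Fr.cir.isOr e' :=
  ⟨Fr.p_or l e e' hl.1 h, Fr.p_or _ e' e hl.swap.1 h.swap⟩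

theorem not_iff' {l : List (Fr.W × Fr.W)} (hl : Fr.Pos X Y l) {e e' : Fr.Sh × List Fr.W}
    (h : Cov l e e') : Fr.cir.isNot e ↔ Fr.cir.isNot e' :=
  ⟨Fr.p_not l e e' hl.1 h, Fr.p_not _ e' e hl.swap.1 h.swap⟩

theorem out_iff {l : List (Fr.W × Fr.W)} (hl : Fr.Pos X Y l) {e e' : Fr.Sh × List Fr.W}
    (h : Cov l e e') : Fr.cir.isOut e ↔ Fr.cir.isOut e' :=
  ⟨Fr.p_out l e e' hl.1 h, Fr.p_out _ e' e hl.swap.1 h.swap⟩

theorem wire_iff {l : List (Fr.W × Fr.W)} (hl : Fr.Pos X Y l) {e e' h h' : Fr.Sh × List Fr.W}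
    (h1 : Cov l e e') (h2 : Cov l h h') : Fr.cir.wire e h ↔ Fr.cir.wire e' h' :=
  ⟨Fr.p_wire l e e' h h' hl.1 h1 h2, Fr.p_wire _ e' e h' h hl.swap.1 h1.swap h2.swap⟩

theorem count_forth (hE : Fr.Ext X Y R S) (l0 : List (Fr.W × Fr.W)) (hl0 : Fr.Pos X Y l0)
    (hlen : l0.length + Fr.L ≤ R) :
    ∀ bs : List (Fr.U X), bs.Nodup → bs.length * Fr.L ≤ S →
      ∃ bs' : List (Fr.U Y), bs'.Nodup ∧ bs'.length = bs.length ∧
        ∀ b' ∈ bs', ∃ b ∈ bs, ∃ l1, Fr.Pos X Y l1 ∧ (∀ p ∈ l0, p ∈ l1) ∧ Cov l1 b.1 b'.1 := by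
  intro bs
  induction bs with
  | nil => intro _ _; exact ⟨[], by simp, rfl, by simp⟩
  | cons b rest ih =>
    intro hnd hS
    rw [List.nodup_cons] at hnd
    have hS' : rest.length * Fr.L + Fr.L ≤ S := by
      have : (b :: rest).length * Fr.L = rest.length * Fr.L + Fr.L := by
        simp only [List.length_cons]; ring
      omega
    obtain ⟨rest', hnd', hlen', hrel⟩ := ih hnd.2 (by omega)
    set Z : List Fr.W := rest'.flatMap fun r => r.1.2 with hZdef
    have hZlen : Z.length ≤ S := by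
      have h1 : Z.length ≤ rest'.length * Fr.L := by
        rw [hZdef, List.length_flatMap]
        have h : ∀ y ∈ List.map (fun r : Fr.U Y => r.1.2.length) rest', y ≤ Fr.L := by
          intro y hy
          obtain ⟨r, _, rfl⟩ := List.mem_map.1 hy
          exact Fr.len _ r.2.1
        have := List.sum_le_card_nsmul _ _ h
        simpa using this
      rw [hlen'] at h1
      omega
    have hbl : b.1.2.length ≤ Fr.L := Fr.len _ b.2.1
    obtain ⟨l1, hl1, hsub, _, hdom, hnew⟩ :=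
      ext_list hE hZlen b.1.2 l0 hl0 b.2.2 (by omega)
    obtain ⟨b', hb'⟩ := cov_exists hl1 b hdom
    refine ⟨b' :: rest', ?_, by simp [hlen'], ?_⟩
    · rw [List.nodup_cons]
      refine ⟨?_, hnd'⟩
      intro hmem
      obtain ⟨r, hr, l2, hl2, hsub2, hcov2⟩ := hrel b' hmem
      have hc0 : Cov l0 b.1 b'.1 := by
        refine hb'.restrict ?_
        intro x hx y hy hxy
        rcases hnew _ hxy with h | ⟨h, _⟩
        · exact h
        · exfalso
          apply h
          rw [hZdef]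
          exact List.mem_flatMap.2 ⟨b', hmem, hy⟩
      have := cov_inj hl2 (hc0.mono hsub2) hcov2
      apply hnd.1
      have hbr : b = r := Subtype.ext this
      rw [hbr]
      exact hr
    · intro c' hc'
      rcases List.mem_cons.1 hc' with rfl | hc'
      · exact ⟨b, by simp, l1, hl1, hsub, hb'⟩
      · obtain ⟨r, hr, h⟩ := hrel c' hc'
        exact ⟨r, by simp [hr], h⟩

theorem sat_iff {c N : ℕ} (hXY : Fr.Ext X Y R S) (hYX : Fr.Ext Y X R S)
    (hR : (c + 1) * Fr.L ≤ R) (hS : N * Fr.L ≤ S) (φ : Fml c N) :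
    ∀ (v : Fin c → Fr.U X) (v' : Fin c → Fr.U Y) (l : List (Fr.W × Fr.W)), Fr.Pos X Y l →
      (∀ j, Cov l (v j).1 (v' j).1) → ((Fr.C X).Sat φ v ↔ (Fr.C Y).Sat φ v') := by
  classical
  have key : ∀ (X Y : Fr.W → Prop), Fr.Ext X Y R S → ∀ (φ : Fml c N)
      (v : Fin c → Fr.U X) (v' : Fin c → Fr.U Y) (l : List (Fr.W × Fr.W)), Fr.Pos X Y l →
      (∀ j, Cov l (v j).1 (v' j).1) → ∀ (m : Fin (N + 1)) (i : Fin c),
      (∀ (w : Fin c → Fr.U X) (w' : Fin c → Fr.U Y) (l : List (Fr.W × Fr.W)), Fr.Pos X Y l →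
        (∀ j, Cov l (w j).1 (w' j).1) → (Fr.C X).Sat φ w → (Fr.C Y).Sat φ w') →
      (Fr.C X).Sat (.atLeast m i φ) v → (Fr.C Y).Sat (.atLeast m i φ) v' := by
    intro X Y hE φ v v' l hl hc m i ih hs
    obtain ⟨s, hcard, hs⟩ := hs
    have hpos0 : Fr.Pos X Y (zips v v') := hl.sub (zips_sub hc)
    have hlen0 : (zips v v').length + Fr.L ≤ R := by
      have := zips_length v v'
      have h2 : (c + 1) * Fr.L = c * Fr.L + Fr.L := by ring
      omega
    have hm : (m : ℕ) ≤ N := by have := m.2; omega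
    have hlenS : s.toList.length * Fr.L ≤ S := by
      rw [Finset.length_toList, hcard]
      exact (Nat.mul_le_mul_right _ hm).trans hS
    obtain ⟨bs', hnd, hlen, hrel⟩ :=
      count_forth hE (zips v v') hpos0 hlen0 s.toList s.nodup_toList hlenS
    refine ⟨bs'.toFinset, ?_, ?_⟩
    · rw [List.toFinset_card_of_nodup hnd, hlen, Finset.length_toList, hcard]
    · intro b' hb'
      rw [List.mem_toFinset] at hb'
      obtain ⟨b, hb, l1, hl1, hsub, hcov⟩ := hrel b' hb'
      refine ih _ _ l1 hl1 ?_ (hs b (by simpa using hb))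
      intro j
      by_cases hj : j = i
      · subst hj
        simpa using hcov
      · simp only [Function.update_of_ne hj]
        exact (zips_cov hc j).mono hsub
  induction φ with
  | eq i j =>
    intro v v' l hl hc
    show v i = v j ↔ v' i = v' j
    exact ⟨fun h => Subtype.ext ((eq_iff hl (hc i) (hc j)).1 (congrArg Subtype.val h)),
      fun h => Subtype.ext ((eq_iff hl (hc i) (hc j)).2 (congrArg Subtype.val h))⟩
  | isVar i => intro v v' l hl hc; exact var_iff hl (hc i)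
  | isAnd i => intro v v' l hl hc; exact and_iff' hl (hc i)
  | isOr i => intro v v' l hl hc; exact or_iff' hl (hc i)
  | isNot i => intro v v' l hl hc; exact not_iff' hl (hc i)
  | isOut i => intro v v' l hl hc; exact out_iff hl (hc i)
  | wire i j => intro v v' l hl hc; exact wire_iff hl (hc i) (hc j)
  | neg φ ih => intro v v' l hl hc; exact not_congr (ih v v' l hl hc)
  | conj ι φ ih =>
    intro v v' l hl hc
    exact forall_congr' fun x => ih x v v' l hl hc
  | atLeast m i φ ih =>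
    intro v v' l hl hc
    constructor
    · exact key X Y hXY φ v v' l hl hc m i (fun w w' l hl hc => (ih w w' l hl hc).1)
    · refine key Y X hYX φ v' v _ hl.swap (fun j => (hc j).swap) m i ?_
      intro w w' l hl hc
      have hl' := hl.swap
      exact (ih w' w _ hl' (fun j => (hc j).swap)).2

end Frame

end Pool.Agent.WSatChain
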