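import Mathlib
import Pool.Agent.WSatChain.Logic

/-! Nodes of an interpreted circuit and partial maps between them. -/

namespace Pool.Agent.WSatChain

namespace Frame

variable {Fr : Frame} {X Y : Fr.W → Prop} {c N K R S : ℕ}

/-- the hypotheses under which two domains are compared -/
structure Env (Fr : Frame) (c N K R S : ℕ) (X Y : Fr.W → Prop) : Prop where
  xx : Fr.Ext X X R S
  xy : Fr.Ext X Y R S
  yx : Fr.Ext Y X R S
  yy : Fr.Ext Y Y R S
  hR : (2 * c + 1) * Fr.L ≤ R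
  hS : (N + (K + 3) * c) * Fr.L ≤ S

theorem Env.symm (env : Env Fr c N K R S X Y) : Env Fr c N K R S Y X :=
  ⟨env.yy, env.yx, env.xy, env.xx, env.hR, env.hS⟩

theorem Env.left (env : Env Fr c N K R S X Y) : Env Fr c N K R S X X :=
  ⟨env.xx, env.xx, env.xx, env.xx, env.hR, env.hS⟩

theorem Env.hR1 (env : Env Fr c N K R S X Y) : (c + 1) * Fr.L ≤ R := by
  refine le_trans (Nat.mul_le_mul_right _ ?_) env.hR
  omega

theorem Env.hS1 (env : Env Fr c N K R S X Y) : N * Fr.L ≤ S := by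
  refine le_trans (Nat.mul_le_mul_right _ ?_) env.hS
  omega

theorem Env.sat (env : Env Fr c N K R S X Y) (φ : Fml c N)
    (v : Fin c → Fr.U X) (v' : Fin c → Fr.U Y) (l : List (Fr.W × Fr.W)) (hl : Fr.Pos X Y l)
    (h : ∀ j, Cov l (v j).1 (v' j).1) : (Fr.C X).Sat φ v ↔ (Fr.C Y).Sat φ v' :=
  sat_iff env.xy env.yx env.hR1 env.hS1 φ v v' l hl h

variable {F : Interp c N}

/-- the underlying elements of a node -/
def supp (g : F.Univ (Fr.C X)) : List Fr.W :=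
  (List.finRange F.a).flatMap fun j => (g.1.2 j).1.2

theorem mem_supp {g : F.Univ (Fr.C X)} {x : Fr.W} :
    x ∈ supp g ↔ ∃ j, x ∈ (g.1.2 j).1.2 := by
  unfold supp
  simp [List.mem_flatMap]

theorem supp_dom {g : F.Univ (Fr.C X)} {x : Fr.W} (h : x ∈ supp g) : X x := by
  obtain ⟨j, hj⟩ := mem_supp.1 h
  exact (g.1.2 j).2.2 x hj

theorem supp_length (g : F.Univ (Fr.C X)) : (supp g).length ≤ F.a * Fr.L := by
  unfold supp
  rw [List.length_flatMap]
  have h : ∀ y ∈ List.map (fun j => ((g.1.2 j).1.2).length) (List.finRange F.a),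
      y ≤ Fr.L := by
    intro y hy
    obtain ⟨j, _, rfl⟩ := List.mem_map.1 hy
    exact Fr.len _ (g.1.2 j).2.1
  have := List.sum_le_card_nsmul _ _ h
  simpa using this

theorem two_supp (F : Interp c N) : F.a * Fr.L + F.a * Fr.L ≤ c * Fr.L := by
  have h := Nat.mul_le_mul_right Fr.L F.two_a
  calc F.a * Fr.L + F.a * Fr.L = 2 * F.a * Fr.L := by ring
    _ ≤ c * Fr.L := h

/-- `g'` is the image of `g` under the partial map -/
def CovN (l : List (Fr.W × Fr.W)) (g : F.Univ (Fr.C X)) (g' : F.Univ (Fr.C Y)) : Prop :=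
  g.1.1 = g'.1.1 ∧ ∀ j, Cov l (g.1.2 j).1 (g'.1.2 j).1

theorem CovN.mono {l l' : List (Fr.W × Fr.W)} {g : F.Univ (Fr.C X)} {g' : F.Univ (Fr.C Y)}
    (h : CovN l g g') (hl : ∀ p ∈ l, p ∈ l') : CovN l' g g' :=
  ⟨h.1, fun j => (h.2 j).mono hl⟩

theorem CovN.swap {l : List (Fr.W × Fr.W)} {g : F.Univ (Fr.C X)} {g' : F.Univ (Fr.C Y)}
    (h : CovN l g g') : CovN (l.map Prod.swap) g' g :=
  ⟨h.1.symm, fun j => (h.2 j).swap⟩

theorem CovN.mem_left {l : List (Fr.W × Fr.W)} {g : F.Univ (Fr.C X)} {g' : F.Univ (Fr.C Y)}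
    (h : CovN l g g') : ∀ x ∈ supp g, ∃ y ∈ supp g', (x, y) ∈ l := by
  intro x hx
  obtain ⟨j, hj⟩ := mem_supp.1 hx
  obtain ⟨y, hy, hxy⟩ := (h.2 j).mem_left x hj
  exact ⟨y, mem_supp.2 ⟨j, hy⟩, hxy⟩

theorem CovN.mem_right {l : List (Fr.W × Fr.W)} {g : F.Univ (Fr.C X)} {g' : F.Univ (Fr.C Y)}
    (h : CovN l g g') : ∀ y ∈ supp g', ∃ x ∈ supp g, (x, y) ∈ l := by
  intro y hy
  obtain ⟨j, hj⟩ := mem_supp.1 hy
  obtain ⟨x, hx, hxy⟩ := (h.2 j).mem_right y hj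
  exact ⟨x, mem_supp.2 ⟨j, hx⟩, hxy⟩

theorem CovN.restrict {l l' : List (Fr.W × Fr.W)} {g : F.Univ (Fr.C X)} {g' : F.Univ (Fr.C Y)}
    (h : CovN l g g') (hl : ∀ x ∈ supp g, ∀ y ∈ supp g', (x, y) ∈ l → (x, y) ∈ l') :
    CovN l' g g' :=
  ⟨h.1, fun j => (h.2 j).restrict fun x hx y hy hxy =>
    hl x (mem_supp.2 ⟨j, hx⟩) y (mem_supp.2 ⟨j, hy⟩) hxy⟩

theorem covN_func {l : List (Fr.W × Fr.W)} (hl : Fr.Pos X Y l) {g : F.Univ (Fr.C X)}
    {g1 g2 : F.Univ (Fr.C Y)} (h1 : CovN l g g1) (h2 : CovN l g g2) : g1 = g2 := by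
  apply Subtype.ext
  apply Prod.ext
  · exact h1.1.symm.trans h2.1
  · funext j
    exact Subtype.ext (cov_func hl (h1.2 j) (h2.2 j))

theorem covN_inj {l : List (Fr.W × Fr.W)} (hl : Fr.Pos X Y l) {g : F.Univ (Fr.C Y)}
    {g1 g2 : F.Univ (Fr.C X)} (h1 : CovN l g1 g) (h2 : CovN l g2 g) : g1 = g2 :=
  covN_func hl.swap h1.swap h2.swap

theorem covN_id {g : F.Univ (Fr.C X)} {xs : List Fr.W} (h : ∀ x ∈ supp g, x ∈ xs) :
    CovN (xs.map fun x => (x, x)) g g := by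
  refine ⟨rfl, fun j => ⟨rfl, ?_⟩⟩
  have : ∀ a : List Fr.W, (∀ x ∈ a, x ∈ xs) →
      List.Forall₂ (fun x y => (x, y) ∈ xs.map fun x => (x, x)) a a := by
    intro a
    induction a with
    | nil => intro _; exact List.Forall₂.nil
    | cons x a ih =>
      intro ha
      refine List.Forall₂.cons (mem_id.2 ⟨ha x (by simp), rfl⟩) (ih ?_)
      intro z hz
      exact ha z (by simp [hz])
  exact this _ fun x hx => h x (mem_supp.2 ⟨j, hx⟩)

theorem one_cov {l : List (Fr.W × Fr.W)} {u : Fin F.a → Fr.U X} {u' : Fin F.a → Fr.U Y}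
    (h : ∀ j, Cov l (u j).1 (u' j).1) (i : Fin c) :
    Cov l (F.one u i).1 (F.one u' i).1 := by
  unfold Interp.one
  split
  · exact h _
  · exact h _

theorem two_cov {l : List (Fr.W × Fr.W)} {u w : Fin F.a → Fr.U X} {u' w' : Fin F.a → Fr.U Y}
    (h : ∀ j, Cov l (u j).1 (u' j).1) (h' : ∀ j, Cov l (w j).1 (w' j).1) (i : Fin c) :
    Cov l (F.two u w i).1 (F.two u' w' i).1 := by
  unfold Interp.two
  split
  · exact h _
  · split
    · exact h' _
    · exact h _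

theorem covN_exists (env : Env Fr c N K R S X Y) {l : List (Fr.W × Fr.W)} (hl : Fr.Pos X Y l)
    (g : F.Univ (Fr.C X)) (h : ∀ x ∈ supp g, ∃ y, (x, y) ∈ l) :
    ∃ g' : F.Univ (Fr.C Y), CovN l g g' := by
  have h1 : ∀ j, ∃ e' : Fr.U Y, Cov l (g.1.2 j).1 e'.1 := fun j =>
    cov_exists hl (g.1.2 j) fun x hx => h x (mem_supp.2 ⟨j, hx⟩)
  choose u' hu' using h1
  refine ⟨⟨(g.1.1, u'), ?_⟩, rfl, hu'⟩
  exact (env.sat (F.dom g.1.1) (F.one g.1.2) (F.one u') l hl (one_cov hu')).1 g.2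

theorem node_iff (env : Env Fr c N K R S X Y) {l : List (Fr.W × Fr.W)} (hl : Fr.Pos X Y l)
    (φ : Fin F.M → Fml c N) {g : F.Univ (Fr.C X)} {g' : F.Univ (Fr.C Y)} (h : CovN l g g') :
    (Fr.C X).Sat (φ g.1.1) (F.one g.1.2) ↔ (Fr.C Y).Sat (φ g'.1.1) (F.one g'.1.2) := by
  rw [h.1]
  exact env.sat _ _ _ l hl (one_cov h.2)

theorem nwire_iff (env : Env Fr c N K R S X Y) {l : List (Fr.W × Fr.W)} (hl : Fr.Pos X Y l)
    {g h : F.Univ (Fr.C X)} {g' h' : F.Univ (Fr.C Y)} (h1 : CovN l g g') (h2 : CovN l h h') :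
    (F.apply (Fr.C X)).wire g h ↔ (F.apply (Fr.C Y)).wire g' h' := by
  show (Fr.C X).Sat (F.wire g.1.1 h.1.1) _ ↔ (Fr.C Y).Sat (F.wire g'.1.1 h'.1.1) _
  rw [h1.1, h2.1]
  exact env.sat _ _ _ l hl (two_cov h1.2 h2.2)

theorem nvar_iff (env : Env Fr c N K R S X Y) {l : List (Fr.W × Fr.W)} (hl : Fr.Pos X Y l)
    {g : F.Univ (Fr.C X)} {g' : F.Univ (Fr.C Y)} (h : CovN l g g') :
    (F.apply (Fr.C X)).isVar g ↔ (F.apply (Fr.C Y)).isVar g' := node_iff env hl F.isVar h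

theorem nand_iff (env : Env Fr c N K R S X Y) {l : List (Fr.W × Fr.W)} (hl : Fr.Pos X Y l)
    {g : F.Univ (Fr.C X)} {g' : F.Univ (Fr.C Y)} (h : CovN l g g') :
    (F.apply (Fr.C X)).isAnd g ↔ (F.apply (Fr.C Y)).isAnd g' := node_iff env hl F.isAnd h

theorem nor_iff (env : Env Fr c N K R S X Y) {l : List (Fr.W × Fr.W)} (hl : Fr.Pos X Y l)
    {g : F.Univ (Fr.C X)} {g' : F.Univ (Fr.C Y)} (h : CovN l g g') :
    (F.apply (Fr.C X)).isOr g ↔ (F.apply (Fr.C Y)).isOr g' := node_iff env hl F.isOr h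

theorem nnot_iff (env : Env Fr c N K R S X Y) {l : List (Fr.W × Fr.W)} (hl : Fr.Pos X Y l)
    {g : F.Univ (Fr.C X)} {g' : F.Univ (Fr.C Y)} (h : CovN l g g') :
    (F.apply (Fr.C X)).isNot g ↔ (F.apply (Fr.C Y)).isNot g' := node_iff env hl F.isNot h

theorem nout_iff (env : Env Fr c N K R S X Y) {l : List (Fr.W × Fr.W)} (hl : Fr.Pos X Y l)
    {g : F.Univ (Fr.C X)} {g' : F.Univ (Fr.C Y)} (h : CovN l g g') :
    (F.apply (Fr.C X)).isOut g ↔ (F.apply (Fr.C Y)).isOut g' := node_iff env hl F.isOut h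

theorem restr_exists {l : List (Fr.W × Fr.W)} (hl : Fr.Pos X Y l) (xs : List Fr.W) :
    ∃ l0 : List (Fr.W × Fr.W), (∀ p ∈ l0, p ∈ l) ∧ l0.length ≤ xs.length ∧
      ∀ x ∈ xs, ∀ y, (x, y) ∈ l → (x, y) ∈ l0 := by
  induction xs with
  | nil => exact ⟨[], by simp, by simp, by simp⟩
  | cons x xs ih =>
    obtain ⟨l0, h1, h2, h3⟩ := ih
    by_cases hx : ∃ y, (x, y) ∈ l
    · obtain ⟨y, hy⟩ := hx
      refine ⟨(x, y) :: l0, ?_, by simpa using h2, ?_⟩
      · intro p hp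
        rcases List.mem_cons.1 hp with rfl | hp
        · exact hy
        · exact h1 p hp
      · intro z hz y' hy'
        rcases List.mem_cons.1 hz with rfl | hz
        · rw [hl.func hy' hy]
          simp
        · exact List.mem_cons_of_mem _ (h3 z hz y' hy')
    · refine ⟨l0, h1, by simp only [List.length_cons]; omega, ?_⟩
      intro z hz y' hy'
      rcases List.mem_cons.1 hz with rfl | hz
      · exact absurd ⟨y', hy'⟩ hx
      · exact h3 z hz y' hy'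

/-- Extend a small part of a long position by one more node, avoiding `Z`. -/
theorem move (env : Env Fr c N K R S X Y) {l : List (Fr.W × Fr.W)} (hl : Fr.Pos X Y l)
    {g : F.Univ (Fr.C X)} {g' : F.Univ (Fr.C Y)} (hg : CovN l g g') (h : F.Univ (Fr.C X))
    {Z : List Fr.W} (hZ : Z.length ≤ S) :
    ∃ m, ∃ h' : F.Univ (Fr.C Y), Fr.Pos X Y m ∧ CovN m g g' ∧ CovN m h h' ∧
      (∀ p ∈ m, p ∈ l ∨ (p.2 ∉ Z ∧ p.1 ∈ supp h ∧ ∀ q ∈ l, q.1 ≠ p.1)) := by
  obtain ⟨l0, h1, h2, h3⟩ := restr_exists hl (supp g ++ supp h)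
  have hsg := supp_length g
  have hsh := supp_length h
  have h2a := two_supp (Fr := Fr) F
  have hR : c * Fr.L + c * Fr.L ≤ R := by
    have := env.hR
    have h' : (2 * c + 1) * Fr.L = c * Fr.L + c * Fr.L + Fr.L := by ring
    omega
  rw [List.length_append] at h2
  obtain ⟨m, hm, hsub, _, hdom, hnew⟩ := ext_list env.xy hZ (supp h) l0 (hl.sub h1)
    (fun x hx => supp_dom hx) (by omega)
  obtain ⟨h', hh'⟩ := covN_exists env hm h hdom
  refine ⟨m, h', hm, ?_, hh', ?_⟩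
  · refine (hg.restrict (l' := l0) ?_).mono hsub
    intro x hx y _ hxy
    exact h3 x (by simp [hx]) y hxy
  · intro p hp
    rcases hnew p hp with h | ⟨h, h4, h5⟩
    · exact Or.inl (h1 p h)
    · refine Or.inr ⟨h, h4, ?_⟩
      intro q hq hqp
      obtain ⟨q1, q2⟩ := q
      simp only at hqp
      subst hqp
      exact h5 _ (h3 _ (by simp [h4]) _ hq) rfl

end Frame

end Pool.Agent.WSatChain
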