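import Mathlib
import Pool.Agent.WSatChain.Nodes
import Pool.Agent.WSatChain.Circuit

/-! Supports of nodes of an interpreted formula. -/

namespace Pool.Agent.WSatChain

namespace Frame

variable {Fr : Frame} {X Y : Fr.W → Prop} {c N K R S : ℕ} {F : Interp c N}

theorem aL_le_cL (F : Interp c N) : F.a * Fr.L ≤ c * Fr.L := by
  have := two_supp (Fr := Fr) F
  omega

theorem Env.three (env : Env Fr c N K R S X Y) : 3 * (c * Fr.L) ≤ S := by
  refine le_trans ?_ env.hS
  have h : (N + (K + 3) * c) * Fr.L = N * Fr.L + K * (c * Fr.L) + 3 * (c * Fr.L) := by ring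
  omega

theorem Env.big (env : Env Fr c N K R S X Y) : (K + 3) * (c * Fr.L) ≤ S := by
  refine le_trans ?_ env.hS
  have h : (N + (K + 3) * c) * Fr.L = N * Fr.L + (K + 3) * (c * Fr.L) := by ring
  omega

theorem supp_le_S (env : Env Fr c N K R S X Y) (g : F.Univ (Fr.C X)) :
    (supp g).length ≤ S := by
  have h1 := supp_length g
  have h2 := aL_le_cL (Fr := Fr) F
  have h3 := env.three
  omega

theorem out_supp (env : Env Fr c N K R S X Y) {g : F.Univ (Fr.C X)}
    (hg : (F.apply (Fr.C X)).isOut g) (hu : ∀ g', (F.apply (Fr.C X)).isOut g' → g' = g) :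
    ∀ x, x ∉ supp g := by
  intro x hx
  have hlen := supp_length g
  have h2 := aL_le_cL (Fr := Fr) F
  have h3 := env.hR
  have h4 : (2 * c + 1) * Fr.L = c * Fr.L + (c * Fr.L + Fr.L) := by ring
  obtain ⟨l1, hl1, _, _, hdom, hnew⟩ := ext_list env.xx (supp_le_S env g) (supp g) []
    pos_nil (fun x hx => supp_dom hx) (by simp only [List.length_nil]; omega)
  obtain ⟨g', hg'⟩ := covN_exists env.left hl1 g hdom
  have := hu g' ((nout_iff env.left hl1 hg').1 hg)
  subst this
  obtain ⟨y, hy, hxy⟩ := hg'.mem_left x hx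
  rcases hnew _ hxy with h | ⟨h, _⟩
  · simp at h
  · exact h hy

theorem parent_supp (env : Env Fr c N K R S X Y) (hF : (F.apply (Fr.C X)).IsFormula)
    {g h : F.Univ (Fr.C X)} (hw : (F.apply (Fr.C X)).wire g h)
    (hv : ¬ (F.apply (Fr.C X)).isVar h) : ∀ x ∈ supp g, x ∈ supp h := by
  intro x hx
  have hl : Fr.Pos X X ((supp h).map fun x => (x, x)) :=
    pos_id fun x hx => ⟨supp_dom hx, supp_dom hx⟩
  have hc : CovN ((supp h).map fun x => (x, x)) h h := covN_id fun x hx => hx
  obtain ⟨m, g2, hm, hmh, hmg, hnew⟩ := move env.left hl hc g (supp_le_S env g)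
  have hw2 := (nwire_iff env.left hm hmg hmh).1 hw
  have := hF.once h g2 g hv hw2 hw
  subst this
  obtain ⟨y, hy, hxy⟩ := hmg.mem_left x hx
  rcases hnew _ hxy with h | ⟨h, _⟩
  · exact (mem_id.1 h).1
  · exact absurd hy h

theorem child_supp (env : Env Fr c N K R S X Y) [Finite (F.Univ (Fr.C X))]
    {g h : F.Univ (Fr.C X)} (hw : (F.apply (Fr.C X)).wire g h) {d : ℕ} (hd : d ≤ K + 2)
    (hcard : Nat.card {h // (F.apply (Fr.C X)).wire g h} ≤ d) : ∀ x ∈ supp h, x ∈ supp g := by
  classical
  intro x hx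
  by_contra hxg
  have key : ∀ n : ℕ, n * (F.a * Fr.L) ≤ S → ∃ hs : List (F.Univ (Fr.C X)), hs.Nodup ∧
      hs.length = n ∧ ∀ h' ∈ hs, (F.apply (Fr.C X)).wire g h' := by
    intro n
    induction n with
    | zero => intro _; exact ⟨[], by simp, rfl, by simp⟩
    | succ n ih =>
      intro hn
      have hn' : n * (F.a * Fr.L) + F.a * Fr.L ≤ S := by
        have : (n + 1) * (F.a * Fr.L) = n * (F.a * Fr.L) + F.a * Fr.L := by ring
        omega
      obtain ⟨hs, hnd, hlen, hhs⟩ := ih (by omega)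
      have hZ : (hs.flatMap supp).length ≤ S := by
        have h1 : (hs.flatMap supp).length ≤ hs.length * (F.a * Fr.L) := by
          rw [List.length_flatMap]
          have h : ∀ y ∈ List.map (fun r : F.Univ (Fr.C X) => (supp r).length) hs,
              y ≤ F.a * Fr.L := by
            intro y hy
            obtain ⟨r, _, rfl⟩ := List.mem_map.1 hy
            exact supp_length r
          have := List.sum_le_card_nsmul _ _ h
          simpa using this
        rw [hlen] at h1
        omega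
      have hl : Fr.Pos X X ((supp g).map fun x => (x, x)) :=
        pos_id fun x hx => ⟨supp_dom hx, supp_dom hx⟩
      have hc : CovN ((supp g).map fun x => (x, x)) g g := covN_id fun x hx => hx
      obtain ⟨m, h', hm, hmg, hmh, hnew⟩ := move env.left hl hc h hZ
      refine ⟨h' :: hs, ?_, by simp [hlen], ?_⟩
      · rw [List.nodup_cons]
        refine ⟨?_, hnd⟩
        intro hmem
        obtain ⟨y, hy, hxy⟩ := hmh.mem_left x hx
        rcases hnew _ hxy with h | ⟨h, _⟩
        · exact hxg (mem_id.1 h).1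
        · exact h (List.mem_flatMap.2 ⟨h', hmem, hy⟩)
      · intro z hz
        rcases List.mem_cons.1 hz with rfl | hz
        · exact (nwire_iff env.left hm hmg hmh).1 hw
        · exact hhs z hz
  have h1 := aL_le_cL (Fr := Fr) F
  have h2 := env.big
  obtain ⟨hs, hnd, hlen, hhs⟩ := key (d + 1)
    ((Nat.mul_le_mul (by omega : d + 1 ≤ K + 3) h1).trans h2)
  have h3 : hs.toFinset.card ≤ Nat.card {h // (F.apply (Fr.C X)).wire g h} := by
    rw [← Set.ncard_coe_finset]
    have : Nat.card {h // (F.apply (Fr.C X)).wire g h} =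
        Set.ncard {h | (F.apply (Fr.C X)).wire g h} := rfl
    rw [this]
    apply Set.ncard_le_ncard _ (Set.toFinite _)
    intro z hz
    exact hhs z (by simpa using hz)
  rw [List.toFinset_card_of_nodup hnd, hlen] at h3
  omega

/-- all nodes below `g` have their support inside that of their parent -/
inductive Closed (C : Circ (F.Univ (Fr.C X))) : F.Univ (Fr.C X) → Prop
  | mk (g : F.Univ (Fr.C X)) (h1 : ∀ h, C.wire g h → ∀ x ∈ supp h, x ∈ supp g)
      (h2 : ∀ h, C.wire g h → Closed C h) : Closed C g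

theorem closed_var {C : Circ (F.Univ (Fr.C X))} (hC : C.IsCircuit) {g : F.Univ (Fr.C X)}
    (hg : C.isVar g) : Closed C g :=
  ⟨g, fun h hw => absurd hw (hC.var_in g h hg), fun h hw => absurd hw (hC.var_in g h hg)⟩

theorem closed_lit (env : Env Fr c N K R S X Y) [Finite (F.Univ (Fr.C X))]
    (hC : (F.apply (Fr.C X)).IsCircuit) {g : F.Univ (Fr.C X)}
    (hg : (F.apply (Fr.C X)).IsLit g) : Closed (F.apply (Fr.C X)) g := by
  rcases hg with hg | ⟨hn, hg⟩
  · exact closed_var hC hg
  · refine ⟨g, ?_, fun h hw => closed_var hC (hg h hw)⟩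
    intro h hw
    refine child_supp env hw (d := 1) (by omega) ?_
    obtain ⟨h0, _, hu⟩ := hC.not_in g hn
    have : Subsingleton {h // (F.apply (Fr.C X)).wire g h} :=
      ⟨fun a b => Subtype.ext ((hu a.1 a.2).trans (hu b.1 b.2).symm)⟩
    exact Finite.card_le_one_iff_subsingleton.2 this

theorem closed_level (env : Env Fr c N K R S X Y) [Finite (F.Univ (Fr.C X))]
    (hC : (F.apply (Fr.C X)).IsCircuit) {g : F.Univ (Fr.C X)} {d : ℕ} (hd : d ≤ K + 2) {b : Bool}
    (hg : (F.apply (Fr.C X)).InLevel d b 0 g) : Closed (F.apply (Fr.C X)) g := by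
  rcases hg with ⟨_, hg⟩ | ⟨_, hg, hcard⟩
  · exact closed_lit env hC hg
  · exact ⟨g, fun h hw => child_supp env hw hd hcard, fun h hw => closed_lit env hC (hg h hw)⟩

/-- The children of a node whose children have small support correspond. -/
theorem closed_children (env : Env Fr c N K R S X Y) {m : List (Fr.W × Fr.W)}
    (hm : Fr.Pos X Y m) {g : F.Univ (Fr.C X)} {g' : F.Univ (Fr.C Y)} (hg : CovN m g g')
    (h1 : ∀ h, (F.apply (Fr.C X)).wire g h → ∀ x ∈ supp h, x ∈ supp g) :
    (∀ h, (F.apply (Fr.C X)).wire g h →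
      ∃ h', (F.apply (Fr.C Y)).wire g' h' ∧ CovN m h h') ∧
    (∀ h', (F.apply (Fr.C Y)).wire g' h' →
      ∃ h, (F.apply (Fr.C X)).wire g h ∧ CovN m h h') := by
  constructor
  · intro h hw
    obtain ⟨h', hh'⟩ := covN_exists env hm h fun x hx => by
      obtain ⟨y, _, hy⟩ := hg.mem_left x (h1 h hw x hx)
      exact ⟨y, hy⟩
    exact ⟨h', (nwire_iff env hm hg hh').1 hw, hh'⟩
  · intro h' hw
    obtain ⟨m', h, hm', hmg, hmh, hnew⟩ := move env.symm hm.swap hg.swap h' (supp_le_S env g)
    have hw' := (nwire_iff env.symm hm' hmg hmh).1 hw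
    have hc : CovN (m.map Prod.swap) h' h := by
      refine hmh.restrict ?_
      intro y hy x hx hyx
      rcases hnew _ hyx with h2 | ⟨h2, _⟩
      · exact h2
      · exact absurd (h1 h hw' x hx) h2
    refine ⟨h, hw', ?_⟩
    have := hc.swap
    refine this.mono ?_
    intro p hp
    obtain ⟨p1, p2⟩ := p
    exact mem_map_swap.1 (mem_map_swap.1 hp)

/-- Values of closed nodes are preserved. -/
theorem det_val (env : Env Fr c N K R S X Y) (hC : (F.apply (Fr.C X)).IsCircuit)
    {val : F.Univ (Fr.C X) → Prop} {val' : F.Univ (Fr.C Y) → Prop}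
    (hv : (F.apply (Fr.C X)).IsEval val) (hv' : (F.apply (Fr.C Y)).IsEval val')
    {g : F.Univ (Fr.C X)} (hg : Closed (F.apply (Fr.C X)) g) :
    ∀ (m : List (Fr.W × Fr.W)) (g' : F.Univ (Fr.C Y)), Fr.Pos X Y m → CovN m g g' →
      (∀ v v', (F.apply (Fr.C X)).isVar v → Relation.ReflTransGen (F.apply (Fr.C X)).wire g v →
        CovN m v v' → (val v ↔ val' v')) → (val g ↔ val' g') := by
  induction hg with
  | mk g h1 h2 ih =>
    intro m g' hm hmg hvar
    obtain ⟨hc1, hc2⟩ := closed_children env hm hmg h1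
    refine gate_val hC hv hv' (fun hg => hvar g g' hg Relation.ReflTransGen.refl hmg)
      (nand_iff env hm hmg).1 (nor_iff env hm hmg).1 (nnot_iff env hm hmg).1 ?_ ?_
    · intro h hw
      obtain ⟨h', hw', hh⟩ := hc1 h hw
      refine ⟨h', hw', ih h hw m h' hm hh ?_⟩
      intro v v' hv hr
      exact hvar v v' hv (Relation.ReflTransGen.head hw hr)
    · intro h' hw'
      obtain ⟨h, hw, hh⟩ := hc2 h' hw'
      refine ⟨h, hw, ih h hw m h' hm hh ?_⟩
      intro v v' hv hr
      exact hvar v v' hv (Relation.ReflTransGen.head hw hr)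

end Frame

end Pool.Agent.WSatChain
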