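import Mathlib
import Pool.Agent.WSatChain.Closure

/-! Transfer of weighted satisfiability between interpreted circuits. -/

namespace Pool.Agent.WSatChain

namespace Frame

variable {Fr : Frame} {X Y : Fr.W → Prop} {c N K R S : ℕ} {F : Interp c N}

/-- the variables set to true on the two sides correspond along `l` -/
structure TC (S : ℕ) (val : F.Univ (Fr.C X) → Prop) (val' : F.Univ (Fr.C Y) → Prop)
    (l : List (Fr.W × Fr.W)) (ZX ZY : List Fr.W) : Prop where
  pos : Fr.Pos X Y l
  vr : ∀ v v', (F.apply (Fr.C X)).isVar v → CovN l v v' → (val v ↔ val' v')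
  dom : ∀ v, (F.apply (Fr.C X)).isVar v → val v → ∀ x ∈ supp v, ∃ y, (x, y) ∈ l
  ran : ∀ v', (F.apply (Fr.C Y)).isVar v' → val' v' → ∀ y ∈ supp v', ∃ x, (x, y) ∈ l
  zx : ∀ v, (F.apply (Fr.C X)).isVar v → val v → ∀ x ∈ supp v, x ∈ ZX
  zy : ∀ v', (F.apply (Fr.C Y)).isVar v' → val' v' → ∀ y ∈ supp v', y ∈ ZY
  lx : ZX.length ≤ S
  ly : ZY.length ≤ S

variable {val : F.Univ (Fr.C X) → Prop} {val' : F.Univ (Fr.C Y) → Prop}
  {l : List (Fr.W × Fr.W)} {ZX ZY : List Fr.W}

theorem map_swap_swap (l : List (Fr.W × Fr.W)) : (l.map Prod.swap).map Prod.swap = l := by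
  rw [List.map_map]
  simp

theorem TC.symm (env : Env Fr c N K R S X Y) (tc : TC S val val' l ZX ZY) :
    TC S val' val (l.map Prod.swap) ZY ZX where
  pos := tc.pos.swap
  vr := by
    intro v v' hv hc
    have hc' : CovN l v' v := by
      have := hc.swap
      rwa [map_swap_swap] at this
    exact (tc.vr v' v ((nvar_iff env tc.pos hc').2 hv) hc').symm
  dom := by
    intro v hv h x hx
    obtain ⟨y, hy⟩ := tc.ran v hv h x hx
    exact ⟨y, mem_map_swap.2 hy⟩
  ran := by
    intro v hv h x hx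
    obtain ⟨y, hy⟩ := tc.dom v hv h x hx
    exact ⟨y, mem_map_swap.2 hy⟩
  zx := tc.zy
  zy := tc.zx
  lx := tc.ly
  ly := tc.lx

theorem TC.mono (env : Env Fr c N K R S X Y) (tc : TC S val val' l ZX ZY)
    {l1 : List (Fr.W × Fr.W)} (hl1 : Fr.Pos X Y l1) (hsub : ∀ p ∈ l, p ∈ l1) :
    TC S val val' l1 ZX ZY where
  pos := hl1
  vr := by
    intro v v' hv hc
    constructor
    · intro h
      have hc' : CovN l v v' := by
        refine hc.restrict ?_
        intro x hx y _ hxy
        obtain ⟨y0, hy0⟩ := tc.dom v hv h x hx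
        rw [hl1.func hxy (hsub _ hy0)]
        exact hy0
      exact (tc.vr v v' hv hc').1 h
    · intro h
      have hv' := (nvar_iff env hl1 hc).1 hv
      have hc' : CovN l v v' := by
        refine hc.restrict ?_
        intro x _ y hy hxy
        obtain ⟨x0, hx0⟩ := tc.ran v' hv' h y hy
        rw [hl1.inj hxy (hsub _ hx0)]
        exact hx0
      exact (tc.vr v v' hv hc').2 h
  dom := by
    intro v hv h x hx
    obtain ⟨y, hy⟩ := tc.dom v hv h x hx
    exact ⟨y, hsub _ hy⟩
  ran := by
    intro v hv h x hx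
    obtain ⟨y, hy⟩ := tc.ran v hv h x hx
    exact ⟨y, hsub _ hy⟩
  zx := tc.zx
  zy := tc.zy
  lx := tc.lx
  ly := tc.ly

/-- One more node, with values of variables preserved. -/
theorem step_lit (env : Env Fr c N K R S X Y) (tc : TC S val val' l ZX ZY)
    {g : F.Univ (Fr.C X)} {g' : F.Univ (Fr.C Y)} (hg : CovN l g g') (h : F.Univ (Fr.C X)) :
    ∃ m, ∃ h' : F.Univ (Fr.C Y), Fr.Pos X Y m ∧ CovN m g g' ∧ CovN m h h' ∧
      ∀ v v', (F.apply (Fr.C X)).isVar v → CovN m v v' → (val v ↔ val' v') := by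
  obtain ⟨m, h', hm, hmg, hmh, hnew⟩ := move env tc.pos hg h tc.ly
  refine ⟨m, h', hm, hmg, hmh, ?_⟩
  intro v v' hv hc
  constructor
  · intro hval
    refine (tc.vr v v' hv (hc.restrict ?_)).1 hval
    intro x hx y _ hxy
    rcases hnew _ hxy with h | ⟨_, _, h⟩
    · exact h
    · obtain ⟨y0, hy0⟩ := tc.dom v hv hval x hx
      exact absurd rfl (h (x, y0) hy0)
  · intro hval
    have hv' := (nvar_iff env hm hc).1 hv
    refine (tc.vr v v' hv (hc.restrict ?_)).2 hval
    intro x _ y hy hxy
    rcases hnew _ hxy with h | ⟨h, _, _⟩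
    · exact h
    · exact absurd (tc.zy v' hv' hval y hy) h

/-- The value at a child that is a closed node (forth). -/
theorem forth_closed (env : Env Fr c N K R S X Y) (hC : (F.apply (Fr.C X)).IsCircuit)
    (hv : (F.apply (Fr.C X)).IsEval val) (hv' : (F.apply (Fr.C Y)).IsEval val')
    (tc : TC S val val' l ZX ZY)
    {g : F.Univ (Fr.C X)} {g' : F.Univ (Fr.C Y)} (hg : CovN l g g') {h : F.Univ (Fr.C X)}
    (hw : (F.apply (Fr.C X)).wire g h) (hh : Closed (F.apply (Fr.C X)) h) :
    ∃ h', (F.apply (Fr.C Y)).wire g' h' ∧ (val h ↔ val' h') := by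
  obtain ⟨m, h', hm, hmg, hmh, hvar⟩ := step_lit env tc hg h
  refine ⟨h', (nwire_iff env hm hmg hmh).1 hw, ?_⟩
  exact det_val env hC hv hv' hh m h' hm hmh fun v v' hv _ hc => hvar v v' hv hc

/-- The value at a child that is a closed node (back). -/
theorem back_closed (env : Env Fr c N K R S X Y) (hC : (F.apply (Fr.C X)).IsCircuit)
    (hv : (F.apply (Fr.C X)).IsEval val) (hv' : (F.apply (Fr.C Y)).IsEval val')
    (tc : TC S val val' l ZX ZY)
    {g : F.Univ (Fr.C X)} {g' : F.Univ (Fr.C Y)} (hg : CovN l g g') {h' : F.Univ (Fr.C Y)}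
    (hw : (F.apply (Fr.C Y)).wire g' h')
    (hh : ∀ h, (F.apply (Fr.C X)).wire g h →
      ((F.apply (Fr.C X)).isVar h ↔ (F.apply (Fr.C Y)).isVar h') →
      Closed (F.apply (Fr.C X)) h) :
    ∃ h, (F.apply (Fr.C X)).wire g h ∧ (val h ↔ val' h') := by
  obtain ⟨m, h, hm, hmg, hmh, hvar⟩ := step_lit env.symm (tc.symm env) hg.swap h'
  have hw' := (nwire_iff env.symm hm hmg hmh).1 hw
  refine ⟨h, hw', ?_⟩
  have hh' := hh h hw' (nvar_iff env hm.swap hmh.swap)
  refine det_val env hC hv hv' hh' _ h' hm.swap hmh.swap ?_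
  intro v v' hv _ hc
  have hc' : CovN m v' v := by
    have := hc.swap
    rwa [map_swap_swap] at this
  exact (hvar v' v ((nvar_iff env hm.swap hc).1 hv) hc').symm

variable {P : ℕ → List (Fr.W × Fr.W) → Prop} {α : ℕ}

/-- the family of positions used in the game -/
structure Fam (Fr : Frame) (X Y : Fr.W → Prop) (P : ℕ → List (Fr.W × Fr.W) → Prop)
    (α : ℕ) : Prop where
  pos : ∀ j l, P j l → Fr.Pos X Y l
  forth : ∀ j l, P (j + 1) l → ∀ xs : List Fr.W, (∀ x ∈ xs, X x) → xs.length ≤ α →
    ∃ l1, P j l1 ∧ (∀ p ∈ l, p ∈ l1) ∧ ∀ x ∈ xs, ∃ y, (x, y) ∈ l1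
  back : ∀ j l, P (j + 1) l → ∀ ys : List Fr.W, (∀ y ∈ ys, Y y) → ys.length ≤ α →
    ∃ l1, P j l1 ∧ (∀ p ∈ l, p ∈ l1) ∧ ∀ y ∈ ys, ∃ x, (x, y) ∈ l1

theorem gamma_main (env : Env Fr c N K R S X Y) [Finite (F.Univ (Fr.C X))]
    (hC : (F.apply (Fr.C X)).IsCircuit)
    (hv : (F.apply (Fr.C X)).IsEval val) (hv' : (F.apply (Fr.C Y)).IsEval val')
    (fam : Fam Fr X Y P α) (hα : c * Fr.L ≤ α) {d : ℕ} (hd : d ≤ K + 2) :
    ∀ (j : ℕ) (b : Bool) (g : F.Univ (Fr.C X)) (g' : F.Univ (Fr.C Y))
      (l : List (Fr.W × Fr.W)), P j l → TC S val val' l ZX ZY → CovN l g g' →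
      (F.apply (Fr.C X)).InLevel d b (j + 1) g → (val g ↔ val' g') := by
  have haL := aL_le_cL (Fr := Fr) F
  intro j
  induction j with
  | zero =>
    intro b g g' l hl tc hg hlev
    rcases hlev with h0 | ⟨hgate, hch⟩
    · exact det_val env hC hv hv' (closed_level env hC hd h0) l g' tc.pos hg
        fun v v' hv _ hc => tc.vr v v' hv hc
    · refine gate_val hC hv hv' (fun h => tc.vr g g' h hg) (nand_iff env tc.pos hg).1
        (nor_iff env tc.pos hg).1 (nnot_iff env tc.pos hg).1 ?_ ?_
      · intro h hw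
        exact forth_closed env hC hv hv' tc hg hw (closed_level env hC hd (hch h hw))
      · intro h' hw
        exact back_closed env hC hv hv' tc hg hw
          fun h hw _ => closed_level env hC hd (hch h hw)
  | succ j ih =>
    intro b g g' l hl tc hg hlev
    rcases hlev with h0 | ⟨hgate, hch⟩
    · obtain ⟨l1, hl1, hsub, _⟩ := fam.forth j l hl [] (by simp) (by simp)
      exact ih (!b) g g' l1 hl1 (tc.mono env (fam.pos j l1 hl1) hsub) (hg.mono hsub) h0
    · refine gate_val hC hv hv' (fun h => tc.vr g g' h hg) (nand_iff env tc.pos hg).1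
        (nor_iff env tc.pos hg).1 (nnot_iff env tc.pos hg).1 ?_ ?_
      · intro h hw
        obtain ⟨l1, hl1, hsub, hdom⟩ := fam.forth j l hl (supp h) (fun x hx => supp_dom hx)
          (by have := supp_length h; omega)
        obtain ⟨h', hh'⟩ := covN_exists env (fam.pos j l1 hl1) h hdom
        exact ⟨h', (nwire_iff env (fam.pos j l1 hl1) (hg.mono hsub) hh').1 hw,
          ih (!b) h h' l1 hl1 (tc.mono env (fam.pos j l1 hl1) hsub) hh' (hch h hw)⟩
      · intro h' hw
        obtain ⟨l1, hl1, hsub, hdom⟩ := fam.back j l hl (supp h') (fun x hx => supp_dom hx)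
          (by have := supp_length h'; omega)
        have hp1 := fam.pos j l1 hl1
        obtain ⟨h, hh⟩ := covN_exists env.symm hp1.swap h' fun y hy => by
          obtain ⟨x, hx⟩ := hdom y hy
          exact ⟨x, mem_map_swap.2 hx⟩
        have hh' : CovN l1 h h' := by
          have := hh.swap
          rwa [map_swap_swap] at this
        have hw' := (nwire_iff env hp1 (hg.mono hsub) hh').2 hw
        exact ⟨h, hw', ih (!b) h h' l1 hl1 (tc.mono env hp1 hsub) hh' (hch h hw')⟩

theorem card_supp [DecidableEq Fr.W] (hl : Fr.Pos X Y l) {g : F.Univ (Fr.C X)}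
    {g' : F.Univ (Fr.C Y)} (hg : CovN l g g') :
    (supp g).toFinset.card = (supp g').toFinset.card := by
  classical
  refine Finset.card_bij' (fun x _ => if h : ∃ y, (x, y) ∈ l then h.choose else x)
    (fun y _ => if h : ∃ x, (x, y) ∈ l then h.choose else y) ?_ ?_ ?_ ?_
  · intro x hx
    rw [List.mem_toFinset] at hx ⊢
    obtain ⟨y, hy, hxy⟩ := hg.mem_left x hx
    have h : ∃ y, (x, y) ∈ l := ⟨y, hxy⟩
    rw [dif_pos h, hl.func h.choose_spec hxy]
    exact hy
  · intro y hy
    rw [List.mem_toFinset] at hy ⊢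
    obtain ⟨x, hx, hxy⟩ := hg.mem_right y hy
    have h : ∃ x, (x, y) ∈ l := ⟨x, hxy⟩
    rw [dif_pos h, hl.inj h.choose_spec hxy]
    exact hx
  · intro x hx
    rw [List.mem_toFinset] at hx
    obtain ⟨y, hy, hxy⟩ := hg.mem_left x hx
    have h : ∃ y, (x, y) ∈ l := ⟨y, hxy⟩
    simp only [dif_pos h]
    have h2 : ∃ x', (x', h.choose) ∈ l := ⟨x, h.choose_spec⟩
    rw [dif_pos h2]
    exact hl.inj h2.choose_spec h.choose_spec
  · intro y hy
    rw [List.mem_toFinset] at hy
    obtain ⟨x, hx, hxy⟩ := hg.mem_right y hy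
    have h : ∃ x, (x, y) ∈ l := ⟨x, hxy⟩
    simp only [dif_pos h]
    have h2 : ∃ y', (h.choose, y') ∈ l := ⟨y, h.choose_spec⟩
    rw [dif_pos h2]
    exact hl.func h2.choose_spec h.choose_spec

theorem prop_main [DecidableEq Fr.W] (env : Env Fr c N K R S X Y) [Finite (F.Univ (Fr.C X))]
    (hX : (F.apply (Fr.C X)).IsFormula) (hY : (F.apply (Fr.C Y)).IsFormula)
    (hv : (F.apply (Fr.C X)).IsEval val) (hv' : (F.apply (Fr.C Y)).IsEval val')
    (fam : Fam Fr X Y P α) (hα : c * Fr.L ≤ α) (g : F.Univ (Fr.C X)) :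
    ∀ (j : ℕ) (g' : F.Univ (Fr.C Y)) (l : List (Fr.W × Fr.W)), P j l →
      TC S val val' l ZX ZY → CovN l g g' →
      F.a * Fr.L ≤ j + (supp g).toFinset.card → (val g ↔ val' g') := by
  have haL := aL_le_cL (Fr := Fr) F
  have hC := hX.toIsCircuit
  have hle : ∀ {X : Fr.W → Prop} (h : F.Univ (Fr.C X)),
      (supp h).toFinset.card ≤ F.a * Fr.L := by
    intro X h
    exact (List.toFinset_card_le _).trans (supp_length h)
  induction g using hC.wf.induction with
  | _ g ih =>
    intro j g' l hl tc hg hj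
    refine gate_val hC hv hv' (fun h => tc.vr g g' h hg) (nand_iff env tc.pos hg).1
        (nor_iff env tc.pos hg).1 (nnot_iff env tc.pos hg).1 ?_ ?_
    · intro h hw
      by_cases hvar : (F.apply (Fr.C X)).isVar h
      · exact forth_closed env hC hv hv' tc hg hw (closed_var hC hvar)
      · have hps := parent_supp env hX hw hvar
        by_cases hsub : ∀ x ∈ supp h, x ∈ supp g
        · obtain ⟨h', hh'⟩ := covN_exists env tc.pos h fun x hx => by
            obtain ⟨y, _, hy⟩ := hg.mem_left x (hsub x hx)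
            exact ⟨y, hy⟩
          refine ⟨h', (nwire_iff env tc.pos hg hh').1 hw, ih h hw j h' l hl tc hh' ?_⟩
          refine hj.trans (Nat.add_le_add_left (Finset.card_le_card ?_) _)
          intro x hx
          rw [List.mem_toFinset] at hx ⊢
          exact hps x hx
        · have hlt : (supp g).toFinset.card < (supp h).toFinset.card := by
            apply Finset.card_lt_card
            rw [Finset.ssubset_iff_subset_ne]
            constructor
            · intro x hx
              rw [List.mem_toFinset] at hx ⊢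
              exact hps x hx
            · intro he
              apply hsub
              intro x hx
              rw [← List.mem_toFinset, he, List.mem_toFinset]
              exact hx
          have := hle h
          obtain ⟨j', rfl⟩ : ∃ j', j = j' + 1 := ⟨j - 1, by omega⟩
          obtain ⟨l1, hl1, hs1, hdom⟩ := fam.forth j' l hl (supp h) (fun x hx => supp_dom hx)
            (by have := supp_length h; omega)
          have hp1 := fam.pos j' l1 hl1
          obtain ⟨h', hh'⟩ := covN_exists env hp1 h hdom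
          exact ⟨h', (nwire_iff env hp1 (hg.mono hs1) hh').1 hw,
            ih h hw j' h' l1 hl1 (tc.mono env hp1 hs1) hh' (by omega)⟩
    · intro h' hw
      by_cases hvar : (F.apply (Fr.C Y)).isVar h'
      · exact back_closed env hC hv hv' tc hg hw fun h hw he => closed_var hC (he.2 hvar)
      · have hps := parent_supp env.symm hY hw hvar
        by_cases hsub : ∀ x ∈ supp h', x ∈ supp g'
        · obtain ⟨h, hh⟩ := covN_exists env.symm tc.pos.swap h' fun y hy => by
            obtain ⟨x, _, hx⟩ := hg.mem_right y (hsub y hy)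
            exact ⟨x, mem_map_swap.2 hx⟩
          have hh' : CovN l h h' := by
            have := hh.swap
            rwa [map_swap_swap] at this
          have hw' := (nwire_iff env tc.pos hg hh').2 hw
          refine ⟨h, hw', ih h hw' j h' l hl tc hh' ?_⟩
          refine hj.trans (Nat.add_le_add_left ?_ _)
          rw [card_supp tc.pos hg, card_supp tc.pos hh']
          apply Finset.card_le_card
          intro x hx
          rw [List.mem_toFinset] at hx ⊢
          exact hps x hx
        · have hlt : (supp g').toFinset.card < (supp h').toFinset.card := by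
            apply Finset.card_lt_card
            rw [Finset.ssubset_iff_subset_ne]
            constructor
            · intro x hx
              rw [List.mem_toFinset] at hx ⊢
              exact hps x hx
            · intro he
              apply hsub
              intro x hx
              rw [← List.mem_toFinset, he, List.mem_toFinset]
              exact hx
          have h1 := hle h'
          have h2 := card_supp tc.pos hg
          obtain ⟨j', rfl⟩ : ∃ j', j = j' + 1 := ⟨j - 1, by omega⟩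
          obtain ⟨l1, hl1, hs1, hdom⟩ := fam.back j' l hl (supp h') (fun x hx => supp_dom hx)
            (by have := supp_length h'; omega)
          have hp1 := fam.pos j' l1 hl1
          obtain ⟨h, hh⟩ := covN_exists env.symm hp1.swap h' fun y hy => by
            obtain ⟨x, hx⟩ := hdom y hy
            exact ⟨x, mem_map_swap.2 hx⟩
          have hh' : CovN l1 h h' := by
            have := hh.swap
            rwa [map_swap_swap] at this
          have h3 := card_supp hp1 hh'
          have hw' := (nwire_iff env hp1 (hg.mono hs1) hh').2 hw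
          exact ⟨h, hw', ih h hw' j' h' l1 hl1 (tc.mono env hp1 hs1) hh' (by omega)⟩

theorem transfer' (env : Env Fr c N K R S X Y) [Finite (F.Univ (Fr.C X))]
    [Finite (F.Univ (Fr.C Y))]
    (hX : (F.apply (Fr.C X)).IsCircuit) (hY : (F.apply (Fr.C Y)).IsCircuit)
    {P0 : List (Fr.W × Fr.W) → Prop} {k' : ℕ} (hk' : k' ≤ K)
    (start : ∀ val : F.Univ (Fr.C X) → Prop, (F.apply (Fr.C X)).IsEval val →
      (∀ g, (F.apply (Fr.C X)).isOut g → val g) →
      Nat.card {g // (F.apply (Fr.C X)).isVar g ∧ val g} = k' →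
      ∀ xs : List Fr.W, (∀ x ∈ xs, X x) →
      (∀ x ∈ xs, ∃ g, (F.apply (Fr.C X)).isVar g ∧ val g ∧ x ∈ supp g) →
      xs.length ≤ K * (c * Fr.L) →
      ∃ l, P0 l ∧ Fr.Pos X Y l ∧ l.length ≤ xs.length ∧ ∀ x ∈ xs, ∃ y, (x, y) ∈ l)
    (main : ∀ (val : F.Univ (Fr.C X) → Prop) (val' : F.Univ (Fr.C Y) → Prop) l ZX ZY,
      (F.apply (Fr.C X)).IsEval val → (F.apply (Fr.C Y)).IsEval val' → P0 l →
      TC S val val' l ZX ZY → ∀ g g', (F.apply (Fr.C X)).isOut g → CovN l g g' →
      (val g ↔ val' g')) :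
    (F.apply (Fr.C X)).WSat k' → (F.apply (Fr.C Y)).WSat k' := by
  classical
  rintro ⟨val, hv, hout, hcard⟩
  have haL := aL_le_cL (Fr := Fr) F
  have hKS : K * (c * Fr.L) ≤ S := by
    refine le_trans ?_ env.hS
    have h : (N + (K + 3) * c) * Fr.L = N * Fr.L + K * (c * Fr.L) + 3 * (c * Fr.L) := by ring
    omega
  let T : Set (F.Univ (Fr.C X)) := {g | (F.apply (Fr.C X)).isVar g ∧ val g}
  have hTfin : T.Finite := Set.toFinite T
  have hTcard : hTfin.toFinset.toList.length = k' := by
    rw [Finset.length_toList, ← hcard]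
    have : Nat.card {g // (F.apply (Fr.C X)).isVar g ∧ val g} = T.ncard := rfl
    rw [this, Set.ncard_eq_toFinset_card _ hTfin]
  set xs : List Fr.W := hTfin.toFinset.toList.flatMap supp with hxs
  have hxslen : xs.length ≤ K * (c * Fr.L) := by
    have h1 : xs.length ≤ hTfin.toFinset.toList.length * (F.a * Fr.L) := by
      rw [hxs, List.length_flatMap]
      have h : ∀ y ∈ List.map (fun r : F.Univ (Fr.C X) => (supp r).length)
          hTfin.toFinset.toList, y ≤ F.a * Fr.L := by
        intro y hy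
        obtain ⟨r, _, rfl⟩ := List.mem_map.1 hy
        exact supp_length r
      have := List.sum_le_card_nsmul _ _ h
      simpa using this
    rw [hTcard] at h1
    exact h1.trans (Nat.mul_le_mul hk' haL)
  have hxsX : ∀ x ∈ xs, X x := by
    intro x hx
    obtain ⟨g, _, hg⟩ := List.mem_flatMap.1 hx
    exact supp_dom hg
  have hxsV : ∀ x ∈ xs, ∃ g, (F.apply (Fr.C X)).isVar g ∧ val g ∧ x ∈ supp g := by
    intro x hx
    obtain ⟨g, hg1, hg2⟩ := List.mem_flatMap.1 hx
    simp only [Finset.mem_toList, Set.Finite.mem_toFinset] at hg1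
    exact ⟨g, hg1.1, hg1.2, hg2⟩
  have hxsT : ∀ g, (F.apply (Fr.C X)).isVar g → val g → ∀ x ∈ supp g, x ∈ xs := by
    intro g h1 h2 x hx
    refine List.mem_flatMap.2 ⟨g, ?_, hx⟩
    simp only [Finset.mem_toList, Set.Finite.mem_toFinset]
    exact ⟨h1, h2⟩
  obtain ⟨l, hP, hl, hllen, hdom⟩ := start val hv hout hcard xs hxsX hxsV hxslen
  let T' : F.Univ (Fr.C Y) → Prop := fun g' =>
    ∃ g, (F.apply (Fr.C X)).isVar g ∧ val g ∧ CovN l g g'
  obtain ⟨val', hv', hT'⟩ := eval_exists hY T'
  have tc : TC S val val' l xs (l.map Prod.snd) := by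
    refine ⟨hl, ?_, ?_, ?_, hxsT, ?_, hxslen.trans hKS, ?_⟩
    · intro v v' hvar hc
      rw [hT' v' ((nvar_iff env hl hc).1 hvar)]
      constructor
      · intro h
        exact ⟨v, hvar, h, hc⟩
      · rintro ⟨g, _, hg2, hg3⟩
        rw [covN_inj hl hc hg3]
        exact hg2
    · intro v hvar h x hx
      exact hdom x (hxsT v hvar h x hx)
    · intro v' hvar h y hy
      obtain ⟨g, _, _, hg3⟩ := (hT' v' hvar).1 h
      obtain ⟨x, _, hx⟩ := hg3.mem_right y hy
      exact ⟨x, hx⟩
    · intro v' hvar h y hy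
      obtain ⟨g, _, _, hg3⟩ := (hT' v' hvar).1 h
      obtain ⟨x, _, hx⟩ := hg3.mem_right y hy
      exact List.mem_map.2 ⟨(x, y), hx, rfl⟩
    · rw [List.length_map]
      omega
  refine ⟨val', hv', ?_, ?_⟩
  · obtain ⟨g0, hg0, hu⟩ := hX.out
    obtain ⟨g0', hg0'⟩ := covN_exists env hl g0 fun x hx =>
      absurd hx (out_supp env hg0 (fun g' hg' => hu g' hg') x)
    have h1 := (main val val' l _ _ hv hv' hP tc g0 g0' hg0 hg0').1 (hout g0 hg0)
    have h2 := (nout_iff env hl hg0').1 hg0
    intro g' hg'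
    rw [hY.out.unique hg' h2]
    exact h1
  · rw [← hcard]
    symm
    have hex : ∀ g : {g // (F.apply (Fr.C X)).isVar g ∧ val g},
        ∃ g' : {g' // (F.apply (Fr.C Y)).isVar g' ∧ val' g'}, CovN l g.1 g'.1 := by
      rintro ⟨g, hg1, hg2⟩
      obtain ⟨g', hg'⟩ := covN_exists env hl g fun x hx => hdom x (hxsT g hg1 hg2 x hx)
      exact ⟨⟨g', (nvar_iff env hl hg').1 hg1, (tc.vr g g' hg1 hg').1 hg2⟩, hg'⟩
    choose f hf using hex
    refine Nat.card_eq_of_bijective f ⟨?_, ?_⟩
    · intro a b hab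
      apply Subtype.ext
      have h1 := hf a
      have h2 := hf b
      rw [hab] at h1
      exact covN_inj hl h1 h2
    · rintro ⟨g', hg1, hg2⟩
      obtain ⟨g, h1, h2, h3⟩ := (hT' g' hg1).1 hg2
      refine ⟨⟨g, h1, h2⟩, ?_⟩
      apply Subtype.ext
      exact covN_func hl (hf ⟨g, h1, h2⟩) h3

theorem transfer (env : Env Fr c N K R S X Y) [Finite (F.Univ (Fr.C X))]
    [Finite (F.Univ (Fr.C Y))]
    (hX : (F.apply (Fr.C X)).IsCircuit) (hY : (F.apply (Fr.C Y)).IsCircuit)
    {P0 : List (Fr.W × Fr.W) → Prop} {k' : ℕ} (hk' : k' ≤ K)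
    (start : ∀ xs : List Fr.W, (∀ x ∈ xs, X x) → xs.length ≤ K * (c * Fr.L) →
      ∃ l, P0 l ∧ Fr.Pos X Y l ∧ l.length ≤ xs.length ∧ ∀ x ∈ xs, ∃ y, (x, y) ∈ l)
    (main : ∀ (val : F.Univ (Fr.C X) → Prop) (val' : F.Univ (Fr.C Y) → Prop) l ZX ZY,
      (F.apply (Fr.C X)).IsEval val → (F.apply (Fr.C Y)).IsEval val' → P0 l →
      TC S val val' l ZX ZY → ∀ g g', (F.apply (Fr.C X)).isOut g → CovN l g g' →
      (val g ↔ val' g')) :
    (F.apply (Fr.C X)).WSat k' → (F.apply (Fr.C Y)).WSat k' :=
  transfer' env hX hY hk' (fun _ _ _ _ xs hxs _ hlen => start xs hxs hlen) main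

/-- The new parameters agree. -/
theorem param_le (env : Env Fr c N K R S X Y) (F : Interp c N) :
    (∀ j : Fin F.K, (∀ v, (Fr.C X).Sat (F.par j) v) ↔ (∀ v, (Fr.C Y).Sat (F.par j) v)) := by
  have key : ∀ X Y : Fr.W → Prop, Env Fr c N K R S X Y → ∀ φ : Fml c N,
      (∀ v, (Fr.C X).Sat φ v) → ∀ v, (Fr.C Y).Sat φ v := by
    intro X Y env φ h v'
    have hR := env.hR1
    have hex : ∃ l : List (Fr.W × Fr.W), Fr.Pos X Y l ∧
        ∀ j, ∀ y ∈ (v' j).1.2, ∃ x, (x, y) ∈ l := by
      set ys : List Fr.W := (List.finRange c).flatMap fun j => (v' j).1.2 with hys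
      have hlen : ys.length ≤ c * Fr.L := by
        rw [hys, List.length_flatMap]
        have h : ∀ y ∈ List.map (fun j => ((v' j).1.2).length) (List.finRange c),
            y ≤ Fr.L := by
          intro y hy
          obtain ⟨j, _, rfl⟩ := List.mem_map.1 hy
          exact Fr.len _ (v' j).2.1
        have := List.sum_le_card_nsmul _ _ h
        simpa using this
      have h2 : (c + 1) * Fr.L = c * Fr.L + Fr.L := by ring
      obtain ⟨l1, hl1, _, _, hdom, _⟩ := ext_list env.yx (Z := []) (by simp) ys []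
        pos_nil (by
          intro y hy
          obtain ⟨j, _, hj⟩ := List.mem_flatMap.1 hy
          exact (v' j).2.2 y hj) (by simp only [List.length_nil]; omega)
      refine ⟨l1.map Prod.swap, hl1.swap, ?_⟩
      intro j y hy
      obtain ⟨x, hx⟩ := hdom y (List.mem_flatMap.2 ⟨j, List.mem_finRange j, hy⟩)
      exact ⟨x, mem_map_swap.2 hx⟩
    obtain ⟨l, hl, hdom⟩ := hex
    have h1 : ∀ j, ∃ e : Fr.U X, Cov l e.1 (v' j).1 := by
      intro j
      obtain ⟨e, he⟩ := cov_exists hl.swap (v' j) fun y hy => by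
        obtain ⟨x, hx⟩ := hdom j y hy
        exact ⟨x, mem_map_swap.2 hx⟩
      refine ⟨e, ?_⟩
      have := he.swap
      rwa [map_swap_swap] at this
    choose v hv using h1
    exact (env.sat φ v v' l hl hv).1 (h v)
  intro j
  exact ⟨key X Y env _, key Y X env.symm _⟩

theorem param_eq (env : Env Fr c N K R S X Y) (F : Interp c N) :
    F.param (Fr.C X) = F.param (Fr.C Y) := by
  unfold Interp.param
  exact Nat.card_congr (Equiv.subtypeEquivRight (param_le env F))

end Frame

end Pool.Agent.WSatChain
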