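import Mathlib
import Pool.Agent.WSatChain.Transfer

/-! Formulas in `Γ_{1,1}`: variables that are true in a satisfying assignment are forced. -/

namespace Pool.Agent.WSatChain

/-- nodes whose value is forced to be true -/
inductive Forced {U : Type} (C : Circ U) : U → Prop
  | out (g : U) : C.isOut g → Forced C g
  | and (p g : U) : Forced C p → C.isAnd p → C.wire p g → Forced C g
  | or (p g : U) : Forced C p → C.isOr p → C.wire p g → (∀ h, C.wire p h → h = g) → Forced C g

theorem forced_val {U : Type} {C : Circ U} {val : U → Prop} (hv : C.IsEval val)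
    (hout : ∀ g, C.isOut g → val g) {g : U} (h : Forced C g) : val g := by
  induction h with
  | out g hg => exact hout g hg
  | and p g _ hp hw ih => exact (hv.and p hp).1 ih g hw
  | or p g _ hp hw hu ih =>
    obtain ⟨h, hw', hh⟩ := (hv.or p hp).1 ih
    rwa [hu h hw'] at hh

theorem reach_all {U : Type} [Finite U] {C : Circ U} (hC : C.IsFormula) {r : U}
    (hr : C.isOut r) (g : U) : Relation.ReflTransGen C.wire r g := by
  have h1 : IsTrans U (fun h g => Relation.TransGen C.wire h g) :=
    ⟨fun a b c hab hbc => Relation.TransGen.trans hab hbc⟩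
  have h2 : Std.Irrefl (fun h g => Relation.TransGen C.wire h g) :=
    ⟨fun a => hC.toIsCircuit.acyclic a⟩
  have h3 : WellFounded (fun h g => Relation.TransGen C.wire h g) :=
    Finite.wellFounded_of_trans_of_irrefl _
  induction g using h3.induction with
  | _ g ih =>
    rcases hC.used g with hg | ⟨p, hp⟩
    · rw [hC.out.unique hg hr]
    · exact (ih p (Relation.TransGen.single hp)).tail hp

theorem gamma11_forced {U : Type} [Finite U] {C : Circ U} (hC : GAMMA 1 1 U C) (g : U) :
    Forced C g ∨ (C.isVar g ∧ ∃ p, Forced C p ∧ C.isNot p ∧ C.wire p g) := by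
  obtain ⟨hF, hlev⟩ := hC
  obtain ⟨r, hr, _⟩ := hF.out
  have key : (C.InLevel 1 true 1 g ∨ C.InLevel 1 false 0 g ∨ C.IsLit g) ∧
      (Forced C g ∨ (C.isVar g ∧ ∃ p, Forced C p ∧ C.isNot p ∧ C.wire p g)) := by
    induction reach_all hF hr g with
    | refl => exact ⟨Or.inl (hlev r hr), Or.inl (Forced.out r hr)⟩
    | @tail p g _ hw ih =>
      obtain ⟨ih1, ih2⟩ := ih
      have hpv : ¬ C.isVar p := fun h => hF.var_in p g h hw
      have hpF : Forced C p := by
        rcases ih2 with h | h
        · exact h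
        · exact absurd h.1 hpv
      have h0 : C.InLevel 1 false 0 p ∨ (C.isAnd p ∧ ∀ h, C.wire p h → C.InLevel 1 false 0 h) ∨
          C.IsLit p := by
        rcases ih1 with (h | h) | h | h
        · exact Or.inl h
        · exact Or.inr (Or.inl h)
        · exact Or.inl h
        · exact Or.inr (Or.inr h)
      have hlit : C.IsLit p → C.IsLit g ∧ C.isVar g ∧ C.isNot p := by
        rintro (h | ⟨h, h'⟩)
        · exact absurd h hpv
        · exact ⟨Or.inl (h' g hw), h' g hw, h⟩
      rcases h0 with (⟨_, h⟩ | ⟨hor, hch, hcard⟩) | ⟨hand, hch⟩ | h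
      · obtain ⟨a1, a2, a3⟩ := hlit h
        exact ⟨Or.inr (Or.inr a1), Or.inr ⟨a2, p, hpF, a3, hw⟩⟩
      · refine ⟨Or.inr (Or.inr (hch g hw)), Or.inl (Forced.or p g hpF hor hw ?_)⟩
        intro h hh
        have hs : Subsingleton {h // C.wire p h} := Finite.card_le_one_iff_subsingleton.1 hcard
        have := hs.elim ⟨h, hh⟩ ⟨g, hw⟩
        exact congrArg Subtype.val this
      · exact ⟨Or.inr (Or.inl (hch g hw)), Or.inl (Forced.and p g hpF hand hw)⟩
      · obtain ⟨a1, a2, a3⟩ := hlit h
        exact ⟨Or.inr (Or.inr a1), Or.inr ⟨a2, p, hpF, a3, hw⟩⟩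
  exact key.2

namespace Frame

variable {Fr : Frame} {X Y : Fr.W → Prop} {c N K R S : ℕ} {F : Interp c N}

theorem forced_cov (env : Env Fr c N K R S X Y) [Finite (F.Univ (Fr.C X))]
    {g : F.Univ (Fr.C X)} (hg : Forced (F.apply (Fr.C X)) g) :
    ∀ (m : List (Fr.W × Fr.W)) (g' : F.Univ (Fr.C Y)), Fr.Pos X Y m → CovN m g g' →
      Forced (F.apply (Fr.C Y)) g' := by
  induction hg with
  | out g hg =>
    intro m g' hm hmg
    exact Forced.out _ ((nout_iff env hm hmg).1 hg)
  | and p g _ hp hw ih =>
    intro m g' hm hmg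
    obtain ⟨m', p', hm', hmg', hmp', _⟩ := move env hm hmg p (Z := []) (by simp)
    exact Forced.and p' g' (ih m' p' hm' hmp') ((nand_iff env hm' hmp').1 hp)
      ((nwire_iff env hm' hmp' hmg').1 hw)
  | or p g _ hp hw hu ih =>
    intro m g' hm hmg
    obtain ⟨m', p', hm', hmg', hmp', _⟩ := move env hm hmg p (Z := []) (by simp)
    refine Forced.or p' g' (ih m' p' hm' hmp') ((nor_iff env hm' hmp').1 hp)
      ((nwire_iff env hm' hmp' hmg').1 hw) ?_
    intro h' hw'
    have hcard : Nat.card {h // (F.apply (Fr.C X)).wire p h} ≤ 1 := by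
      have : Subsingleton {h // (F.apply (Fr.C X)).wire p h} :=
        ⟨fun a b => Subtype.ext ((hu a.1 a.2).trans (hu b.1 b.2).symm)⟩
      exact Finite.card_le_one_iff_subsingleton.2 this
    obtain ⟨h, hh, hc⟩ := (closed_children env hm' hmp' (fun h hh =>
      child_supp env hh (d := 1) (by omega) hcard)).2 h' hw'
    rw [hu h hh] at hc
    exact covN_func hm' hc hmg'

/-- True variables of a satisfied formula in `Γ_{1,1}` have empty support. -/
theorem true_supp (env : Env Fr c N K R S X Y) [Finite (F.Univ (Fr.C X))]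
    (hC : GAMMA 1 1 _ (F.apply (Fr.C X))) {val : F.Univ (Fr.C X) → Prop}
    (hv : (F.apply (Fr.C X)).IsEval val) (hout : ∀ g, (F.apply (Fr.C X)).isOut g → val g)
    (hcard : Nat.card {g // (F.apply (Fr.C X)).isVar g ∧ val g} ≤ K)
    {g : F.Univ (Fr.C X)} (hg : (F.apply (Fr.C X)).isVar g) (hgv : val g) :
    ∀ x, x ∉ supp g := by
  classical
  intro x hx
  have hF : Forced (F.apply (Fr.C X)) g := by
    rcases gamma11_forced hC g with h | ⟨_, p, hp, hn, hw⟩
    · exact h
    · exact absurd hgv ((hv.not p hn).1 (forced_val hv hout hp) g hw)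
  have haL := aL_le_cL (Fr := Fr) F
  have hR : F.a * Fr.L ≤ R := by
    have h3 := env.hR
    have h4 : (2 * c + 1) * Fr.L = c * Fr.L + (c * Fr.L + Fr.L) := by ring
    omega
  have key : ∀ n : ℕ, n * (F.a * Fr.L) ≤ S → ∃ hs : List (F.Univ (Fr.C X)), hs.Nodup ∧
      hs.length = n ∧ ∀ h ∈ hs, (F.apply (Fr.C X)).isVar h ∧ val h := by
    intro n
    induction n with
    | zero => intro _; exact ⟨[], by simp, rfl, by simp⟩
    | succ n ih =>
      intro hn
      have hn' : n * (F.a * Fr.L) + F.a * Fr.L ≤ S := by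
        have : (n + 1) * (F.a * Fr.L) = n * (F.a * Fr.L) + F.a * Fr.L := by ring
        omega
      obtain ⟨hs, hnd, hlen, hhs⟩ := ih (by omega)
      have hZ : (hs.flatMap supp).length ≤ S := by
        have h1 : (hs.flatMap supp).length ≤ hs.length * (F.a * Fr.L) := by
          rw [List.length_flatMap]
          have h : ∀ y ∈ List.map (fun r : F.Univ (Fr.C X) => (supp r).length) hs,
              y ≤ F.a * Fr.L := by
            intro y hy
            obtain ⟨r, _, rfl⟩ := List.mem_map.1 hy
            exact supp_length r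
          have := List.sum_le_card_nsmul _ _ h
          simpa using this
        rw [hlen] at h1
        omega
      have hsl := supp_length g
      obtain ⟨l1, hl1, _, _, hdom, hnew⟩ := ext_list env.xx hZ (supp g) [] pos_nil
        (fun x hx => supp_dom hx) (by simp only [List.length_nil]; omega)
      obtain ⟨g', hg'⟩ := covN_exists env.left hl1 g hdom
      refine ⟨g' :: hs, ?_, by simp [hlen], ?_⟩
      · rw [List.nodup_cons]
        refine ⟨?_, hnd⟩
        intro hmem
        obtain ⟨y, hy, hxy⟩ := hg'.mem_left x hx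
        rcases hnew _ hxy with h | ⟨h, _⟩
        · simp at h
        · exact h (List.mem_flatMap.2 ⟨g', hmem, hy⟩)
      · intro z hz
        rcases List.mem_cons.1 hz with rfl | hz
        · exact ⟨(nvar_iff env.left hl1 hg').1 hg,
            forced_val hv hout (forced_cov env.left hF l1 z hl1 hg')⟩
        · exact hhs z hz
  have hKS : (K + 1) * (F.a * Fr.L) ≤ S := by
    refine le_trans ?_ env.hS
    have h : (N + (K + 3) * c) * Fr.L = N * Fr.L + (K + 1) * (c * Fr.L) + 2 * (c * Fr.L) := by
      ring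
    have h2 : (K + 1) * (F.a * Fr.L) ≤ (K + 1) * (c * Fr.L) := Nat.mul_le_mul_left _ haL
    omega
  obtain ⟨hs, hnd, hlen, hhs⟩ := key (K + 1) hKS
  have h3 : hs.toFinset.card ≤ Nat.card {g // (F.apply (Fr.C X)).isVar g ∧ val g} := by
    rw [← Set.ncard_coe_finset]
    have : Nat.card {g // (F.apply (Fr.C X)).isVar g ∧ val g} =
        Set.ncard {g | (F.apply (Fr.C X)).isVar g ∧ val g} := rfl
    rw [this]
    apply Set.ncard_le_ncard _ (Set.toFinite _)
    intro z hz
    exact hhs z (by simpa using hz)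
  rw [List.toFinset_card_of_nodup hnd, hlen] at h3
  omega

/-- transfer for `Γ_{1,1}` -/
theorem transfer11 (env : Env Fr c N K R S X Y) [Finite (F.Univ (Fr.C X))]
    [Finite (F.Univ (Fr.C Y))]
    (hX : GAMMA 1 1 _ (F.apply (Fr.C X))) (hY : GAMMA 1 1 _ (F.apply (Fr.C Y)))
    {k' : ℕ} (hk' : k' ≤ K) :
    (F.apply (Fr.C X)).WSat k' → (F.apply (Fr.C Y)).WSat k' := by
  refine transfer' env hX.1.toIsCircuit hY.1.toIsCircuit
    (P0 := fun l => l = []) hk' ?_ ?_
  · intro val hv hout hcard xs _ hxs _
    have hnil : xs = [] := by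
      rw [List.eq_nil_iff_forall_not_mem]
      intro x hx
      obtain ⟨g, hg1, hg2, hg3⟩ := hxs x hx
      exact true_supp env hX hv hout (hcard.le.trans hk') hg1 hg2 x hg3
    subst hnil
    exact ⟨[], rfl, pos_nil, by simp, by simp⟩
  · intro val val' l ZX ZY hv hv' hl tc g g' hg hgg'
    have fam : Fam Fr X Y (fun j l => j = 0 ∧ Fr.Pos X Y l) (c * Fr.L) := by
      refine ⟨fun j l h => h.2, ?_, ?_⟩
      · intro j l h
        exact absurd h.1 (by omega)
      · intro j l h
        exact absurd h.1 (by omega)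
    exact gamma_main env hX.1.toIsCircuit hv hv' fam (le_refl _) (d := 1) (by omega) 0 true g g'
      l ⟨rfl, tc.pos⟩ tc hgg' (hX.2 g hg)

end Frame

end Pool.Agent.WSatChain
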