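import Mathlib
import Pool.Agent.WSatChain.Frame

/-! The levelled structures with hidden labels. -/

namespace Pool.Agent.WSatChain

set_option linter.unusedSimpArgs false

/-- labels: `k`-element sets of variables -/
abbrev Lab (n k : ℕ) : Type := {s : Finset (Fin n) // s.card = k}

/-- the underlying elements: variables, last-level gates, labelled gates, dummies -/
inductive WW (m n k : ℕ) : Type
  | vr (v : Fin n)
  | leaf (i : Fin n)
  | gate (j : Fin m) (q : Lab n k) (i : Fin n)
  | dum (s : Bool) (i : ℕ)

variable {m n k : ℕ}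

namespace WW

/-- the level -/
def lev : WW m n k → ℕ
  | vr _ => m + 2
  | leaf _ => m + 1
  | gate j _ _ => j.1 + 1
  | dum false _ => 0
  | dum true _ => m + 3

theorem lev_vr (v : Fin n) : lev (vr v : WW m n k) = m + 2 := rfl
theorem lev_leaf (i : Fin n) : lev (leaf i : WW m n k) = m + 1 := rfl
theorem lev_gate (j : Fin m) (q : Lab n k) (i : Fin n) : lev (gate j q i) = j.1 + 1 := rfl
theorem lev_dumf (i : ℕ) : lev (dum false i : WW m n k) = 0 := rfl
theorem lev_dumt (i : ℕ) : lev (dum true i : WW m n k) = m + 3 := rfl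

/-- not a dummy -/
def core : WW m n k → Prop
  | dum _ _ => False
  | _ => True

theorem core_lev {x : WW m n k} (h : core x) : 1 ≤ lev x ∧ lev x ≤ m + 2 := by
  cases x with
  | vr v => simp [lev]
  | leaf i => simp [lev]
  | gate j q i => simp only [lev_vr, lev_leaf, lev_gate, lev_dumf, lev_dumt]; omega
  | dum s i => exact absurd h (by simp [core])

theorem lev_core {x : WW m n k} (h1 : 1 ≤ lev x) (h2 : lev x ≤ m + 2) : core x := by
  cases x with
  | vr v => simp [core]
  | leaf i => simp [core]
  | gate j q i => simp [core]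
  | dum s i => cases s <;> simp only [lev_vr, lev_leaf, lev_gate, lev_dumf, lev_dumt] at h1 h2 <;> omega

end WW

open WW

variable (Adj : WW m n k → WW m n k → Prop)

/-- some variable of the label is adjacent -/
def hit (x : WW m n k) (q : Lab n k) : Prop := ∃ v ∈ q.1, Adj x (vr v)

/-- the edges from one level to the next -/
def EE : WW m n k → WW m n k → Prop
  | gate j q i, gate j' q' i' => j'.1 = j.1 + 1 ∧ q ≠ q' ∧ Adj (gate j q i) (gate j' q' i')
  | gate j q i, leaf i' => j.1 + 1 = m ∧ hit Adj (leaf i') q ∧ Adj (gate j q i) (leaf i')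
  | leaf i, vr v => Adj (leaf i) (vr v)
  | _, _ => False

theorem EE_lev {x y : WW m n k} (h : EE Adj x y) :
    lev y = lev x + 1 ∧ 1 ≤ lev x ∧ lev y ≤ m + 2 := by
  cases x with
  | vr v => cases y <;> simp [EE] at h
  | leaf i =>
    cases y with
    | vr v => exact ⟨rfl, by rw [lev_leaf]; omega, le_refl _⟩
    | leaf i => simp [EE] at h
    | gate j q i => simp [EE] at h
    | dum s i => simp [EE] at h
  | gate j q i =>
    cases y with
    | vr v => simp [EE] at h
    | leaf i => simp only [EE] at h; simp only [lev_vr, lev_leaf, lev_gate, lev_dumf, lev_dumt]; omega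
    | gate j' q' i' => simp only [EE] at h; simp only [lev_vr, lev_leaf, lev_gate, lev_dumf, lev_dumt]; omega
    | dum s i => simp [EE] at h
  | dum s i => cases y <;> simp [EE] at h

/-- compatibility of pairs -/
def GG (p q : WW m n k × WW m n k) : Prop :=
  lev p.1 = lev p.2 ∧ lev q.1 = lev q.2 ∧ (p.1 = q.1 ↔ p.2 = q.2) ∧
    (EE Adj p.1 q.1 ↔ EE Adj p.2 q.2) ∧ (EE Adj q.1 p.1 ↔ EE Adj q.2 p.2)

theorem GG_inj (p q : WW m n k × WW m n k) (h : GG Adj p q) : p.1 = q.1 ↔ p.2 = q.2 := h.2.2.1

theorem GG_swap (p q : WW m n k × WW m n k) (h : GG Adj p q) : GG Adj p.swap q.swap :=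
  ⟨h.1.symm, h.2.1.symm, h.2.2.1.symm, h.2.2.2.1.symm, h.2.2.2.2.symm⟩

theorem GG_refl (x x' : WW m n k) : GG Adj (x, x) (x', x') :=
  ⟨rfl, rfl, Iff.rfl, Iff.rfl, Iff.rfl⟩

/-- positions -/
def BPos (X Y : WW m n k → Prop) (l : List (WW m n k × WW m n k)) : Prop :=
  Good (GG Adj) l ∧ ∀ p ∈ l, X p.1 ∧ Y p.2

variable {Adj}

theorem bpos_inj {X Y : WW m n k → Prop} {l : List (WW m n k × WW m n k)}
    (h : BPos Adj X Y l) {x x' y : WW m n k} (h1 : (x, y) ∈ l) (h2 : (x', y) ∈ l) : x = x' :=
  (GG_inj Adj _ _ (h.1 _ h1 _ h2)).2 rfl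

theorem bpos_lev {X Y : WW m n k → Prop} {l : List (WW m n k × WW m n k)}
    (h : BPos Adj X Y l) {x y : WW m n k} (h1 : (x, y) ∈ l) : lev x = lev y :=
  (h.1 _ h1 _ h1).1

theorem EE_self {x : WW m n k} : ¬ EE Adj x x := fun h => by
  have := (EE_lev Adj h).1
  omega

/-- adding a pair -/
theorem bpos_cons {X Y : WW m n k → Prop} {l : List (WW m n k × WW m n k)}
    (h : BPos Adj X Y l) {x y : WW m n k} (hx : X x) (hy : Y y) (hlev : lev x = lev y)
    (hdom : ∀ p ∈ l, p.1 ≠ x) (hran : ∀ p ∈ l, p.2 ≠ y)
    (hE : ∀ p ∈ l, (EE Adj x p.1 ↔ EE Adj y p.2) ∧ (EE Adj p.1 x ↔ EE Adj p.2 y)) :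
    BPos Adj X Y ((x, y) :: l) := by
  constructor
  · intro p hp q hq
    rcases List.mem_cons.1 hp with rfl | hp <;> rcases List.mem_cons.1 hq with rfl | hq
    · exact ⟨hlev, hlev, Iff.rfl.trans (by simp),
        ⟨fun h => absurd h EE_self, fun h => absurd h EE_self⟩,
        ⟨fun h => absurd h EE_self, fun h => absurd h EE_self⟩⟩
    · refine ⟨hlev, (h.1 q hq q hq).1, ?_, (hE q hq).1, (hE q hq).2⟩
      exact ⟨fun e => absurd e.symm (hdom q hq), fun e => absurd e.symm (hran q hq)⟩
    · refine ⟨(h.1 p hp p hp).1, hlev, ?_, (hE p hp).2, (hE p hp).1⟩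
      exact ⟨fun e => absurd e (hdom p hp), fun e => absurd e (hran p hp)⟩
    · exact h.1 p hp q hq
  · intro p hp
    rcases List.mem_cons.1 hp with rfl | hp
    · exact ⟨hx, hy⟩
    · exact h.2 p hp

/-- the domains that are compared -/
def Dom (Adj : WW m n k → WW m n k → Prop) (κ : Option (Lab n k)) (P : Bool → ℕ) :
    WW m n k → Prop
  | vr _ => True
  | leaf i => m = 0 → ∀ q ∈ κ, hit Adj (leaf i) q
  | gate j q _ => j.1 = 0 → κ ≠ some q
  | dum s i => i < P s

/-- the extension property -/
structure RichAdj (Adj : WW m n k → WW m n k → Prop) (S0 : ℕ) : Prop where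
  symm : ∀ x y, Adj x y ↔ Adj y x
  vr : ∀ D : List (WW m n k), D.length ≤ S0 → ∀ P : WW m n k → Prop,
    ∃ i, WW.vr i ∉ D ∧ ∀ d ∈ D, core d → (Adj (WW.vr i) d ↔ P d)
  leaf : ∀ D : List (WW m n k), D.length ≤ S0 → ∀ P : WW m n k → Prop,
    ∃ i, WW.leaf i ∉ D ∧ ∀ d ∈ D, core d → (Adj (WW.leaf i) d ↔ P d)
  gate : ∀ (j : Fin m) (q : Lab n k) (D : List (WW m n k)), D.length ≤ S0 →
    ∀ P : WW m n k → Prop,
    ∃ i, WW.gate j q i ∉ D ∧ ∀ d ∈ D, core d → (Adj (WW.gate j q i) d ↔ P d)
  large : (S0 + 2) * k < n
  two : 2 ≤ k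

variable {S0 : ℕ} {X : WW m n k → Prop} {κ : Option (Lab n k)} {P : Bool → ℕ}

theorem fresh_label (hr : RichAdj Adj S0) (Ls : List (Lab n k)) (hLs : Ls.length ≤ S0 + 1)
    (v : Fin n) : ∃ q : Lab n k, v ∈ q.1 ∧ q ∉ Ls := by
  classical
  have h1 : (Ls.toFinset.biUnion fun q => q.1).card < n := by
    have h2 : (Ls.toFinset.biUnion fun q => q.1).card ≤ Ls.toFinset.card * k :=
      Finset.card_biUnion_le_card_mul _ _ _ fun q _ => q.2.le
    have h3 := List.toFinset_card_le Ls
    have h4 := hr.large
    have h5 : Ls.toFinset.card * k ≤ (S0 + 2) * k := Nat.mul_le_mul_right _ (by omega)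
    omega
  obtain ⟨w, hw⟩ : ∃ w : Fin n, w ∉ Ls.toFinset.biUnion fun q => q.1 := by
    by_contra hcon
    push Not at hcon
    have : (Ls.toFinset.biUnion fun q => q.1) = Finset.univ := by
      ext w
      simpa using hcon w
    rw [this, Finset.card_univ, Fintype.card_fin] at h1
    omega
  have h6 : ({v, w} : Finset (Fin n)).card ≤ k := by
    refine (Finset.card_le_two).trans hr.two
  have h7 : k ≤ (Finset.univ : Finset (Fin n)).card := by
    rw [Finset.card_univ, Fintype.card_fin]
    have := hr.large
    nlinarith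
  obtain ⟨q, hq1, _, hq3⟩ := Finset.exists_subsuperset_card_eq
    (Finset.subset_univ ({v, w} : Finset (Fin n))) h6 h7
  refine ⟨⟨q, hq3⟩, hq1 (by simp), ?_⟩
  intro hmem
  apply hw
  exact Finset.mem_biUnion.2 ⟨⟨q, hq3⟩, List.mem_toFinset.2 hmem, hq1 (by simp)⟩

theorem ext_gate (hr : RichAdj Adj S0) {l : List (WW m n k × WW m n k)}
    (hl : BPos Adj X (Dom Adj κ P) l) {Z : List (WW m n k)} (hS : l.length + Z.length ≤ S0)
    {j : Fin m} {q : Lab n k} {i : Fin n} (hx : X (gate j q i))
    (hdom : ∀ p ∈ l, p.1 ≠ gate j q i) :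
    ∃ y, y ∉ Z ∧ BPos Adj X (Dom Adj κ P) ((gate j q i, y) :: l) := by
  classical
  set x : WW m n k := gate j q i with hxdef
  obtain ⟨v0, _, hv0⟩ := hr.vr (l.map Prod.snd) (by rw [List.length_map]; omega)
    (fun _ => True)
  let f : WW m n k × WW m n k → Option (Lab n k) := fun p =>
    match p.2 with
    | gate _ q _ => some q
    | _ => none
  obtain ⟨q', hq1, hq2⟩ := fresh_label hr (κ.toList ++ l.filterMap f) (by
    rw [List.length_append]
    have h1 := List.length_filterMap_le f l
    have h2 : κ.toList.length ≤ 1 := by cases κ <;> simp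
    omega) v0
  obtain ⟨i', hi', hA⟩ := hr.gate j q' (l.map Prod.snd ++ Z) (by
    rw [List.length_append, List.length_map]; exact hS)
    (fun d => ∃ x', (x', d) ∈ l ∧ (EE Adj x x' ∨ EE Adj x' x))
  refine ⟨gate j q' i', fun h => hi' (List.mem_append_right _ h), ?_⟩
  have hran : ∀ p ∈ l, p.2 ≠ gate j q' i' := by
    intro p hp e
    exact hi' (List.mem_append_left _ (List.mem_map.2 ⟨p, hp, e⟩))
  refine bpos_cons hl hx ?_ (by simp [hxdef, lev]) hdom hran ?_
  · intro _ hκ
    apply hq2
    rw [hκ]
    simp
  · rintro ⟨x', y'⟩ hp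
    have hlev := bpos_lev hl hp
    have hP : ∀ (_ : core y'), (Adj (gate j q' i') y' ↔ (EE Adj x x' ∨ EE Adj x' x)) := by
      intro hc
      rw [hA y' (List.mem_append_left _ (List.mem_map.2 ⟨_, hp, rfl⟩)) hc]
      constructor
      · rintro ⟨x'', h1, h2⟩
        rw [bpos_inj hl hp h1]
        exact h2
      · intro h
        exact ⟨x', hp, h⟩
    have hlx : lev x = j.1 + 1 := by simp [hxdef, lev]
    have h1 : EE Adj x x' → lev x' = lev x + 1 := fun h => (EE_lev Adj h).1
    have h2 : EE Adj x' x → lev x = lev x' + 1 := fun h => (EE_lev Adj h).1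
    have h3 : EE Adj x x' → lev x' ≤ m + 2 := fun h => (EE_lev Adj h).2.2
    have h4 : EE Adj x' x → 1 ≤ lev x' := fun h => (EE_lev Adj h).2.1
    show (EE Adj x x' ↔ EE Adj (gate j q' i') y') ∧ (EE Adj x' x ↔ EE Adj y' (gate j q' i'))
    cases y' with
    | vr v =>
      simp only [lev_vr, lev_leaf, lev_gate, lev_dumf, lev_dumt] at hlev
      constructor
      · simp only [EE, iff_false]
        intro h
        have := h1 h
        omega
      · simp only [EE, iff_false]
        intro h
        have := h2 h
        omega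
    | leaf i'' =>
      simp only [lev_vr, lev_leaf, lev_gate, lev_dumf, lev_dumt] at hlev
      constructor
      · simp only [EE]
        rw [hP (by simp [core])]
        constructor
        · intro h
          have := h1 h
          refine ⟨by omega, ?_, Or.inl h⟩
          refine ⟨v0, hq1, ?_⟩
          rw [hr.symm]
          exact (hv0 (leaf i'') (List.mem_map.2 ⟨_, hp, rfl⟩) (by simp [core])).2 trivial
        · rintro ⟨_, _, h | h⟩
          · exact h
          · have := h2 h
            omega
      · simp only [EE, iff_false]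
        intro h
        have := h2 h
        omega
    | gate j'' q'' i'' =>
      simp only [lev_vr, lev_leaf, lev_gate, lev_dumf, lev_dumt] at hlev
      have hne : q' ≠ q'' := by
        rintro rfl
        apply hq2
        refine List.mem_append_right _ (List.mem_filterMap.2 ⟨_, hp, rfl⟩)
      constructor
      · simp only [EE]
        rw [hP (by simp [core])]
        constructor
        · intro h
          have := h1 h
          exact ⟨by omega, hne, Or.inl h⟩
        · rintro ⟨h5, _, h | h⟩
          · exact h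
          · have := h2 h
            omega
      · simp only [EE]
        rw [hr.symm, hP (by simp [core])]
        constructor
        · intro h
          have := h2 h
          exact ⟨by omega, hne.symm, Or.inr h⟩
        · rintro ⟨h5, _, h | h⟩
          · have := h1 h
            omega
          · exact h
    | dum s i'' =>
      constructor
      · simp only [EE, iff_false]
        intro h
        have := h1 h
        have := h3 h
        cases s <;> simp only [lev_vr, lev_leaf, lev_gate, lev_dumf, lev_dumt] at hlev <;> omega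
      · simp only [EE, iff_false]
        intro h
        have := h2 h
        have := h4 h
        cases s <;> simp only [lev_vr, lev_leaf, lev_gate, lev_dumf, lev_dumt] at hlev <;> omega

theorem ext_dum {l : List (WW m n k × WW m n k)}
    (hl : BPos Adj X (Dom Adj κ P) l) {Z : List (WW m n k)} {s : Bool}
    (hS : l.length + Z.length < P s) {i : ℕ} (hx : X (dum s i))
    (hdom : ∀ p ∈ l, p.1 ≠ dum s i) :
    ∃ y, y ∉ Z ∧ BPos Adj X (Dom Adj κ P) ((dum s i, y) :: l) := by
  classical
  obtain ⟨i', hi', hlt⟩ : ∃ i' : ℕ, dum s i' ∉ (l.map Prod.snd ++ Z) ∧ i' < P s := by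
    by_contra hcon
    push Not at hcon
    have h1 : (Finset.range (P s)).image (fun i' => (dum s i' : WW m n k)) ⊆
        (l.map Prod.snd ++ Z).toFinset := by
      intro y hy
      obtain ⟨i', hi', rfl⟩ := Finset.mem_image.1 hy
      rw [List.mem_toFinset]
      by_contra hn
      exact absurd (hcon i' hn) (by simpa using Finset.mem_range.1 hi')
    have h2 := Finset.card_le_card h1
    rw [Finset.card_image_of_injective _ (by
      intro a b hab
      simpa using hab), Finset.card_range] at h2
    have h3 := List.toFinset_card_le (l.map Prod.snd ++ Z)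
    rw [List.length_append, List.length_map] at h3
    omega
  refine ⟨dum s i', fun h => hi' (List.mem_append_right _ h), ?_⟩
  refine bpos_cons hl hx hlt (by cases s <;> simp [lev]) hdom ?_ ?_
  · intro p hp e
    exact hi' (List.mem_append_left _ (List.mem_map.2 ⟨p, hp, e⟩))
  · rintro ⟨x', y'⟩ _
    cases x' <;> cases y' <;> simp [EE]

theorem ext_vr (hr : RichAdj Adj S0) {l : List (WW m n k × WW m n k)}
    (hl : BPos Adj X (Dom Adj κ P) l) {Z : List (WW m n k)} (hS : l.length + Z.length ≤ S0)
    {v : Fin n} (hx : X (vr v)) (hdom : ∀ p ∈ l, p.1 ≠ vr v) :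
    ∃ y, y ∉ Z ∧ BPos Adj X (Dom Adj κ P) ((vr v, y) :: l) := by
  obtain ⟨i', hi', hA⟩ := hr.vr (l.map Prod.snd ++ Z) (by
    rw [List.length_append, List.length_map]; exact hS)
    (fun d => ∃ x', (x', d) ∈ l ∧ EE Adj x' (vr v))
  refine ⟨vr i', fun h => hi' (List.mem_append_right _ h), ?_⟩
  refine bpos_cons hl hx trivial rfl hdom ?_ ?_
  · intro p hp e
    exact hi' (List.mem_append_left _ (List.mem_map.2 ⟨p, hp, e⟩))
  · rintro ⟨x', y'⟩ hp
    have hlev := bpos_lev hl hp
    show (EE Adj (vr v) x' ↔ EE Adj (vr i') y') ∧ (EE Adj x' (vr v) ↔ EE Adj y' (vr i'))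
    constructor
    · simp [EE]
    · cases y' with
      | leaf i'' =>
        simp only [EE]
        rw [hr.symm, hA _ (List.mem_append_left _ (List.mem_map.2 ⟨_, hp, rfl⟩))
          (by simp [core])]
        constructor
        · intro h
          exact ⟨x', hp, h⟩
        · rintro ⟨x'', h1, h2⟩
          rw [bpos_inj hl hp h1]
          exact h2
      | vr v' =>
        simp only [EE, iff_false]
        intro h
        have := (EE_lev Adj h).1
        simp only [lev_vr, lev_leaf, lev_gate, lev_dumf, lev_dumt] at hlev this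
        omega
      | gate j'' q'' i'' =>
        simp only [EE, iff_false]
        intro h
        have := (EE_lev Adj h).1
        simp only [lev_vr, lev_leaf, lev_gate, lev_dumf, lev_dumt] at hlev this
        omega
      | dum s i'' =>
        simp only [EE, iff_false]
        intro h
        have := (EE_lev Adj h).1
        cases s <;> simp only [lev_vr, lev_leaf, lev_gate, lev_dumf, lev_dumt] at hlev this <;> omega

theorem exists_extra {l : List (WW m n k)} (hl : l.length < k) (Ls : List (Lab n k)) :
    ∃ Ex : List (Fin n), Ex.length ≤ Ls.length ∧ (∀ v ∈ Ex, vr v ∉ l) ∧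
      ∀ q ∈ Ls, ∃ v ∈ Ex, v ∈ q.1 := by
  classical
  induction Ls with
  | nil => exact ⟨[], by simp, by simp, by simp⟩
  | cons q Ls ih =>
    obtain ⟨Ex, h1, h2, h3⟩ := ih
    obtain ⟨v, hv, hvl⟩ : ∃ v ∈ q.1, vr v ∉ l := by
      by_contra hcon
      push Not at hcon
      have h4 : q.1.image (fun v => (vr v : WW m n k)) ⊆ l.toFinset := by
        intro y hy
        obtain ⟨v, hv, rfl⟩ := Finset.mem_image.1 hy
        rw [List.mem_toFinset]
        exact hcon v hv
      have h5 := Finset.card_le_card h4
      rw [Finset.card_image_of_injective _ (by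
        intro a b hab
        simpa using hab), q.2] at h5
      have := List.toFinset_card_le l
      omega
    refine ⟨v :: Ex, by simpa using h1, ?_, ?_⟩
    · intro w hw
      rcases List.mem_cons.1 hw with rfl | hw
      · exact hvl
      · exact h2 w hw
    · intro q' hq'
      rcases List.mem_cons.1 hq' with rfl | hq'
      · exact ⟨v, by simp, hv⟩
      · obtain ⟨w, hw, hwq⟩ := h3 q' hq'
        exact ⟨w, by simp [hw], hwq⟩

theorem ext_leaf (hr : RichAdj Adj S0) {l : List (WW m n k × WW m n k)}
    (hl : BPos Adj X (Dom Adj κ P) l) (hlk : l.length < k) {Z : List (WW m n k)}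
    (hS : 2 * l.length + 1 + Z.length ≤ S0)
    {i : Fin n} (hx : X (leaf i)) (hdom : ∀ p ∈ l, p.1 ≠ leaf i) :
    ∃ y, y ∉ Z ∧ BPos Adj X (Dom Adj κ P) ((leaf i, y) :: l) := by
  classical
  set x : WW m n k := leaf i with hxdef
  let f : WW m n k × WW m n k → Option (Lab n k) := fun p =>
    match p.2 with
    | gate _ q _ => some q
    | _ => none
  obtain ⟨Ex, hEx1, hEx2, hEx3⟩ := exists_extra (l := l.map Prod.snd)
    (by rw [List.length_map]; exact hlk) (κ.toList ++ l.filterMap f)
  have hExlen : Ex.length ≤ l.length + 1 := by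
    refine hEx1.trans ?_
    rw [List.length_append]
    have h1 := List.length_filterMap_le f l
    have h2 : κ.toList.length ≤ 1 := by cases κ <;> simp
    omega
  obtain ⟨i', hi', hA⟩ := hr.leaf (l.map Prod.snd ++ (Ex.map vr ++ Z)) (by
    rw [List.length_append, List.length_append, List.length_map, List.length_map]; omega)
    (fun d => (∃ x', (x', d) ∈ l ∧ (EE Adj x x' ∨ EE Adj x' x)) ∨ ∃ v ∈ Ex, d = vr v)
  have hAEx : ∀ v ∈ Ex, Adj (leaf i') (vr v) := by
    intro v hv
    rw [hA (vr v) (List.mem_append_right _ (List.mem_append_left _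
      (List.mem_map.2 ⟨v, hv, rfl⟩))) (by simp [core])]
    exact Or.inr ⟨v, hv, rfl⟩
  refine ⟨leaf i', fun h => hi' (List.mem_append_right _ (List.mem_append_right _ h)), ?_⟩
  have hran : ∀ p ∈ l, p.2 ≠ leaf i' := by
    intro p hp e
    exact hi' (List.mem_append_left _ (List.mem_map.2 ⟨p, hp, e⟩))
  refine bpos_cons hl hx ?_ (by simp [hxdef, lev]) hdom hran ?_
  · intro _ q hq
    obtain ⟨v, hv, hvq⟩ := hEx3 q (by simp only [List.mem_append]; left; simpa using hq)
    exact ⟨v, hvq, hAEx v hv⟩
  · rintro ⟨x', y'⟩ hp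
    have hlev := bpos_lev hl hp
    have hP : ∀ (_ : core y'), (Adj (leaf i') y' ↔ (EE Adj x x' ∨ EE Adj x' x)) := by
      intro hc
      rw [hA y' (List.mem_append_left _ (List.mem_map.2 ⟨_, hp, rfl⟩)) hc]
      constructor
      · rintro (⟨x'', h1, h2⟩ | ⟨v, hv, rfl⟩)
        · rw [bpos_inj hl hp h1]
          exact h2
        · exact absurd (List.mem_map.2 ⟨_, hp, rfl⟩) (hEx2 v hv)
      · intro h
        exact Or.inl ⟨x', hp, h⟩
    have hlx : lev x = m + 1 := by simp [hxdef, lev]
    have h1 : EE Adj x x' → lev x' = lev x + 1 := fun h => (EE_lev Adj h).1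
    have h2 : EE Adj x' x → lev x = lev x' + 1 := fun h => (EE_lev Adj h).1
    have h3 : EE Adj x x' → lev x' ≤ m + 2 := fun h => (EE_lev Adj h).2.2
    have h4 : EE Adj x' x → 1 ≤ lev x' := fun h => (EE_lev Adj h).2.1
    show (EE Adj x x' ↔ EE Adj (leaf i') y') ∧ (EE Adj x' x ↔ EE Adj y' (leaf i'))
    cases y' with
    | vr v =>
      simp only [lev_vr, lev_leaf, lev_gate, lev_dumf, lev_dumt] at hlev
      constructor
      · simp only [EE]
        rw [hP (by simp [core])]
        constructor
        · intro h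
          exact Or.inl h
        · rintro (h | h)
          · exact h
          · have := h2 h
            omega
      · simp only [EE, iff_false]
        intro h
        have := h2 h
        omega
    | leaf i'' =>
      simp only [lev_vr, lev_leaf, lev_gate, lev_dumf, lev_dumt] at hlev
      constructor
      · simp only [EE, iff_false]
        intro h
        have := h1 h
        omega
      · simp only [EE, iff_false]
        intro h
        have := h2 h
        omega
    | gate j'' q'' i'' =>
      simp only [lev_vr, lev_leaf, lev_gate, lev_dumf, lev_dumt] at hlev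
      constructor
      · simp only [EE, iff_false]
        intro h
        have := h1 h
        omega
      · simp only [EE]
        rw [hr.symm (gate j'' q'' i''), hP (by simp [core])]
        constructor
        · intro h
          have := h2 h
          refine ⟨by omega, ?_, Or.inr h⟩
          obtain ⟨v, hv, hvq⟩ := hEx3 q'' (by
            refine List.mem_append_right _ (List.mem_filterMap.2 ⟨_, hp, rfl⟩))
          exact ⟨v, hvq, hAEx v hv⟩
        · rintro ⟨h5, _, h | h⟩
          · have := h1 h
            omega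
          · exact h
    | dum s i'' =>
      constructor
      · simp only [EE, iff_false]
        intro h
        have := h1 h
        have := h3 h
        cases s <;> simp only [lev_vr, lev_leaf, lev_gate, lev_dumf, lev_dumt] at hlev <;> omega
      · simp only [EE, iff_false]
        intro h
        have := h2 h
        have := h4 h
        cases s <;> simp only [lev_vr, lev_leaf, lev_gate, lev_dumf, lev_dumt] at hlev <;> omega

/-- the one-point extension property -/
theorem base_ext (hr : RichAdj Adj S0) {S : ℕ} (hS : S + 2 * k + 1 ≤ S0)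
    (hP : ∀ s, S0 < P s) (l : List (WW m n k × WW m n k))
    (hl : BPos Adj X (Dom Adj κ P) l) (hlk : l.length < k) (x : WW m n k) (hx : X x)
    (hdom : ∀ p ∈ l, p.1 ≠ x) (Z : List (WW m n k)) (hZ : Z.length ≤ S) :
    ∃ y, y ∉ Z ∧ BPos Adj X (Dom Adj κ P) ((x, y) :: l) := by
  cases x with
  | vr v => exact ext_vr hr hl (by omega) hx hdom
  | leaf i => exact ext_leaf hr hl hlk (by omega) hx hdom
  | gate j q i => exact ext_gate hr hl (by omega) hx hdom
  | dum s i => exact ext_dum hl (by have := hP s; omega) hx hdom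

end Pool.Agent.WSatChain
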