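import Mathlib

/-! Finite graphs with the extension property, by counting. -/

namespace Pool.Agent.WSatChain

open Filter Topology

section count

variable {C : Type} [Fintype C] [DecidableEq C] {n : ℕ}

/-- the number of graphs that fail one extension requirement -/
theorem bad_card (D : Finset (C × Fin n)) (π : C × Fin n → Bool) (c : C) :
    Fintype.card {f : Sym2 (C × Fin n) → Bool //
      ∀ i : Fin n, (c, i) ∉ D → ∃ d ∈ D, f s((c, i), d) ≠ π d} *
      (2 ^ D.card) ^ Fintype.card {i : Fin n // (c, i) ∉ D} ≤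
    2 ^ Fintype.card (Sym2 (C × Fin n)) *
      (2 ^ D.card - 1) ^ Fintype.card {i : Fin n // (c, i) ∉ D} := by
  classical
  set X := {i : Fin n // (c, i) ∉ D} with hX
  let e : X × D → Sym2 (C × Fin n) := fun p => s((c, p.1.1), p.2.1)
  have he : Function.Injective e := by
    rintro ⟨⟨i, hi⟩, ⟨d, hd⟩⟩ ⟨⟨i', hi'⟩, ⟨d', hd'⟩⟩ h
    simp only [e, Sym2.eq_iff] at h
    rcases h with ⟨h1, h2⟩ | ⟨h1, h2⟩
    · simp only [Prod.mk.injEq, true_and] at h1
      subst h1
      subst h2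
      rfl
    · exfalso
      apply hi
      rw [h1]
      exact hd'
  let ρ : D → Bool := fun d => π d.1
  let Φ : {f : Sym2 (C × Fin n) → Bool //
      ∀ i : Fin n, (c, i) ∉ D → ∃ d ∈ D, f s((c, i), d) ≠ π d} →
      (X → {h : D → Bool // h ≠ ρ}) × ({z // z ∉ Set.range e} → Bool) := fun f =>
    (fun x => ⟨fun d => f.1 (e (x, d)), by
      intro hh
      obtain ⟨d, hd, hne⟩ := f.2 x.1 x.2
      exact hne (congrFun hh ⟨d, hd⟩)⟩, fun z => f.1 z.1)
  have hΦ : Function.Injective Φ := by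
    intro f f' h
    apply Subtype.ext
    funext z
    simp only [Φ, Prod.mk.injEq] at h
    by_cases hz : z ∈ Set.range e
    · obtain ⟨⟨x, d⟩, rfl⟩ := hz
      have h1 := congrFun h.1 x
      have h2 := congrArg Subtype.val h1
      exact congrFun h2 d
    · exact congrFun h.2 ⟨z, hz⟩
  have h1 := Fintype.card_le_of_injective Φ hΦ
  have h2 : Fintype.card ((X → {h : D → Bool // h ≠ ρ}) × ({z // z ∉ Set.range e} → Bool)) =
      (2 ^ D.card - 1) ^ Fintype.card X * 2 ^ Fintype.card {z // z ∉ Set.range e} := by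
    rw [Fintype.card_prod, Fintype.card_fun, Fintype.card_fun, Fintype.card_bool]
    congr 2
    have : Fintype.card {h : D → Bool // h ≠ ρ} = Fintype.card (D → Bool) - 1 := by
      rw [Fintype.card_subtype_compl]
      simp
    rw [this, Fintype.card_fun, Fintype.card_bool, Fintype.card_coe]
  have h3 : Fintype.card {z // z ∉ Set.range e} + Fintype.card X * D.card =
      Fintype.card (Sym2 (C × Fin n)) := by
    have h4 : Fintype.card {z // z ∈ Set.range e} = Fintype.card X * D.card := by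
      have : Fintype.card (Set.range e) = Fintype.card (X × D) :=
        Set.card_range_of_injective he
      rw [← Fintype.card_coe D, ← Fintype.card_prod]
      convert this
    have h5 := Fintype.card_subtype_compl (fun z => z ∈ Set.range e)
    have h6 : Fintype.card {z // z ∈ Set.range e} ≤ Fintype.card (Sym2 (C × Fin n)) :=
      Fintype.card_subtype_le _
    omega
  rw [h2] at h1
  calc _ ≤ (2 ^ D.card - 1) ^ Fintype.card X * 2 ^ Fintype.card {z // z ∉ Set.range e} *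
        (2 ^ D.card) ^ Fintype.card X := Nat.mul_le_mul_right _ h1
    _ = 2 ^ Fintype.card (Sym2 (C × Fin n)) * (2 ^ D.card - 1) ^ Fintype.card X := by
      rw [← h3, pow_add, mul_comm (Fintype.card X) D.card, pow_mul]
      ring

theorem bad_card_real (D : Finset (C × Fin n)) (π : C × Fin n → Bool) (c : C) {S : ℕ}
    (hD : D.card ≤ S) :
    (Fintype.card {f : Sym2 (C × Fin n) → Bool //
      ∀ i : Fin n, (c, i) ∉ D → ∃ d ∈ D, f s((c, i), d) ≠ π d} : ℝ) ≤
    2 ^ Fintype.card (Sym2 (C × Fin n)) * (1 - (1 / 2 : ℝ) ^ S) ^ (n - S) := by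
  classical
  have h := bad_card D π c
  set B := Fintype.card {f : Sym2 (C × Fin n) → Bool //
      ∀ i : Fin n, (c, i) ∉ D → ∃ d ∈ D, f s((c, i), d) ≠ π d} with hB
  set n' := Fintype.card {i : Fin n // (c, i) ∉ D} with hn'
  have hn : n - S ≤ n' := by
    have h1 : Fintype.card {i : Fin n // (c, i) ∈ D} ≤ D.card := by
      rw [← Fintype.card_coe D]
      refine Fintype.card_le_of_injective (fun i => ⟨(c, i.1), i.2⟩) ?_
      intro a b hab
      simpa [Subtype.ext_iff] using hab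
    have h2 := Fintype.card_subtype_compl (fun i : Fin n => (c, i) ∈ D)
    rw [Fintype.card_fin] at h2
    omega
  have h1 : (B : ℝ) * (2 ^ D.card) ^ n' ≤
      2 ^ Fintype.card (Sym2 (C × Fin n)) * (2 ^ D.card - 1) ^ n' := by
    have h2 : ((B * (2 ^ D.card) ^ n' : ℕ) : ℝ) ≤
        ((2 ^ Fintype.card (Sym2 (C × Fin n)) * (2 ^ D.card - 1) ^ n' : ℕ) : ℝ) := by
      exact_mod_cast h
    have h3 : ((2 ^ D.card - 1 : ℕ) : ℝ) = 2 ^ D.card - 1 := by
      rw [Nat.cast_sub Nat.one_le_two_pow]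
      simp
    push_cast at h2
    rw [h3] at h2
    exact h2
  have hpos : (0 : ℝ) < (2 ^ D.card) ^ n' := by positivity
  have h4 : (B : ℝ) ≤ 2 ^ Fintype.card (Sym2 (C × Fin n)) *
      (1 - (1 / 2 : ℝ) ^ D.card) ^ n' := by
    have h5 : (1 - (1 / 2 : ℝ) ^ D.card) ^ n' * (2 ^ D.card) ^ n' = (2 ^ D.card - 1) ^ n' := by
      rw [← mul_pow]
      congr 1
      rw [sub_mul, one_mul, ← mul_pow]
      norm_num
    have h6 : (B : ℝ) * (2 ^ D.card) ^ n' ≤ (2 ^ Fintype.card (Sym2 (C × Fin n)) *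
      (1 - (1 / 2 : ℝ) ^ D.card) ^ n') * (2 ^ D.card) ^ n' := by
      rw [mul_assoc, h5]
      exact h1
    exact le_of_mul_le_mul_right h6 hpos
  refine h4.trans (mul_le_mul_of_nonneg_left ?_ (by positivity))
  have h7 : (1 - (1 / 2 : ℝ) ^ D.card) ≤ 1 - (1 / 2 : ℝ) ^ S := by
    have := pow_le_pow_of_le_one (by norm_num : (0 : ℝ) ≤ 1 / 2) (by norm_num) hD
    linarith
  have h8 : (0 : ℝ) ≤ 1 - (1 / 2 : ℝ) ^ D.card := by
    have := pow_le_one₀ (n := D.card) (by norm_num : (0 : ℝ) ≤ 1 / 2) (by norm_num)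
    linarith
  have h9 : 1 - (1 / 2 : ℝ) ^ S ≤ 1 := by
    have : (0 : ℝ) ≤ (1 / 2 : ℝ) ^ S := by positivity
    linarith
  calc (1 - (1 / 2 : ℝ) ^ D.card) ^ n' ≤ (1 - (1 / 2 : ℝ) ^ S) ^ n' :=
        pow_le_pow_left₀ h8 h7 _
    _ ≤ (1 - (1 / 2 : ℝ) ^ S) ^ (n - S) :=
        pow_le_pow_of_le_one (h8.trans h7) h9 hn

end count

theorem exists_large (E T S n0 : ℕ) (hS : 1 ≤ S) : ∃ n ≥ n0, S ≤ n ∧
    ((n + 2 : ℝ) ^ E * T) * (1 - (1 / 2 : ℝ) ^ S) ^ (n - S) < 1 := by
  set r : ℝ := 1 - (1 / 2 : ℝ) ^ S with hr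
  have hr0 : 0 < r := by
    have : (1 / 2 : ℝ) ^ S ≤ (1 / 2) ^ 1 :=
      pow_le_pow_of_le_one (by norm_num) (by norm_num) hS
    norm_num at this ⊢
    rw [hr]
    norm_num
    linarith
  have hr1 : r < 1 := by
    have : (0 : ℝ) < (1 / 2 : ℝ) ^ S := by positivity
    linarith
  have h1 := tendsto_pow_const_mul_const_pow_of_abs_lt_one E (r := r) (by
    rw [abs_of_pos hr0]; exact hr1)
  have h2 := (h1.comp (tendsto_add_atTop_nat 2)).mul_const ((T : ℝ) * (r ^ (S + 2))⁻¹)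
  rw [zero_mul] at h2
  have h3 := h2.eventually (gt_mem_nhds (show (0 : ℝ) < 1 by norm_num))
  obtain ⟨N, hN⟩ := (h3.and (eventually_ge_atTop (max n0 S))).exists
  refine ⟨N, (le_max_left _ _).trans hN.2, (le_max_right _ _).trans hN.2, ?_⟩
  have hSN : S ≤ N := (le_max_right _ _).trans hN.2
  have h4 := hN.1
  simp only [Function.comp] at h4
  have h5 : r ^ (N + 2) = r ^ (N - S) * r ^ (S + 2) := by
    rw [← pow_add]
    congr 1
    omega
  rw [h5] at h4
  push_cast at h4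
  have h6 : r ^ (S + 2) ≠ 0 := by positivity
  calc _ = (N + 2 : ℝ) ^ E * (r ^ (N - S) * r ^ (S + 2)) * (T * (r ^ (S + 2))⁻¹) := by
        field_simp
    _ < 1 := h4

/-- Graphs with the extension property exist. -/
theorem rich_graph (C : ℕ → Type) [∀ n, Fintype (C n)] (E : ℕ)
    (hC : ∀ n, Fintype.card (C n) ≤ (n + 2) ^ E) (S n0 : ℕ) :
    ∃ n ≥ n0, ∃ A : C n × Fin n → C n × Fin n → Prop, (∀ x y, A x y ↔ A y x) ∧
      ∀ (D : List (C n × Fin n)), D.length ≤ S → ∀ (P : C n × Fin n → Prop) (c : C n),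
        ∃ i : Fin n, (c, i) ∉ D ∧ ∀ d ∈ D, (A (c, i) d ↔ P d) := by
  classical
  obtain ⟨n, hn0, hSn, hn⟩ := exists_large (E + (E + 1) * (S + 1)) (2 ^ (S + 1)) (S + 1)
    (max n0 1) (by omega)
  refine ⟨n, (le_max_left _ _).trans hn0, ?_⟩
  have hn1 : 1 ≤ n := (le_max_right _ _).trans hn0
  set V := C n × Fin n with hV
  let T := C n × (Fin (S + 1) → V) × (Fin (S + 1) → Bool)
  let Bad : T → Set (Sym2 V → Bool) := fun t =>
    {f | (∀ i j, t.2.1 i = t.2.1 j → t.2.2 i = t.2.2 j) ∧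
      ∀ i : Fin n, (t.1, i) ∉ Set.range t.2.1 → ∃ j, f s((t.1, i), t.2.1 j) ≠ t.2.2 j}
  have hbad : ∀ t : T, (Fintype.card (Bad t) : ℝ) ≤
      2 ^ Fintype.card (Sym2 V) * (1 - (1 / 2 : ℝ) ^ (S + 1)) ^ (n - (S + 1)) := by
    rintro ⟨c, d, π⟩
    let D : Finset V := Finset.univ.image d
    have hD : D.card ≤ S + 1 := by
      refine Finset.card_image_le.trans ?_
      simp
    let π' : V → Bool := fun v => if h : ∃ j, d j = v then π h.choose else false
    refine le_trans ?_ (bad_card_real D π' c hD)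
    have : Fintype.card (Bad (c, d, π)) ≤ Fintype.card {f : Sym2 V → Bool //
        ∀ i : Fin n, (c, i) ∉ D → ∃ d ∈ D, f s((c, i), d) ≠ π' d} := by
      refine Fintype.card_le_of_injective (fun f => ⟨f.1, ?_⟩) ?_
      · intro i hi
        obtain ⟨f, hf1, hf2⟩ := f
        simp only at hf1 hf2
        obtain ⟨j, hj⟩ := hf2 i (by
          rintro ⟨j, hj⟩
          exact hi (Finset.mem_image.2 ⟨j, Finset.mem_univ _, hj⟩))
        refine ⟨d j, Finset.mem_image.2 ⟨j, Finset.mem_univ _, rfl⟩, ?_⟩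
        have hex : ∃ j', d j' = d j := ⟨j, rfl⟩
        simp only [π', dif_pos hex]
        rw [hf1 _ _ hex.choose_spec]
        exact hj
      · intro a b hab
        simpa [Subtype.ext_iff] using hab
    exact_mod_cast this
  have hTcard : (Fintype.card T : ℝ) ≤ (n + 2 : ℝ) ^ (E + (E + 1) * (S + 1)) *
      (2 ^ (S + 1) : ℕ) := by
    have h1 : Fintype.card T = Fintype.card (C n) * ((Fintype.card (C n) * n) ^ (S + 1) *
        2 ^ (S + 1)) := by
      simp [T, V]
    rw [h1]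
    have h2 : Fintype.card (C n) * ((Fintype.card (C n) * n) ^ (S + 1) * 2 ^ (S + 1)) ≤
        (n + 2) ^ (E + (E + 1) * (S + 1)) * 2 ^ (S + 1) := by
      have h3 : Fintype.card (C n) * n ≤ (n + 2) ^ (E + 1) := by
        rw [pow_succ]
        exact Nat.mul_le_mul (hC n) (by omega)
      calc _ ≤ (n + 2) ^ E * (((n + 2) ^ (E + 1)) ^ (S + 1) * 2 ^ (S + 1)) :=
            Nat.mul_le_mul (hC n) (Nat.mul_le_mul_right _ (Nat.pow_le_pow_left h3 _))
        _ = _ := by rw [← pow_mul, pow_add _ E, mul_assoc]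
    exact_mod_cast h2
  have hgood : ∃ f : Sym2 V → Bool, ∀ t, f ∉ Bad t := by
    by_contra hcon
    push Not at hcon
    have h1 : (Fintype.card (Sym2 V → Bool)) ≤ ∑ t : T, Fintype.card (Bad t) := by
      have h2 : (Finset.univ : Finset (Sym2 V → Bool)) ⊆
          Finset.univ.biUnion fun t : T => (Bad t).toFinset := by
        intro f _
        obtain ⟨t, ht⟩ := hcon f
        exact Finset.mem_biUnion.2 ⟨t, Finset.mem_univ _, Set.mem_toFinset.2 ht⟩
      calc Fintype.card (Sym2 V → Bool) = (Finset.univ : Finset (Sym2 V → Bool)).card := rfl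
        _ ≤ _ := Finset.card_le_card h2
        _ ≤ ∑ t : T, (Bad t).toFinset.card := Finset.card_biUnion_le
        _ = _ := by simp [Set.toFinset_card]
    have h2 : (Fintype.card (Sym2 V → Bool) : ℝ) ≤ ∑ t : T, (Fintype.card (Bad t) : ℝ) := by
      exact_mod_cast h1
    have h3 : ∑ t : T, (Fintype.card (Bad t) : ℝ) ≤ ∑ _t : T,
        2 ^ Fintype.card (Sym2 V) * (1 - (1 / 2 : ℝ) ^ (S + 1)) ^ (n - (S + 1)) :=
      Finset.sum_le_sum fun t _ => hbad t
    rw [Finset.sum_const, Finset.card_univ, nsmul_eq_mul] at h3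
    have h4 : (Fintype.card (Sym2 V → Bool) : ℝ) = 2 ^ Fintype.card (Sym2 V) := by
      rw [Fintype.card_fun, Fintype.card_bool]
      push_cast
      rfl
    rw [h4] at h2
    have h5 : (0 : ℝ) < 2 ^ Fintype.card (Sym2 V) := by positivity
    have hr : (0 : ℝ) ≤ (1 - (1 / 2 : ℝ) ^ (S + 1)) ^ (n - (S + 1)) := by
      apply pow_nonneg
      have := pow_le_one₀ (n := S + 1) (by norm_num : (0 : ℝ) ≤ 1 / 2) (by norm_num)
      linarith
    have h6 : (Fintype.card T : ℝ) * (1 - (1 / 2 : ℝ) ^ (S + 1)) ^ (n - (S + 1)) < 1 :=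
      lt_of_le_of_lt (mul_le_mul_of_nonneg_right hTcard hr) hn
    have h7 : (Fintype.card T : ℝ) * (2 ^ Fintype.card (Sym2 V) *
        (1 - (1 / 2 : ℝ) ^ (S + 1)) ^ (n - (S + 1))) < 2 ^ Fintype.card (Sym2 V) := by
      calc _ = 2 ^ Fintype.card (Sym2 V) *
            ((Fintype.card T : ℝ) * (1 - (1 / 2 : ℝ) ^ (S + 1)) ^ (n - (S + 1))) := by ring
        _ < 2 ^ Fintype.card (Sym2 V) * 1 := mul_lt_mul_of_pos_left h6 h5
        _ = _ := mul_one _
    linarith
  obtain ⟨f, hf⟩ := hgood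
  refine ⟨fun x y => f s(x, y) = true, ?_, ?_⟩
  · intro x y
    show f s(x, y) = true ↔ f s(y, x) = true
    rw [Sym2.eq_swap]
  · intro D hD P c
    have v0 : V := (c, ⟨0, hn1⟩)
    let d : Fin (S + 1) → V := fun j => D.getD j.1 v0
    let π : Fin (S + 1) → Bool := fun j => decide (P (d j))
    have h1 := hf (c, d, π)
    simp only [Bad, Set.mem_ofPred_eq, not_and, not_forall] at h1
    obtain ⟨i, hi, h2⟩ := h1 (by
      intro i j hij
      simp only [π, hij])
    push Not at h2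
    have hmem : ∀ x ∈ D, ∃ j, d j = x := by
      intro x hx
      obtain ⟨j, hj, rfl⟩ := List.getElem_of_mem hx
      exact ⟨⟨j, by omega⟩, by simp [d, hj]⟩
    refine ⟨i, ?_, ?_⟩
    · intro hmem'
      obtain ⟨j, hj⟩ := hmem _ hmem'
      exact hi ⟨j, hj⟩
    · intro x hx
      obtain ⟨j, rfl⟩ := hmem x hx
      show f s((c, i), d j) = true ↔ P (d j)
      rw [h2 j]
      simp [π]

end Pool.Agent.WSatChain
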