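import Mathlib
import Pool.Agent.WSatChain.Base
import Pool.Agent.WSatChain.Rich

/-! Existence of rich structures, and the family of positions of the game. -/

namespace Pool.Agent.WSatChain

open WW

section exist

/-- the colours of the random graph -/
abbrev Col (m n k : ℕ) : Type := Option (Option (Fin m × Lab n k))

theorem col_card (m k n : ℕ) : Fintype.card (Col m n k) ≤ (n + 2) ^ (m + 1 + k) := by
  have h1 : Fintype.card (Col m n k) = m * n.choose k + 1 + 1 := by
    rw [Fintype.card_option, Fintype.card_option, Fintype.card_prod, Fintype.card_fin,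
      Fintype.card_finset_len, Fintype.card_fin]
  have h2 : n.choose k ≤ (n + 2) ^ k :=
    (Nat.choose_le_pow n k).trans (Nat.pow_le_pow_left (by omega) k)
  have h3 : m + 2 ≤ 2 ^ (m + 1) := by
    have : m + 1 < 2 ^ (m + 1) := Nat.lt_two_pow_self
    omega
  have h4 : 2 ^ (m + 1) ≤ (n + 2) ^ (m + 1) := Nat.pow_le_pow_left (by omega) _
  have h5 : 1 ≤ (n + 2) ^ k := Nat.one_le_pow _ _ (by omega)
  calc Fintype.card (Col m n k) = m * n.choose k + 1 + 1 := h1
    _ ≤ m * (n + 2) ^ k + 2 * (n + 2) ^ k := by nlinarith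
    _ = (m + 2) * (n + 2) ^ k := by ring
    _ ≤ (n + 2) ^ (m + 1) * (n + 2) ^ k := Nat.mul_le_mul_right _ (h3.trans h4)
    _ = (n + 2) ^ (m + 1 + k) := by rw [← pow_add]

variable {m n k : ℕ}

/-- the encoding of core elements -/
def enc : WW m n k → Option (Col m n k × Fin n)
  | vr v => some (none, v)
  | leaf i => some (some none, i)
  | gate j q i => some (some (some (j, q)), i)
  | dum _ _ => none

/-- the decoding -/
def dec : Col m n k × Fin n → WW m n k
  | (none, v) => vr v
  | (some none, i) => leaf i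
  | (some (some (j, q)), i) => gate j q i

theorem enc_dec (p : Col m n k × Fin n) : enc (dec p) = some p := by
  obtain ⟨_ | _ | ⟨j, q⟩, i⟩ := p <;> rfl

theorem dec_core (p : Col m n k × Fin n) : core (dec p) := by
  obtain ⟨_ | _ | ⟨j, q⟩, i⟩ := p <;> simp [core, dec]

theorem core_dec {x : WW m n k} (h : core x) : ∃ p, x = dec p := by
  cases x with
  | vr v => exact ⟨(none, v), rfl⟩
  | leaf i => exact ⟨(some none, i), rfl⟩
  | gate j q i => exact ⟨(some (some (j, q)), i), rfl⟩
  | dum s i => exact absurd h (by simp [core])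

theorem rich_adj_exists (m k S0 n0 : ℕ) (hk : 2 ≤ k) :
    ∃ n ≥ n0, ∃ Adj : WW m n k → WW m n k → Prop, RichAdj Adj S0 := by
  obtain ⟨n, hn, A, hsymm, hA⟩ := rich_graph (fun n => Col m n k) (m + 1 + k)
    (fun n => col_card m k n) S0 (max n0 ((S0 + 2) * k + 1))
  refine ⟨n, (le_max_left _ _).trans hn, fun x y => ∃ p q, x = dec p ∧ y = dec q ∧ A p q, ?_⟩
  have hdec : ∀ p q : Col m n k × Fin n, dec p = dec q → p = q := by
    intro p q h
    have := congrArg enc h
    rw [enc_dec, enc_dec] at this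
    exact Option.some.inj this
  have key : ∀ (c : Col m n k) (D : List (WW m n k)), D.length ≤ S0 →
      ∀ P : WW m n k → Prop, ∃ i : Fin n, dec (c, i) ∉ D ∧ ∀ d ∈ D, core d →
        ((∃ p q, dec (c, i) = dec p ∧ d = dec q ∧ A p q) ↔ P d) := by
    intro c D hD P
    obtain ⟨i, h1, h2⟩ := hA (D.filterMap enc) ((List.length_filterMap_le _ _).trans hD)
      (fun p => P (dec p)) c
    refine ⟨i, ?_, ?_⟩
    · intro hmem
      exact h1 (List.mem_filterMap.2 ⟨_, hmem, enc_dec _⟩)
    · intro d hd hc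
      obtain ⟨q, rfl⟩ := core_dec hc
      rw [← h2 q (List.mem_filterMap.2 ⟨_, hd, enc_dec _⟩)]
      constructor
      · rintro ⟨p', q', hp, hq, hpq⟩
        rw [hdec _ _ hp, hdec _ _ hq]
        exact hpq
      · intro h
        exact ⟨_, _, rfl, rfl, h⟩
  refine ⟨?_, ?_, ?_, ?_, ?_, hk⟩
  · intro x y
    constructor
    · rintro ⟨p, q, rfl, rfl, h⟩
      exact ⟨q, p, rfl, rfl, (hsymm _ _).1 h⟩
    · rintro ⟨p, q, rfl, rfl, h⟩
      exact ⟨q, p, rfl, rfl, (hsymm _ _).1 h⟩
  · intro D hD P
    exact key none D hD P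
  · intro D hD P
    exact key (some none) D hD P
  · intro j q D hD P
    exact key (some (some (j, q))) D hD P
  · have := (le_max_right _ _).trans hn
    omega

end exist

section fam

variable {m n k : ℕ} {Adj : WW m n k → WW m n k → Prop} {S0 : ℕ} {X : WW m n k → Prop}
  {κ κ' : Option (Lab n k)} {P P' : Bool → ℕ}

theorem bpos_func {X Y : WW m n k → Prop} {l : List (WW m n k × WW m n k)}
    (h : BPos Adj X Y l) {x y y' : WW m n k} (h1 : (x, y) ∈ l) (h2 : (x, y') ∈ l) : y = y' :=
  (GG_inj Adj _ _ (h.1 _ h1 _ h2)).1 rfl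

theorem bpos_swap {X Y : WW m n k → Prop} {l : List (WW m n k × WW m n k)}
    (h : BPos Adj X Y l) : BPos Adj Y X (l.map Prod.swap) := by
  constructor
  · intro p hp q hq
    obtain ⟨p', hp', rfl⟩ := List.mem_map.1 hp
    obtain ⟨q', hq', rfl⟩ := List.mem_map.1 hq
    exact GG_swap Adj _ _ (h.1 p' hp' q' hq')
  · intro p hp
    obtain ⟨p', hp', rfl⟩ := List.mem_map.1 hp
    exact (h.2 p' hp').symm

theorem bpos_nil {X Y : WW m n k → Prop} : BPos Adj X Y [] :=
  ⟨by intro p hp; simp at hp, by intro p hp; simp at hp⟩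

theorem core_iff_lev (x : WW m n k) : core x ↔ 1 ≤ lev x ∧ lev x ≤ m + 2 :=
  ⟨core_lev, fun h => lev_core h.1 h.2⟩

theorem core_iff {x y : WW m n k} (h : lev x = lev y) : core x ↔ core y := by
  rw [core_iff_lev, core_iff_lev, h]

theorem not_EE_dum_left {s : Bool} {i : ℕ} {y : WW m n k} : ¬ EE Adj (dum s i) y := by
  cases y <;> simp [EE]

theorem EE_core {x y : WW m n k} (h : EE Adj x y) : core x ∧ core y := by
  have := EE_lev Adj h
  exact ⟨lev_core (by omega) (by omega), lev_core (by omega) (by omega)⟩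

/-- the positions of the game with `j` levels to go -/
def PP (Adj : WW m n k → WW m n k → Prop) (κ κ' : Option (Lab n k)) (P P' : Bool → ℕ)
    (S0 α j : ℕ) (l : List (WW m n k × WW m n k)) : Prop :=
  j ≤ m ∧ BPos Adj (Dom Adj κ P) (Dom Adj κ' P') l ∧
    (∀ p ∈ l, core p.1 → m + 1 ≤ lev p.1 + j → p.1 = p.2) ∧ l.length + j * (2 * α) ≤ S0

theorem PP_swap {α j : ℕ} {l : List (WW m n k × WW m n k)}
    (h : PP Adj κ κ' P P' S0 α j l) : PP Adj κ' κ P' P S0 α j (l.map Prod.swap) := by
  obtain ⟨h1, h2, h3, h4⟩ := h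
  refine ⟨h1, bpos_swap h2, ?_, by rwa [List.length_map]⟩
  intro p hp hc hlev
  obtain ⟨p', hp', rfl⟩ := List.mem_map.1 hp
  have hl : lev p'.1 = lev p'.2 := (h2.1 _ hp' _ hp').1
  simp only [Prod.fst_swap] at hc hlev
  exact (h3 p' hp' ((core_iff hl).2 hc) (by omega)).symm

theorem phase_one {j : ℕ} (hj : j + 1 ≤ m) : ∀ (xs : List (WW m n k))
    (l : List (WW m n k × WW m n k)), (∀ x ∈ xs, Dom Adj κ P x) →
    BPos Adj (Dom Adj κ P) (Dom Adj κ' P') l →
    (∀ p ∈ l, core p.1 → m + 1 ≤ lev p.1 + (j + 1) → p.1 = p.2) →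
    ∃ l1, BPos Adj (Dom Adj κ P) (Dom Adj κ' P') l1 ∧
      (∀ p ∈ l1, core p.1 → m + 1 ≤ lev p.1 + (j + 1) → p.1 = p.2) ∧
      (∀ p ∈ l, p ∈ l1) ∧ l1.length ≤ l.length + xs.length ∧
      ∀ x ∈ xs, core x → m + 1 ≤ lev x + j → ∃ y, (x, y) ∈ l1 := by
  intro xs
  induction xs with
  | nil => intro l _ h1 h2; exact ⟨l, h1, h2, fun p hp => hp, by simp, by simp⟩
  | cons z xs ih =>
    intro l hx h1 h2
    obtain ⟨l1, g1, g2, g3, g4, g5⟩ := ih l (fun x hx' => hx x (by simp [hx'])) h1 h2
    by_cases hz : (∀ p ∈ l1, p.1 ≠ z) ∧ core z ∧ m + 1 ≤ lev z + j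
    · obtain ⟨hz1, hz2, hz3⟩ := hz
      have hzY : Dom Adj κ' P' z := by
        cases z with
        | vr v => trivial
        | leaf i => intro h0; omega
        | gate j' q i => intro h0; rw [lev_gate] at hz3; omega
        | dum s i => exact absurd hz2 (by simp [core])
      refine ⟨(z, z) :: l1, ?_, ?_, ?_, ?_, ?_⟩
      · refine bpos_cons g1 (hx z (by simp)) hzY rfl hz1 ?_ ?_
        · rintro ⟨x, y⟩ hp hy
          simp only at hy
          subst hy
          have hlev := bpos_lev g1 hp
          have := g2 _ hp ((core_iff hlev).2 hz2) (by show _ ≤ lev x + _; omega)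
          exact hz1 _ hp this
        · rintro ⟨x, y⟩ hp
          have hlev := bpos_lev g1 hp
          show (EE Adj z x ↔ EE Adj z y) ∧ (EE Adj x z ↔ EE Adj y z)
          by_cases hc : core x ∧ m + 1 ≤ lev x + (j + 1)
          · have : x = y := g2 _ hp hc.1 hc.2
            subst this
            exact ⟨Iff.rfl, Iff.rfl⟩
          · have hno : ∀ w : WW m n k, lev w = lev x → ¬ EE Adj z w ∧ ¬ EE Adj w z := by
              intro w hw
              constructor
              · intro he
                have h5 := EE_lev Adj he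
                apply hc
                rw [core_iff hw.symm]
                exact ⟨(EE_core he).2, by omega⟩
              · intro he
                have h5 := EE_lev Adj he
                apply hc
                rw [core_iff hw.symm]
                exact ⟨(EE_core he).1, by omega⟩
            have e1 := hno x rfl
            have e2 := hno y hlev.symm
            exact ⟨⟨fun h => absurd h e1.1, fun h => absurd h e2.1⟩,
              ⟨fun h => absurd h e1.2, fun h => absurd h e2.2⟩⟩
      · intro p hp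
        rcases List.mem_cons.1 hp with rfl | hp
        · intro _ _; rfl
        · exact g2 p hp
      · intro p hp
        exact List.mem_cons_of_mem _ (g3 p hp)
      · simp only [List.length_cons]; omega
      · intro x hx' hc hl
        rcases List.mem_cons.1 hx' with rfl | hx'
        · exact ⟨x, by simp⟩
        · obtain ⟨y, hy⟩ := g5 x hx' hc hl
          exact ⟨y, List.mem_cons_of_mem _ hy⟩
    · refine ⟨l1, g1, g2, g3, by simp only [List.length_cons]; omega, ?_⟩
      intro x hx' hc hl
      rcases List.mem_cons.1 hx' with rfl | hx'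
      · by_contra hcon
        apply hz
        refine ⟨?_, hc, hl⟩
        rintro ⟨p1, p2⟩ hp rfl
        exact hcon ⟨p2, hp⟩
      · exact g5 x hx' hc hl

theorem phase_two (hr : RichAdj Adj S0) (hP : ∀ s, S0 < P' s) {j : ℕ} (hj : j ≤ m) :
    ∀ (xs : List (WW m n k)) (l : List (WW m n k × WW m n k)), (∀ x ∈ xs, Dom Adj κ P x) →
    BPos Adj (Dom Adj κ P) (Dom Adj κ' P') l →
    (∀ p ∈ l, core p.1 → m + 1 ≤ lev p.1 + j → p.1 = p.2) →
    (∀ x ∈ xs, core x → m + 1 ≤ lev x + j → ∃ y, (x, y) ∈ l) →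
    l.length + xs.length ≤ S0 →
    ∃ l1, BPos Adj (Dom Adj κ P) (Dom Adj κ' P') l1 ∧
      (∀ p ∈ l1, core p.1 → m + 1 ≤ lev p.1 + j → p.1 = p.2) ∧
      (∀ p ∈ l, p ∈ l1) ∧ l1.length ≤ l.length + xs.length ∧
      ∀ x ∈ xs, ∃ y, (x, y) ∈ l1 := by
  intro xs
  induction xs with
  | nil => intro l _ h1 h2 _ _; exact ⟨l, h1, h2, fun p hp => hp, by simp, by simp⟩
  | cons z xs ih =>
    intro l hx h1 h2 h3 hS
    simp only [List.length_cons] at hS
    obtain ⟨l1, g1, g2, g3, g4, g5⟩ := ih l (fun x hx' => hx x (by simp [hx'])) h1 h2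
      (fun x hx' => h3 x (by simp [hx'])) (by omega)
    by_cases hz : ∀ p ∈ l1, p.1 ≠ z
    · have hnz : ¬ (core z ∧ m + 1 ≤ lev z + j) := by
        rintro ⟨hc, hl⟩
        obtain ⟨y, hy⟩ := h3 z (by simp) hc hl
        exact hz _ (g3 _ hy) rfl
      have hex : ∃ y, BPos Adj (Dom Adj κ P) (Dom Adj κ' P') ((z, y) :: l1) := by
        have hxz := hx z (by simp)
        cases z with
        | vr v =>
          exfalso
          apply hnz
          refine ⟨by simp [core], ?_⟩
          rw [lev_vr]; omega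
        | leaf i =>
          exfalso
          apply hnz
          refine ⟨by simp [core], ?_⟩
          rw [lev_leaf]; omega
        | gate j' q i =>
          obtain ⟨y, _, hy⟩ := ext_gate hr g1 (Z := [])
            (by simp only [List.length_nil]; omega) hxz hz
          exact ⟨y, hy⟩
        | dum s i =>
          obtain ⟨y, _, hy⟩ := ext_dum g1 (Z := []) (s := s)
            (by have := hP s; simp only [List.length_nil]; omega) hxz hz
          exact ⟨y, hy⟩
      obtain ⟨y, hy⟩ := hex
      refine ⟨(z, y) :: l1, hy, ?_, ?_, ?_, ?_⟩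
      · intro p hp
        rcases List.mem_cons.1 hp with rfl | hp
        · intro hc hl
          exact absurd ⟨hc, hl⟩ hnz
        · exact g2 p hp
      · intro p hp
        exact List.mem_cons_of_mem _ (g3 p hp)
      · simp only [List.length_cons]; omega
      · intro x hx'
        rcases List.mem_cons.1 hx' with rfl | hx'
        · exact ⟨y, by simp⟩
        · obtain ⟨y', hy'⟩ := g5 x hx'
          exact ⟨y', List.mem_cons_of_mem _ hy'⟩
    · push Not at hz
      obtain ⟨⟨p1, p2⟩, hp, hpz⟩ := hz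
      simp only at hpz
      subst hpz
      refine ⟨l1, g1, g2, g3, by simp only [List.length_cons]; omega, ?_⟩
      intro x hx'
      rcases List.mem_cons.1 hx' with rfl | hx'
      · exact ⟨p2, hp⟩
      · exact g5 x hx'

theorem fam_forth (hr : RichAdj Adj S0) (hP : ∀ s, S0 < P' s) {α j : ℕ}
    {l : List (WW m n k × WW m n k)} (h : PP Adj κ κ' P P' S0 α (j + 1) l)
    {xs : List (WW m n k)} (hxs : ∀ x ∈ xs, Dom Adj κ P x) (hα : xs.length ≤ α) :
    ∃ l1, PP Adj κ κ' P P' S0 α j l1 ∧ (∀ p ∈ l, p ∈ l1) ∧ ∀ x ∈ xs, ∃ y, (x, y) ∈ l1 := by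
  obtain ⟨h1, h2, h3, h4⟩ := h
  have h5 : (j + 1) * (2 * α) = j * (2 * α) + 2 * α := by ring
  obtain ⟨l1, g1, g2, g3, g4, g5⟩ := phase_one h1 xs l hxs h2 h3
  obtain ⟨l2, f1, f2, f3, f4, f5⟩ := phase_two hr hP (j := j) (by omega) xs l1 hxs g1
    (fun p hp hc hl => g2 p hp hc (by omega)) g5 (by omega)
  exact ⟨l2, ⟨by omega, f1, f2, by omega⟩, fun p hp => f3 p (g3 p hp), f5⟩

theorem fam_back (hr : RichAdj Adj S0) (hP : ∀ s, S0 < P s) {α j : ℕ}
    {l : List (WW m n k × WW m n k)} (h : PP Adj κ κ' P P' S0 α (j + 1) l)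
    {ys : List (WW m n k)} (hys : ∀ y ∈ ys, Dom Adj κ' P' y) (hα : ys.length ≤ α) :
    ∃ l1, PP Adj κ κ' P P' S0 α j l1 ∧ (∀ p ∈ l, p ∈ l1) ∧ ∀ y ∈ ys, ∃ x, (x, y) ∈ l1 := by
  obtain ⟨l1, h1, h2, h3⟩ := fam_forth hr hP (PP_swap h) hys hα
  refine ⟨l1.map Prod.swap, PP_swap h1, ?_, ?_⟩
  · rintro ⟨x, y⟩ hp
    exact mem_map_swap.2 (h2 _ (mem_map_swap.2 hp))
  · intro y hy
    obtain ⟨x, hx⟩ := h3 y hy
    exact ⟨x, mem_map_swap.2 hx⟩

theorem base_start (hP : ∀ s, S0 < P' s) :
    ∀ (xs : List (WW m n k)), (∀ x ∈ xs, Dom Adj κ P x) → xs.length ≤ S0 →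
    ∃ l, BPos Adj (Dom Adj κ P) (Dom Adj none P') l ∧
      (∀ p ∈ l, core p.1 → p.1 = p.2) ∧ l.length ≤ xs.length ∧
      ∀ x ∈ xs, ∃ y, (x, y) ∈ l := by
  intro xs
  induction xs with
  | nil => intro _ _; exact ⟨[], bpos_nil, by simp, by simp, by simp⟩
  | cons z xs ih =>
    intro hx hS
    simp only [List.length_cons] at hS
    obtain ⟨l1, g1, g2, g4, g5⟩ := ih (fun x hx' => hx x (by simp [hx'])) (by omega)
    by_cases hz : ∀ p ∈ l1, p.1 ≠ z
    · have hxz := hx z (by simp)
      have hex : ∃ y, BPos Adj (Dom Adj κ P) (Dom Adj none P') ((z, y) :: l1) ∧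
          (core z → z = y) := by
        by_cases hc : core z
        · refine ⟨z, ?_, fun _ => rfl⟩
          have hzY : Dom Adj none P' z := by
            cases z with
            | vr v => trivial
            | leaf i => intro h0 q hq; simp at hq
            | gate j' q i => intro h0; simp
            | dum s i => exact absurd hc (by simp [core])
          refine bpos_cons g1 hxz hzY rfl hz ?_ ?_
          · rintro ⟨x, y⟩ hp hy
            simp only at hy
            subst hy
            have hlev := bpos_lev g1 hp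
            exact hz _ hp (g2 _ hp ((core_iff hlev).2 hc))
          · rintro ⟨x, y⟩ hp
            have hlev := bpos_lev g1 hp
            show (EE Adj z x ↔ EE Adj z y) ∧ (EE Adj x z ↔ EE Adj y z)
            by_cases hc' : core x
            · have : x = y := g2 _ hp hc'
              subst this
              exact ⟨Iff.rfl, Iff.rfl⟩
            · have hc'' : ¬ core y := fun h => hc' ((core_iff hlev).2 h)
              exact ⟨⟨fun h => absurd (EE_core h).2 hc', fun h => absurd (EE_core h).2 hc''⟩,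
                ⟨fun h => absurd (EE_core h).1 hc', fun h => absurd (EE_core h).1 hc''⟩⟩
        · cases z with
          | vr v => exact absurd (by simp [core]) hc
          | leaf v => exact absurd (by simp [core]) hc
          | gate j' q v => exact absurd (by simp [core]) hc
          | dum s i =>
            obtain ⟨y, _, hy⟩ := ext_dum g1 (Z := []) (s := s)
              (by have := hP s; simp only [List.length_nil]; omega) hxz hz
            exact ⟨y, hy, fun h => absurd h hc⟩
      obtain ⟨y, hy, hyc⟩ := hex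
      refine ⟨(z, y) :: l1, hy, ?_, ?_, ?_⟩
      · intro p hp
        rcases List.mem_cons.1 hp with rfl | hp
        · exact hyc
        · exact g2 p hp
      · simp only [List.length_cons]; omega
      · intro x hx'
        rcases List.mem_cons.1 hx' with rfl | hx'
        · exact ⟨y, by simp⟩
        · obtain ⟨y', hy'⟩ := g5 x hx'
          exact ⟨y', List.mem_cons_of_mem _ hy'⟩
    · push Not at hz
      obtain ⟨⟨p1, p2⟩, hp, hpz⟩ := hz
      simp only at hpz
      subst hpz
      refine ⟨l1, g1, g2, by simp only [List.length_cons]; omega, ?_⟩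
      intro x hx'
      rcases List.mem_cons.1 hx' with rfl | hx'
      · exact ⟨p2, hp⟩
      · exact g5 x hx'

end fam

end Pool.Agent.WSatChain
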