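import Mathlib
import Pool.Agent.WSatChain.Frame
import Pool.Agent.WSatChain.Circuit
import Pool.Agent.WSatChain.Rich

/-! The source circuits of the first link: cliques in multipartite graphs. -/

namespace Pool.Agent.WSatChain

namespace Cl

/-- vertices with colours, and dummies -/
inductive V1 (n k : ℕ) : Type
  | vx (i : Fin k) (j : Fin n)
  | dum (s : Bool) (i : ℕ)

open V1

variable {n k : ℕ}

/-- the kind of an element -/
def kd : V1 n k → ℕ
  | vx _ _ => 1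
  | dum false _ => 0
  | dum true _ => 2

theorem kd_vx (i : Fin k) (j : Fin n) : kd (vx i j) = 1 := rfl

theorem kd_dum (s : Bool) (i : ℕ) : kd (dum s i : V1 n k) = cond s 2 0 := by cases s <;> rfl

variable (Adj : V1 n k → V1 n k → Prop)

/-- edges between different colours -/
def E1 : V1 n k → V1 n k → Prop
  | vx i j, vx i' j' => i ≠ i' ∧ Adj (vx i j) (vx i' j')
  | _, _ => False

/-- compatibility of pairs -/
def G1 (p q : V1 n k × V1 n k) : Prop :=
  kd p.1 = kd p.2 ∧ (p.1 = q.1 ↔ p.2 = q.2) ∧ (E1 Adj p.1 q.1 ↔ E1 Adj p.2 q.2)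

/-- the domains that are compared -/
def D1 (κ : ℕ) (P : Bool → ℕ) : V1 n k → Prop
  | vx i _ => i.1 < κ
  | dum s i => i < P s

/-- the extension property -/
structure Rich1 (Adj : V1 n k → V1 n k → Prop) (S0 : ℕ) : Prop where
  symm : ∀ x y, Adj x y ↔ Adj y x
  vx : ∀ (i : Fin k) (D : List (V1 n k)), D.length ≤ S0 → ∀ P : V1 n k → Prop,
    ∃ j, V1.vx i j ∉ D ∧ ∀ d ∈ D, kd d = 1 → (Adj (V1.vx i j) d ↔ P d)

variable {Adj} {S0 κ : ℕ} {P : Bool → ℕ} {X : V1 n k → Prop}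

theorem rich1_exists (k S0 : ℕ) : ∃ n, ∃ Adj : V1 n k → V1 n k → Prop, Rich1 Adj S0 := by
  obtain ⟨n, _, A, hsymm, hA⟩ := rich_graph (fun _ => Fin k) k (fun n => by
    rw [Fintype.card_fin]
    exact (Nat.lt_two_pow_self).le.trans (Nat.pow_le_pow_left (by omega) k)) S0 0
  refine ⟨n, fun x y => ∃ i j i' j', x = vx i j ∧ y = vx i' j' ∧ A (i, j) (i', j'), ?_, ?_⟩
  · intro x y
    constructor
    · rintro ⟨i, j, i', j', rfl, rfl, h⟩
      exact ⟨i', j', i, j, rfl, rfl, (hsymm _ _).1 h⟩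
    · rintro ⟨i, j, i', j', rfl, rfl, h⟩
      exact ⟨i', j', i, j, rfl, rfl, (hsymm _ _).1 h⟩
  · intro i D hD P
    let f : V1 n k → Option (Fin k × Fin n) := fun x =>
      match x with
      | vx i j => some (i, j)
      | dum _ _ => none
    obtain ⟨j, h1, h2⟩ := hA (D.filterMap f) ((List.length_filterMap_le _ _).trans hD)
      (fun p => P (vx p.1 p.2)) i
    refine ⟨j, ?_, ?_⟩
    · intro hmem
      exact h1 (List.mem_filterMap.2 ⟨_, hmem, rfl⟩)
    · intro d hd hk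
      cases d with
      | dum s i => rw [kd_dum] at hk; cases s <;> simp at hk
      | vx i' j' =>
        rw [← h2 (i', j') (List.mem_filterMap.2 ⟨_, hd, rfl⟩)]
        constructor
        · rintro ⟨i1, j1, i2, j2, e1, e2, h⟩
          rw [vx.injEq] at e1 e2
          obtain ⟨rfl, rfl⟩ := e1
          obtain ⟨rfl, rfl⟩ := e2
          exact h
        · intro h
          exact ⟨_, _, _, _, rfl, rfl, h⟩

theorem E1_symm (hr : Rich1 Adj S0) (x y : V1 n k) : E1 Adj x y ↔ E1 Adj y x := by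
  cases x with
  | dum s i => cases y <;> simp [E1]
  | vx i j =>
    cases y with
    | dum s i => simp [E1]
    | vx i' j' =>
      simp only [E1]
      rw [hr.symm, ne_comm]

theorem E1_irrefl (x : V1 n k) : ¬ E1 Adj x x := by
  cases x <;> simp [E1]

theorem E1_kd {x y : V1 n k} (h : E1 Adj x y) : kd x = 1 ∧ kd y = 1 := by
  cases x with
  | dum s i => cases y <;> simp [E1] at h
  | vx i j =>
    cases y with
    | dum s i => simp [E1] at h
    | vx i' j' => exact ⟨rfl, rfl⟩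

theorem cons1 (hr : Rich1 Adj S0) {X Y : V1 n k → Prop} {l : List (V1 n k × V1 n k)}
    (hl : Good (G1 Adj) l ∧ ∀ p ∈ l, X p.1 ∧ Y p.2) {x y : V1 n k} (hx : X x) (hy : Y y)
    (hk : kd x = kd y) (hdom : ∀ p ∈ l, p.1 ≠ x) (hran : ∀ p ∈ l, p.2 ≠ y)
    (hE : ∀ p ∈ l, (E1 Adj x p.1 ↔ E1 Adj y p.2)) :
    Good (G1 Adj) ((x, y) :: l) ∧ ∀ p ∈ (x, y) :: l, X p.1 ∧ Y p.2 := by
  constructor
  · intro p hp q hq
    rcases List.mem_cons.1 hp with rfl | hp <;> rcases List.mem_cons.1 hq with rfl | hq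
    · exact ⟨hk, by simp, ⟨fun h => absurd h (E1_irrefl _), fun h => absurd h (E1_irrefl _)⟩⟩
    · exact ⟨hk, ⟨fun e => absurd e.symm (hdom q hq), fun e => absurd e.symm (hran q hq)⟩,
        hE q hq⟩
    · refine ⟨(hl.1 p hp p hp).1,
        ⟨fun e => absurd e (hdom p hp), fun e => absurd e (hran p hp)⟩, ?_⟩
      show E1 Adj p.1 x ↔ E1 Adj p.2 y
      rw [E1_symm hr, hE p hp, E1_symm hr]
    · exact hl.1 p hp q hq
  · intro p hp
    rcases List.mem_cons.1 hp with rfl | hp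
    · exact ⟨hx, hy⟩
    · exact hl.2 p hp

theorem ext1 (hr : Rich1 Adj S0) (hκ : κ ≤ k) {S : ℕ} (hS : S + k ≤ S0)
    (hP : ∀ s, S0 < P s) (l : List (V1 n k × V1 n k))
    (hl : Good (G1 Adj) l ∧ ∀ p ∈ l, X p.1 ∧ D1 κ P p.2) (hlk : l.length < κ)
    (x : V1 n k) (hx : X x) (hdom : ∀ p ∈ l, p.1 ≠ x) (Z : List (V1 n k)) (hZ : Z.length ≤ S) :
    ∃ y, y ∉ Z ∧ Good (G1 Adj) ((x, y) :: l) ∧ ∀ p ∈ (x, y) :: l, X p.1 ∧ D1 κ P p.2 := by
  classical
  cases x with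
  | dum s i =>
    obtain ⟨i', hi', hlt⟩ : ∃ i' : ℕ, dum s i' ∉ (l.map Prod.snd ++ Z) ∧ i' < P s := by
      by_contra hcon
      push Not at hcon
      have h1 : (Finset.range (P s)).image (fun i' => (dum s i' : V1 n k)) ⊆
          (l.map Prod.snd ++ Z).toFinset := by
        intro y hy
        obtain ⟨i', hi', rfl⟩ := Finset.mem_image.1 hy
        rw [List.mem_toFinset]
        by_contra hn
        exact absurd (hcon i' hn) (by simpa using Finset.mem_range.1 hi')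
      have h2 := Finset.card_le_card h1
      rw [Finset.card_image_of_injective _ (by
        intro a b hab
        simpa using hab), Finset.card_range] at h2
      have h3 := List.toFinset_card_le (l.map Prod.snd ++ Z)
      rw [List.length_append, List.length_map] at h3
      have := hP s
      omega
    refine ⟨dum s i', fun h => hi' (List.mem_append_right _ h), ?_⟩
    refine cons1 hr hl hx hlt (by rw [kd_dum, kd_dum]) hdom ?_ ?_
    · intro p hp e
      exact hi' (List.mem_append_left _ (List.mem_map.2 ⟨p, hp, e⟩))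
    · rintro ⟨x', y'⟩ _
      cases x' <;> cases y' <;> simp [E1]
  | vx i j =>
    let f : V1 n k → ℕ := fun x =>
      match x with
      | vx i _ => i.1
      | dum _ _ => 0
    obtain ⟨γ, hγ, hγl⟩ : ∃ γ < κ, γ ∉ ((l.map Prod.snd).map f) := by
      by_contra hcon
      push Not at hcon
      have h1 : Finset.range κ ⊆ ((l.map Prod.snd).map f).toFinset := by
        intro y hy
        rw [List.mem_toFinset]
        exact hcon y (by simpa using hy)
      have h2 := Finset.card_le_card h1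
      have h3 := List.toFinset_card_le ((l.map Prod.snd).map f)
      rw [Finset.card_range] at h2
      rw [List.length_map, List.length_map] at h3
      omega
    obtain ⟨j', hj', hA⟩ := hr.vx ⟨γ, by omega⟩ (l.map Prod.snd ++ Z) (by
      rw [List.length_append, List.length_map]; omega)
      (fun d => ∃ x', (x', d) ∈ l ∧ E1 Adj (vx i j) x')
    refine ⟨vx ⟨γ, by omega⟩ j', fun h => hj' (List.mem_append_right _ h), ?_⟩
    refine cons1 hr hl hx hγ rfl hdom ?_ ?_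
    · intro p hp e
      exact hj' (List.mem_append_left _ (List.mem_map.2 ⟨p, hp, e⟩))
    · rintro ⟨x', y'⟩ hp
      show E1 Adj (vx i j) x' ↔ E1 Adj (vx _ j') y'
      have hk : kd x' = kd y' := (hl.1 _ hp _ hp).1
      cases y' with
      | dum s i' =>
        simp only [E1, iff_false]
        intro h
        rw [(E1_kd h).2, kd_dum] at hk
        cases s <;> simp at hk
      | vx i' j'' =>
        simp only [E1]
        rw [hA _ (List.mem_append_left _ (List.mem_map.2 ⟨_, hp, rfl⟩)) rfl]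
        constructor
        · intro h
          refine ⟨?_, x', hp, h⟩
          rintro rfl
          apply hγl
          exact List.mem_map.2 ⟨_, List.mem_map.2 ⟨_, hp, rfl⟩, rfl⟩
        · rintro ⟨_, x'', h1, h2⟩
          have : x' = x'' := (hl.1 _ hp _ h1).2.1.2 rfl
          rw [this]
          exact h2

/-- the shapes of the nodes -/
inductive S1 : Type
  | g | cl | n1 | n2 | v | d2n | d2v | d3o | d3n | d3v
  deriving DecidableEq

instance : Fintype S1 :=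
  ⟨{S1.g, S1.cl, S1.n1, S1.n2, S1.v, S1.d2n, S1.d2v, S1.d3o, S1.d3n, S1.d3v}, by
    intro s
    cases s <;> decide⟩

variable (Adj) in
/-- a conflict -/
def cf (x y : V1 n k) : Prop := kd x = 1 ∧ kd y = 1 ∧ x ≠ y ∧ ¬ E1 Adj x y

variable (Adj) in
/-- valid nodes -/
inductive Vd1 : S1 × List (V1 n k) → Prop
  | g : Vd1 (S1.g, [])
  | cl (x y : V1 n k) : cf Adj x y → Vd1 (S1.cl, [x, y])
  | n1 (x y : V1 n k) : cf Adj x y → Vd1 (S1.n1, [x, y])
  | n2 (x y : V1 n k) : cf Adj x y → Vd1 (S1.n2, [x, y])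
  | v (x : V1 n k) : kd x = 1 → Vd1 (S1.v, [x])
  | d2n (x : V1 n k) : kd x = 0 → Vd1 (S1.d2n, [x])
  | d2v (x : V1 n k) : kd x = 0 → Vd1 (S1.d2v, [x])
  | d3o (x : V1 n k) : kd x = 2 → Vd1 (S1.d3o, [x])
  | d3n (x : V1 n k) : kd x = 2 → Vd1 (S1.d3n, [x])
  | d3v (x : V1 n k) : kd x = 2 → Vd1 (S1.d3v, [x])

/-- wires -/
inductive W1 : S1 × List (V1 n k) → S1 × List (V1 n k) → Prop
  | gc (x y : V1 n k) : W1 (S1.g, []) (S1.cl, [x, y])
  | c1 (x y : V1 n k) : W1 (S1.cl, [x, y]) (S1.n1, [x, y])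
  | c2 (x y : V1 n k) : W1 (S1.cl, [x, y]) (S1.n2, [x, y])
  | v1 (x y : V1 n k) : W1 (S1.n1, [x, y]) (S1.v, [x])
  | v2 (x y : V1 n k) : W1 (S1.n2, [x, y]) (S1.v, [y])
  | g2 (x : V1 n k) : W1 (S1.g, []) (S1.d2n, [x])
  | n2 (x : V1 n k) : W1 (S1.d2n, [x]) (S1.d2v, [x])
  | g3 (x : V1 n k) : W1 (S1.g, []) (S1.d3o, [x])
  | o3 (x : V1 n k) : W1 (S1.d3o, [x]) (S1.d3n, [x])
  | n3 (x : V1 n k) : W1 (S1.d3n, [x]) (S1.d3v, [x])

/-- the circuit structure -/
def cir1 : Circ (S1 × List (V1 n k)) where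
  isVar e := e.1 = S1.v ∨ e.1 = S1.d2v ∨ e.1 = S1.d3v
  isAnd e := e.1 = S1.g
  isOr e := e.1 = S1.cl ∨ e.1 = S1.d3o
  isNot e := e.1 = S1.n1 ∨ e.1 = S1.n2 ∨ e.1 = S1.d2n ∨ e.1 = S1.d3n
  isOut e := e.1 = S1.g ∧ e.2 = []
  wire := W1

theorem g1_eq {l : List (V1 n k × V1 n k)} (hl : Good (G1 Adj) l) {x y y' : V1 n k}
    (h : (x, y) ∈ l) (h' : (x, y') ∈ l) : y = y' := (hl _ h _ h').2.1.1 rfl

theorem g1_kd {l : List (V1 n k × V1 n k)} (hl : Good (G1 Adj) l) {x y : V1 n k}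
    (h : (x, y) ∈ l) : kd x = kd y := (hl _ h _ h).1

theorem g1_cf {l : List (V1 n k × V1 n k)} (hl : Good (G1 Adj) l) {x y x' y' : V1 n k}
    (h : (x, x') ∈ l) (h' : (y, y') ∈ l) (hc : cf Adj x y) : cf Adj x' y' := by
  obtain ⟨h1, h2, h3, h4⟩ := hc
  refine ⟨by rw [← g1_kd hl h]; exact h1, by rw [← g1_kd hl h']; exact h2, ?_, ?_⟩
  · intro e
    exact h3 ((hl _ h _ h').2.1.2 e)
  · intro e
    exact h4 ((hl _ h _ h').2.2.2 e)

theorem g1_vd {l : List (V1 n k × V1 n k)} (hl : Good (G1 Adj) l)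
    {e e' : S1 × List (V1 n k)} (h : Cov l e e') (hv : Vd1 Adj e) : Vd1 Adj e' := by
  obtain ⟨s', a'⟩ := e'
  obtain ⟨hs, ha⟩ := h
  cases hv <;> simp only at hs ha <;> subst hs
  case g => cases ha; exact Vd1.g
  case cl x y hc =>
    rcases ha with _ | ⟨h1, _ | ⟨h2, _ | _⟩⟩
    exact Vd1.cl _ _ (g1_cf hl h1 h2 hc)
  case n1 x y hc =>
    rcases ha with _ | ⟨h1, _ | ⟨h2, _ | _⟩⟩
    exact Vd1.n1 _ _ (g1_cf hl h1 h2 hc)
  case n2 x y hc =>
    rcases ha with _ | ⟨h1, _ | ⟨h2, _ | _⟩⟩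
    exact Vd1.n2 _ _ (g1_cf hl h1 h2 hc)
  case v x hk =>
    rcases ha with _ | ⟨h1, _ | _⟩
    exact Vd1.v _ ((g1_kd hl h1).symm.trans hk)
  case d2n x hk =>
    rcases ha with _ | ⟨h1, _ | _⟩
    exact Vd1.d2n _ ((g1_kd hl h1).symm.trans hk)
  case d2v x hk =>
    rcases ha with _ | ⟨h1, _ | _⟩
    exact Vd1.d2v _ ((g1_kd hl h1).symm.trans hk)
  case d3o x hk =>
    rcases ha with _ | ⟨h1, _ | _⟩
    exact Vd1.d3o _ ((g1_kd hl h1).symm.trans hk)
  case d3n x hk =>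
    rcases ha with _ | ⟨h1, _ | _⟩
    exact Vd1.d3n _ ((g1_kd hl h1).symm.trans hk)
  case d3v x hk =>
    rcases ha with _ | ⟨h1, _ | _⟩
    exact Vd1.d3v _ ((g1_kd hl h1).symm.trans hk)

theorem g1_wr {l : List (V1 n k × V1 n k)} (hl : Good (G1 Adj) l)
    {e e' h h' : S1 × List (V1 n k)} (h1 : Cov l e e') (h2 : Cov l h h')
    (hw : W1 e h) : W1 e' h' := by
  obtain ⟨s', a'⟩ := e'
  obtain ⟨t', c'⟩ := h'
  obtain ⟨hs, ha⟩ := h1
  obtain ⟨ht, hc⟩ := h2
  cases hw <;> simp only at hs ha ht hc <;> subst hs <;> subst ht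
  case gc x y =>
    rcases ha with _ | _
    rcases hc with _ | ⟨h1, _ | ⟨h2, _ | _⟩⟩
    exact W1.gc _ _
  case c1 x y =>
    rcases ha with _ | ⟨h1, _ | ⟨h2, _ | _⟩⟩
    rcases hc with _ | ⟨h1', _ | ⟨h2', _ | _⟩⟩
    rw [g1_eq hl h1 h1', g1_eq hl h2 h2']
    exact W1.c1 _ _
  case c2 x y =>
    rcases ha with _ | ⟨h1, _ | ⟨h2, _ | _⟩⟩
    rcases hc with _ | ⟨h1', _ | ⟨h2', _ | _⟩⟩
    rw [g1_eq hl h1 h1', g1_eq hl h2 h2']
    exact W1.c2 _ _
  case v1 x y =>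
    rcases ha with _ | ⟨h1, _ | ⟨h2, _ | _⟩⟩
    rcases hc with _ | ⟨h1', _ | _⟩
    rw [g1_eq hl h1 h1']
    exact W1.v1 _ _
  case v2 x y =>
    rcases ha with _ | ⟨h1, _ | ⟨h2, _ | _⟩⟩
    rcases hc with _ | ⟨h2', _ | _⟩
    rw [g1_eq hl h2 h2']
    exact W1.v2 _ _
  case g2 x =>
    rcases ha with _ | _
    rcases hc with _ | ⟨h1, _ | _⟩
    exact W1.g2 _
  case n2 x =>
    rcases ha with _ | ⟨h1, _ | _⟩
    rcases hc with _ | ⟨h1', _ | _⟩
    rw [g1_eq hl h1 h1']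
    exact W1.n2 _
  case g3 x =>
    rcases ha with _ | _
    rcases hc with _ | ⟨h1, _ | _⟩
    exact W1.g3 _
  case o3 x =>
    rcases ha with _ | ⟨h1, _ | _⟩
    rcases hc with _ | ⟨h1', _ | _⟩
    rw [g1_eq hl h1 h1']
    exact W1.o3 _
  case n3 x =>
    rcases ha with _ | ⟨h1, _ | _⟩
    rcases hc with _ | ⟨h1', _ | _⟩
    rw [g1_eq hl h1 h1']
    exact W1.n3 _

variable (Adj) in
/-- the frame -/
def fr1 : Frame where
  W := V1 n k
  Sh := S1
  L := 2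
  G := G1 Adj
  valid := Vd1 Adj
  cir := cir1
  G_inj _ _ h := h.2.1
  G_swap _ _ h := ⟨h.1.symm, h.2.1.symm, h.2.2.symm⟩
  G_refl _ _ := ⟨rfl, Iff.rfl, Iff.rfl⟩
  len := by
    intro e he
    cases he <;> simp
  p_valid _ _ _ hl h hv := g1_vd hl h hv
  p_var := by
    rintro l ⟨s, a⟩ ⟨s', a'⟩ hl ⟨hs, ha⟩ h
    simp only at hs
    subst hs
    exact h
  p_and := by
    rintro l ⟨s, a⟩ ⟨s', a'⟩ hl ⟨hs, ha⟩ h
    simp only at hs
    subst hs
    exact h
  p_or := by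
    rintro l ⟨s, a⟩ ⟨s', a'⟩ hl ⟨hs, ha⟩ h
    simp only at hs
    subst hs
    exact h
  p_not := by
    rintro l ⟨s, a⟩ ⟨s', a'⟩ hl ⟨hs, ha⟩ h
    simp only at hs
    subst hs
    exact h
  p_out := by
    rintro l ⟨s, a⟩ ⟨s', a'⟩ hl ⟨hs, ha⟩ ⟨h1, h2⟩
    simp only at hs ha h1 h2
    subst hs
    subst h2
    cases ha
    exact ⟨h1, rfl⟩
  p_wire _ _ _ _ _ hl h1 h2 hw := g1_wr hl h1 h2 hw

end Cl

end Pool.Agent.WSatChain
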