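import Mathlib
import Pool.Agent.WSatChain.Clique

/-! Properties of the source circuits of the first link. -/

namespace Pool.Agent.WSatChain

namespace Cl

open V1

variable {n k : ℕ} {Adj : V1 n k → V1 n k → Prop} {S0 κ : ℕ} {P P' : Bool → ℕ}
  {X : V1 n k → Prop}

/-- the rank of a node -/
def rk1 : S1 × List (V1 n k) → ℕ
  | (S1.g, _) => 0
  | (S1.cl, _) => 1
  | (S1.n1, _) => 2
  | (S1.n2, _) => 2
  | (S1.v, _) => 3
  | (S1.d2n, _) => 1
  | (S1.d2v, _) => 2
  | (S1.d3o, _) => 1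
  | (S1.d3n, _) => 2
  | (S1.d3v, _) => 3

theorem w1_rk {e h : S1 × List (V1 n k)} (hw : W1 e h) : rk1 e < rk1 h := by
  cases hw <;> simp [rk1]

theorem c1_acyclic (g : (fr1 Adj).U X) :
    ¬ Relation.TransGen ((fr1 Adj).C X).wire g g := by
  have key : ∀ g h : (fr1 Adj).U X,
      Relation.TransGen ((fr1 Adj).C X).wire g h → rk1 g.1 < rk1 h.1 := by
    intro g h hgh
    induction hgh with
    | single h => exact w1_rk h
    | tail _ h ih => exact ih.trans (w1_rk h)
  intro h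
  exact lt_irrefl _ (key g g h)

/-- the output -/
def rt : (fr1 Adj).U X := ⟨(S1.g, []), Vd1.g, by intro x hx; simp at hx⟩

theorem rt_out : ((fr1 Adj).C X).isOut rt := ⟨rfl, rfl⟩

theorem out_rt {g : (fr1 Adj).U X} (h : ((fr1 Adj).C X).isOut g) : g = rt := by
  obtain ⟨⟨s, a⟩, hv, hd⟩ := g
  obtain ⟨h1, h2⟩ := h
  simp only at h1 h2
  subst h1
  subst h2
  rfl

theorem kind1 (s : S1) :
    ((s = S1.v ∨ s = S1.d2v ∨ s = S1.d3v) ∧ ¬ (s = S1.g) ∧
        ¬ (s = S1.cl ∨ s = S1.d3o) ∧ ¬ (s = S1.n1 ∨ s = S1.n2 ∨ s = S1.d2n ∨ s = S1.d3n)) ∨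
      (¬ (s = S1.v ∨ s = S1.d2v ∨ s = S1.d3v) ∧ (s = S1.g) ∧
        ¬ (s = S1.cl ∨ s = S1.d3o) ∧ ¬ (s = S1.n1 ∨ s = S1.n2 ∨ s = S1.d2n ∨ s = S1.d3n)) ∨
      (¬ (s = S1.v ∨ s = S1.d2v ∨ s = S1.d3v) ∧ ¬ (s = S1.g) ∧
        (s = S1.cl ∨ s = S1.d3o) ∧ ¬ (s = S1.n1 ∨ s = S1.n2 ∨ s = S1.d2n ∨ s = S1.d3n)) ∨
      (¬ (s = S1.v ∨ s = S1.d2v ∨ s = S1.d3v) ∧ ¬ (s = S1.g) ∧
        ¬ (s = S1.cl ∨ s = S1.d3o) ∧ (s = S1.n1 ∨ s = S1.n2 ∨ s = S1.d2n ∨ s = S1.d3n)) := by
  cases s <;> decide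

theorem one1 {x y : V1 n k} (h : y ∈ [x]) : y = x := List.mem_singleton.1 h

theorem c1_isCircuit : ((fr1 Adj).C X).IsCircuit where
  kind := by
    rintro ⟨⟨s, a⟩, hv, hd⟩
    exact kind1 s
  out := ⟨rt, rt_out, fun g hg => out_rt hg⟩
  var_in := by
    rintro ⟨⟨s, a⟩, hv, hd⟩ ⟨h, hh⟩ hvar hw
    change W1 (s, a) h at hw
    change s = S1.v ∨ s = S1.d2v ∨ s = S1.d3v at hvar
    rcases hvar with rfl | rfl | rfl <;> cases hw
  not_in := by
    rintro ⟨⟨s, a⟩, hv, hd⟩ hnot
    change s = S1.n1 ∨ s = S1.n2 ∨ s = S1.d2n ∨ s = S1.d3n at hnot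
    rcases hnot with rfl | rfl | rfl | rfl
    · cases hv with
      | n1 x y hc =>
        refine ⟨⟨(S1.v, [x]), Vd1.v x hc.1, ?_⟩, W1.v1 x y, ?_⟩
        · intro z hz
          rw [one1 hz]
          exact hd x List.mem_cons_self
        · rintro ⟨h, hh⟩ hw
          change W1 (S1.n1, [x, y]) h at hw
          cases hw
          rfl
    · cases hv with
      | n2 x y hc =>
        refine ⟨⟨(S1.v, [y]), Vd1.v y hc.2.1, ?_⟩, W1.v2 x y, ?_⟩
        · intro z hz
          rw [one1 hz]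
          exact hd y (List.mem_cons_of_mem _ List.mem_cons_self)
        · rintro ⟨h, hh⟩ hw
          change W1 (S1.n2, [x, y]) h at hw
          cases hw
          rfl
    · cases hv with
      | d2n x hx =>
        refine ⟨⟨(S1.d2v, [x]), Vd1.d2v x hx, hd⟩, W1.n2 x, ?_⟩
        rintro ⟨h, hh⟩ hw
        change W1 (S1.d2n, [x]) h at hw
        cases hw
        rfl
    · cases hv with
      | d3n x hx =>
        refine ⟨⟨(S1.d3v, [x]), Vd1.d3v x hx, hd⟩, W1.n3 x, ?_⟩
        rintro ⟨h, hh⟩ hw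
        change W1 (S1.d3n, [x]) h at hw
        cases hw
        rfl
  acyclic := c1_acyclic

theorem partner (hr : Rich1 Adj S0) (hS : 1 ≤ S0) {x : V1 n k} (hx : kd x = 1)
    (hX : D1 κ P x) : ∃ y, cf Adj x y ∧ D1 κ P y := by
  cases x with
  | dum s i => rw [kd_dum] at hx; cases s <;> simp at hx
  | vx i j =>
    obtain ⟨j', hj', _⟩ := hr.vx i [vx i j] (by simpa using hS) (fun _ => True)
    refine ⟨vx i j', ⟨rfl, rfl, ?_, ?_⟩, hX⟩
    · intro e
      apply hj'
      rw [e]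
      simp
    · simp [E1]

theorem c1_isFormula (hr : Rich1 Adj S0) (hS : 1 ≤ S0) :
    ((fr1 Adj).C (D1 κ P)).IsFormula where
  toIsCircuit := c1_isCircuit
  used := by
    rintro ⟨⟨s, a⟩, hv, hd⟩
    cases hv with
    | g => exact Or.inl ⟨rfl, rfl⟩
    | cl x y hc => exact Or.inr ⟨rt, W1.gc x y⟩
    | n1 x y hc => exact Or.inr ⟨⟨(S1.cl, [x, y]), Vd1.cl x y hc, hd⟩, W1.c1 x y⟩
    | n2 x y hc => exact Or.inr ⟨⟨(S1.cl, [x, y]), Vd1.cl x y hc, hd⟩, W1.c2 x y⟩
    | v x hx =>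
      have hdx : D1 κ P x := hd x List.mem_cons_self
      obtain ⟨y, hc, hy⟩ := partner (κ := κ) (P := P) hr hS hx hdx
      refine Or.inr ⟨⟨(S1.n1, [x, y]), Vd1.n1 x y hc, ?_⟩, W1.v1 x y⟩
      intro z hz
      rcases List.mem_cons.1 hz with rfl | hz
      · exact hdx
      · rw [one1 hz]
        exact hy
    | d2n x hx => exact Or.inr ⟨rt, W1.g2 x⟩
    | d2v x hx => exact Or.inr ⟨⟨(S1.d2n, [x]), Vd1.d2n x hx, hd⟩, W1.n2 x⟩
    | d3o x hx => exact Or.inr ⟨rt, W1.g3 x⟩
    | d3n x hx => exact Or.inr ⟨⟨(S1.d3o, [x]), Vd1.d3o x hx, hd⟩, W1.o3 x⟩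
    | d3v x hx => exact Or.inr ⟨⟨(S1.d3n, [x]), Vd1.d3n x hx, hd⟩, W1.n3 x⟩
  once := by
    rintro ⟨g, hg⟩ ⟨p, hp⟩ ⟨q, hq⟩ hvar hw1 hw2
    change W1 p g at hw1
    change W1 q g at hw2
    change ¬ (g.1 = S1.v ∨ g.1 = S1.d2v ∨ g.1 = S1.d3v) at hvar
    apply Subtype.ext
    show p = q
    cases hw1 with
    | gc x y => cases hw2; rfl
    | c1 x y => cases hw2; rfl
    | c2 x y => cases hw2; rfl
    | v1 x y => exact absurd (Or.inl rfl) hvar
    | v2 x y => exact absurd (Or.inl rfl) hvar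
    | g2 x => cases hw2; rfl
    | n2 x => exact absurd (Or.inr (Or.inl rfl)) hvar
    | g3 x => cases hw2; rfl
    | o3 x => cases hw2; rfl
    | n3 x => exact absurd (Or.inr (Or.inr rfl)) hvar

theorem c1_lit {e : (fr1 Adj).U X}
    (h : e.1.1 = S1.n1 ∨ e.1.1 = S1.n2 ∨ e.1.1 = S1.d2n ∨ e.1.1 = S1.d3n) :
    ((fr1 Adj).C X).IsLit e := by
  obtain ⟨⟨s, a⟩, hv, hd⟩ := e
  refine Or.inr ⟨h, ?_⟩
  change s = S1.n1 ∨ s = S1.n2 ∨ s = S1.d2n ∨ s = S1.d3n at h
  rintro ⟨c, hc⟩ hw
  change W1 (s, a) c at hw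
  rcases h with rfl | rfl | rfl | rfl
  · cases hw; exact Or.inl rfl
  · cases hw; exact Or.inl rfl
  · cases hw; exact Or.inr (Or.inl rfl)
  · cases hw; exact Or.inr (Or.inr rfl)

/-- the index of a NOT node of a clause -/
def sel : S1 → Fin 2
  | S1.n1 => 0
  | _ => 1

theorem c1_gamma (hr : Rich1 Adj S0) (hS : 1 ≤ S0) :
    GAMMA 1 2 _ ((fr1 Adj).C (D1 κ P)) := by
  refine ⟨c1_isFormula hr hS, ?_⟩
  intro g hg
  rw [out_rt hg]
  refine Or.inr ⟨rfl, ?_⟩
  rintro ⟨h, hh⟩ hw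
  change W1 (S1.g, []) h at hw
  cases hw with
  | gc x y =>
    refine Or.inr ⟨Or.inl rfl, ?_, ?_⟩
    · rintro ⟨c, hc⟩ hw
      change W1 (S1.cl, [x, y]) c at hw
      cases hw
      · exact c1_lit (Or.inl rfl)
      · exact c1_lit (Or.inr (Or.inl rfl))
    · have : Nat.card (Fin 2) = 2 := Nat.card_fin 2
      rw [← this]
      refine Nat.card_le_card_of_injective
        (fun c : {c // ((fr1 Adj).C (D1 κ P)).wire ⟨(S1.cl, [x, y]), hh⟩ c} =>
          sel c.1.1.1) ?_
      rintro ⟨⟨c, hc⟩, hw⟩ ⟨⟨c', hc'⟩, hw'⟩ hcc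
      change W1 (S1.cl, [x, y]) c at hw
      change W1 (S1.cl, [x, y]) c' at hw'
      apply Subtype.ext
      apply Subtype.ext
      show c = c'
      change sel c.1 = sel c'.1 at hcc
      cases hw <;> cases hw' <;>
        first | rfl | (change (0 : Fin 2) = 1 at hcc; exact absurd hcc (by decide)) |
          (change (1 : Fin 2) = 0 at hcc; exact absurd hcc (by decide))
  | g2 x => exact Or.inl ⟨by decide, c1_lit (Or.inr (Or.inr (Or.inl rfl)))⟩
  | g3 x =>
    refine Or.inr ⟨Or.inr rfl, ?_, ?_⟩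
    · rintro ⟨c, hc⟩ hw
      change W1 (S1.d3o, [x]) c at hw
      cases hw
      exact c1_lit (Or.inr (Or.inr (Or.inr rfl)))
    · have : Subsingleton {c // ((fr1 Adj).C (D1 κ P)).wire ⟨(S1.d3o, [x]), hh⟩ c} := by
        constructor
        rintro ⟨⟨c, hc⟩, hw⟩ ⟨⟨c', hc'⟩, hw'⟩
        change W1 (S1.d3o, [x]) c at hw
        change W1 (S1.d3o, [x]) c' at hw'
        apply Subtype.ext
        apply Subtype.ext
        show c = c'
        cases hw
        cases hw'
        rfl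
      exact (Finite.card_le_one_iff_subsingleton.2 this).trans (by decide)

/-- a clique with all colours -/
theorem exists_clique (hr : Rich1 Adj S0) (hS : k ≤ S0) :
    ∃ f : Fin k → Fin n, ∀ i i', i ≠ i' → Adj (vx i (f i)) (vx i' (f i')) := by
  have key : ∀ r ≤ k, ∃ f : ∀ i : Fin k, i.1 < r → Fin n, ∀ i i' hi hi', i ≠ i' →
      Adj (vx i (f i hi)) (vx i' (f i' hi')) := by
    intro r
    induction r with
    | zero =>
      intro _
      exact ⟨fun i hi => absurd hi (by omega), fun i _ hi => absurd hi (by omega)⟩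
    | succ r ih =>
      intro hr'
      obtain ⟨f, hf⟩ := ih (by omega)
      let D : List (V1 n k) := (List.finRange k).filterMap fun i =>
        if hi : i.1 < r then some (vx i (f i hi)) else none
      obtain ⟨j, _, hj⟩ := hr.vx ⟨r, hr'⟩ D
        ((List.length_filterMap_le _ _).trans (by simpa using hS)) (fun _ => True)
      have hD : ∀ i hi, vx i (f i hi) ∈ D := by
        intro i hi
        refine List.mem_filterMap.2 ⟨i, List.mem_finRange i, ?_⟩
        rw [dif_pos hi]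
      refine ⟨fun i _ => if hi : i.1 < r then f i hi else j, ?_⟩
      intro i i' hi hi' hne
      by_cases h : i.1 < r <;> by_cases h' : i'.1 < r
      · simp only [dif_pos h, dif_pos h']
        exact hf i i' h h' hne
      · simp only [dif_pos h, dif_neg h']
        have e : i' = ⟨r, hr'⟩ := Fin.ext (by show i'.1 = r; omega)
        rw [e, hr.symm]
        exact (hj _ (hD i h) rfl).2 trivial
      · simp only [dif_neg h, dif_pos h']
        have e : i = ⟨r, hr'⟩ := Fin.ext (by show i.1 = r; omega)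
        rw [e]
        exact (hj _ (hD i' h') rfl).2 trivial
      · exfalso
        apply hne
        apply Fin.ext
        omega
  obtain ⟨f, hf⟩ := key k (le_refl _)
  exact ⟨fun i => f i i.2, fun i i' hne => hf i i' i.2 i'.2 hne⟩

/-- the values of the nodes -/
def vv1 (T : V1 n k → Prop) : S1 × List (V1 n k) → Prop
  | (S1.g, _) => True
  | (S1.cl, _) => True
  | (S1.n1, x :: _) => ¬ T x
  | (S1.n2, _ :: y :: _) => ¬ T y
  | (S1.v, x :: _) => T x
  | (S1.d2n, _) => True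
  | (S1.d3o, _) => True
  | (S1.d3n, _) => True
  | _ => False

theorem vv1_eval (T : V1 n k → Prop) (hT : ∀ x y, T x → T y → x ≠ y → E1 Adj x y) :
    ((fr1 Adj).C X).IsEval fun e => vv1 T e.1 where
  and := by
    rintro ⟨⟨s, a⟩, hv, hd⟩ hs
    change s = S1.g at hs
    subst hs
    constructor
    · rintro _ ⟨c, hc⟩ hw
      change W1 (S1.g, a) c at hw
      cases hw <;> trivial
    · intro _
      trivial
  or := by
    rintro ⟨⟨s, a⟩, hv, hd⟩ hs
    change s = S1.cl ∨ s = S1.d3o at hs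
    rcases hs with rfl | rfl
    · cases hv with
      | cl x y hc =>
        constructor
        · intro _
          by_cases hx : T x
          · refine ⟨⟨(S1.n2, [x, y]), Vd1.n2 x y hc, hd⟩, W1.c2 x y, ?_⟩
            intro hy
            exact hc.2.2.2 (hT x y hx hy hc.2.2.1)
          · exact ⟨⟨(S1.n1, [x, y]), Vd1.n1 x y hc, hd⟩, W1.c1 x y, hx⟩
        · intro _
          trivial
    · cases hv with
      | d3o x hx =>
        constructor
        · intro _
          exact ⟨⟨(S1.d3n, [x]), Vd1.d3n x hx, hd⟩, W1.o3 x, trivial⟩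
        · intro _
          trivial
  not := by
    rintro ⟨⟨s, a⟩, hv, hd⟩ hs
    change s = S1.n1 ∨ s = S1.n2 ∨ s = S1.d2n ∨ s = S1.d3n at hs
    rcases hs with rfl | rfl | rfl | rfl
    · cases hv with
      | n1 x y hc =>
        constructor
        · rintro h ⟨c, hc⟩ hw
          change W1 (S1.n1, [x, y]) c at hw
          cases hw
          exact h
        · intro h
          refine h ⟨(S1.v, [x]), Vd1.v x hc.1, ?_⟩ (W1.v1 x y)
          intro z hz
          rw [one1 hz]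
          exact hd x List.mem_cons_self
    · cases hv with
      | n2 x y hc =>
        constructor
        · rintro h ⟨c, hc⟩ hw
          change W1 (S1.n2, [x, y]) c at hw
          cases hw
          exact h
        · intro h
          refine h ⟨(S1.v, [y]), Vd1.v y hc.2.1, ?_⟩ (W1.v2 x y)
          intro z hz
          rw [one1 hz]
          exact hd y (List.mem_cons_of_mem _ List.mem_cons_self)
    · cases hv with
      | d2n x hx =>
        constructor
        · rintro h ⟨c, hc⟩ hw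
          change W1 (S1.d2n, [x]) c at hw
          cases hw
          exact id
        · intro _
          trivial
    · cases hv with
      | d3n x hx =>
        constructor
        · rintro h ⟨c, hc⟩ hw
          change W1 (S1.d3n, [x]) c at hw
          cases hw
          exact id
        · intro _
          trivial

theorem c1_sat (hr : Rich1 Adj S0) (hS : k ≤ S0) : ((fr1 Adj).C (D1 k P)).WSat k := by
  obtain ⟨f, hf⟩ := exists_clique hr hS
  refine ⟨_, vv1_eval (fun x => ∃ i, x = vx i (f i)) ?_, ?_, ?_⟩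
  · rintro _ _ ⟨i, rfl⟩ ⟨i', rfl⟩ hne
    have hi : i ≠ i' := by
      rintro rfl
      exact hne rfl
    exact ⟨hi, hf i i' hi⟩
  · intro g hg
    rw [out_rt hg]
    trivial
  · refine Eq.trans ?_ (Nat.card_fin k)
    symm
    have hval : ∀ i : Fin k, ((fr1 Adj).C (D1 k P)).isVar
        ⟨(S1.v, [vx i (f i)]), Vd1.v _ rfl, by intro z hz; rw [one1 hz]; exact i.2⟩ ∧
        vv1 (fun x : V1 n k => ∃ i, x = vx i (f i)) (S1.v, [vx i (f i)]) :=
      fun i => ⟨Or.inl rfl, ⟨i, rfl⟩⟩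
    refine Nat.card_eq_of_bijective (fun i : Fin k =>
      (⟨⟨(S1.v, [vx i (f i)]), Vd1.v _ rfl, by intro z hz; rw [one1 hz]; exact i.2⟩, hval i⟩ :
        {g : (fr1 Adj).U (D1 k P) // ((fr1 Adj).C (D1 k P)).isVar g ∧
          vv1 (fun x : V1 n k => ∃ i, x = vx i (f i)) g.1})) ⟨?_, ?_⟩
    · intro i i' h
      have h3 := congrArg (fun g => g.1.1) h
      change ((S1.v, [vx i (f i)]) : S1 × List (V1 n k)) = (S1.v, [vx i' (f i')]) at h3
      simp only [Prod.mk.injEq, List.cons.injEq, vx.injEq, and_true, true_and] at h3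
      exact h3.1
    · rintro ⟨⟨⟨s, a⟩, hv, hd⟩, hvar, hval⟩
      change s = S1.v ∨ s = S1.d2v ∨ s = S1.d3v at hvar
      rcases hvar with rfl | rfl | rfl
      · cases hv with
        | v x hx =>
          obtain ⟨i, rfl⟩ := hval
          exact ⟨i, rfl⟩
      · exact hval.elim
      · exact hval.elim

theorem c1_unsat (hκ : κ < k) : ¬ ((fr1 Adj).C (D1 κ P)).WSat k := by
  classical
  rintro ⟨val, hval, hout, hcard⟩
  have hroot := hout rt rt_out
  have hall := (hval.and rt rfl).1 hroot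
  let f : V1 n k → ℕ := fun x =>
    match x with
    | vx i _ => i.1
    | dum _ _ => 0
  have hex : ∀ g : {g // ((fr1 Adj).C (D1 κ P)).isVar g ∧ val g},
      ∃ x, g.1.1 = (S1.v, [x]) ∧ kd x = 1 ∧ D1 κ P x := by
    rintro ⟨⟨⟨s, a⟩, hv, hd⟩, hvar, hvl⟩
    change s = S1.v ∨ s = S1.d2v ∨ s = S1.d3v at hvar
    rcases hvar with rfl | rfl | rfl
    · cases hv with
      | v x hx => exact ⟨x, rfl, hx, hd x List.mem_cons_self⟩
    · cases hv with
      | d2v x hx =>
        exfalso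
        have h3 := hall ⟨(S1.d2n, [x]), Vd1.d2n x hx, hd⟩ (W1.g2 x)
        exact (hval.not _ (Or.inr (Or.inr (Or.inl rfl)))).1 h3
          ⟨(S1.d2v, [x]), Vd1.d2v x hx, hd⟩ (W1.n2 x) hvl
    · cases hv with
      | d3v x hx =>
        exfalso
        have h3 := hall ⟨(S1.d3o, [x]), Vd1.d3o x hx, hd⟩ (W1.g3 x)
        obtain ⟨⟨c, hc⟩, hw, hcv⟩ := (hval.or _ (Or.inr rfl)).1 h3
        change W1 (S1.d3o, [x]) c at hw
        cases hw
        exact (hval.not _ (Or.inr (Or.inr (Or.inr rfl)))).1 hcv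
          ⟨(S1.d3v, [x]), Vd1.d3v x hx, hd⟩ (W1.n3 x) hvl
  choose φ hφ1 hφ2 hφ3 using hex
  have hinj : Function.Injective fun g => f (φ g) := by
    intro g g' hgg
    simp only at hgg
    by_contra hne
    have hxy : φ g ≠ φ g' := by
      intro e
      apply hne
      apply Subtype.ext
      apply Subtype.ext
      rw [hφ1, hφ1, e]
    have hc : cf Adj (φ g) (φ g') := by
      refine ⟨hφ2 g, hφ2 g', hxy, ?_⟩
      have h4 := hφ2 g
      have h5 := hφ2 g'
      revert hgg h4 h5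
      generalize φ g = x
      generalize φ g' = y
      intro hgg h4 h5
      cases x with
      | dum s i => cases y <;> simp [E1]
      | vx i j =>
        cases y with
        | dum s i => simp [E1]
        | vx i' j' =>
          have : i = i' := Fin.ext hgg
          subst this
          simp [E1]
    have hdd : ∀ z ∈ [φ g, φ g'], D1 κ P z := by
      intro z hz
      rcases List.mem_cons.1 hz with rfl | hz
      · exact hφ3 g
      · rw [one1 hz]
        exact hφ3 g'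
    have h6 := hall ⟨(S1.cl, [φ g, φ g']), Vd1.cl _ _ hc, hdd⟩ (W1.gc _ _)
    obtain ⟨⟨c, hc'⟩, hw, hcv⟩ := (hval.or _ (Or.inl rfl)).1 h6
    change W1 (S1.cl, [φ g, φ g']) c at hw
    cases hw with
    | c1 x y =>
      have h7 := (hval.not _ (Or.inl rfl)).1 hcv ⟨g.1.1, g.1.2⟩ (by
        show W1 _ g.1.1
        rw [hφ1 g]
        exact W1.v1 _ _)
      exact h7 g.2.2
    | c2 x y =>
      have h7 := (hval.not _ (Or.inr (Or.inl rfl))).1 hcv ⟨g'.1.1, g'.1.2⟩ (by
        show W1 _ g'.1.1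
        rw [hφ1 g']
        exact W1.v2 _ _)
      exact h7 g'.2.2
  have hlt : ∀ g, f (φ g) < κ := by
    intro g
    have h4 := hφ2 g
    have h5 := hφ3 g
    revert h4 h5
    generalize φ g = x
    intro h4 h5
    cases x with
    | dum s i => rw [kd_dum] at h4; cases s <;> simp at h4
    | vx i j => exact h5
  have h8 := Nat.card_le_card_of_injective
    (fun g : {g // ((fr1 Adj).C (D1 κ P)).isVar g ∧ val g} => (⟨f (φ g), hlt g⟩ : Fin κ))
    (by
      intro g g' h
      exact hinj (congrArg Fin.val h))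
  rw [hcard, Nat.card_fin] at h8
  omega

/-- the lists of a given shape -/
abbrev Fib1 (Adj : V1 n k → V1 n k → Prop) (κ : ℕ) (P : Bool → ℕ) (s : S1) : Type :=
  {a : List (V1 n k) // Vd1 Adj (s, a) ∧ ∀ x ∈ a, D1 κ P x}

instance dom1_finite : Finite {x : V1 n k // D1 κ P x} := by
  let f : {x : V1 n k // D1 κ P x} → (Fin k × Fin n) ⊕ (Σ s : Bool, Fin (P s)) := fun x =>
    match x with
    | ⟨vx i j, _⟩ => Sum.inl (i, j)
    | ⟨dum s i, h⟩ => Sum.inr ⟨s, ⟨i, h⟩⟩
  refine Finite.of_injective f ?_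
  rintro ⟨x, hx⟩ ⟨y, hy⟩ hxy
  cases x with
  | dum s i =>
    cases y with
    | dum s' i' =>
      simp only [f, Sum.inr.injEq, Sigma.mk.injEq] at hxy
      obtain ⟨rfl, h2⟩ := hxy
      have h3 : i = i' := congrArg Fin.val (eq_of_heq h2)
      subst h3
      rfl
    | vx i j => simp [f] at hxy
  | vx i j => cases y <;> simp_all [f]

instance fib1_finite (s : S1) : Finite (Fib1 Adj κ P s) := by
  have h1 := (List.finite_length_le {x : V1 n k // D1 κ P x} 2).image
    (List.map Subtype.val)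
  have h2 : {a : List (V1 n k) | Vd1 Adj (s, a) ∧ ∀ x ∈ a, D1 κ P x}.Finite := by
    refine h1.subset ?_
    rintro a ⟨ha, hx⟩
    refine ⟨a.attachWith _ hx, ?_, ?_⟩
    · show (a.attachWith _ hx).length ≤ _
      rw [List.length_attachWith]
      exact (fr1 Adj).len (s, a) ha
    · simp
  exact h2

/-- nodes by shapes -/
def uEquiv1 : (fr1 Adj).U (D1 κ P) ≃ (Σ s : S1, Fib1 Adj κ P s) where
  toFun e := ⟨e.1.1, ⟨e.1.2, e.2⟩⟩
  invFun p := ⟨(p.1, p.2.1), p.2.2⟩
  left_inv _ := rfl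
  right_inv _ := rfl

instance u1_finite : Finite ((fr1 Adj).U (D1 κ P)) :=
  Finite.of_equiv _ uEquiv1.symm

theorem sum_S1 (f : S1 → ℕ) : ∑ s, f s = f S1.g + f S1.cl + f S1.n1 + f S1.n2 + f S1.v +
    f S1.d2n + f S1.d2v + f S1.d3o + f S1.d3n + f S1.d3v := by
  rw [show (Finset.univ : Finset S1) =
    {S1.g, S1.cl, S1.n1, S1.n2, S1.v, S1.d2n, S1.d2v, S1.d3o, S1.d3n, S1.d3v} from rfl]
  rw [Finset.sum_insert (by decide), Finset.sum_insert (by decide),
    Finset.sum_insert (by decide), Finset.sum_insert (by decide),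
    Finset.sum_insert (by decide), Finset.sum_insert (by decide),
    Finset.sum_insert (by decide), Finset.sum_insert (by decide),
    Finset.sum_insert (by decide), Finset.sum_singleton]
  ring

theorem d1_core {x : V1 n k} (h : kd x = 1) : D1 κ P x ↔ D1 κ P' x := by
  cases x with
  | vx i j => exact Iff.rfl
  | dum s i => rw [kd_dum] at h; cases s <;> simp at h

theorem fib1_core (s : S1)
    (hs : s = S1.g ∨ s = S1.cl ∨ s = S1.n1 ∨ s = S1.n2 ∨ s = S1.v) :
    Nat.card (Fib1 Adj κ P s) = Nat.card (Fib1 Adj κ P' s) := by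
  refine Nat.card_congr (Equiv.subtypeEquivRight ?_)
  intro a
  refine and_congr_right fun ha => forall₂_congr fun x hx => ?_
  refine d1_core ?_
  have h2 : ∀ y z : V1 n k, cf Adj y z → x ∈ [y, z] → kd x = 1 := by
    intro y z hc hx
    rcases List.mem_cons.1 hx with rfl | hx
    · exact hc.1
    · rw [one1 hx]
      exact hc.2.1
  rcases hs with rfl | rfl | rfl | rfl | rfl
  · cases ha
    exact absurd hx List.not_mem_nil
  · cases ha with
    | cl y z hc => exact h2 y z hc hx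
  · cases ha with
    | n1 y z hc => exact h2 y z hc hx
  · cases ha with
    | n2 y z hc => exact h2 y z hc hx
  · cases ha with
    | v y hy =>
      rw [one1 hx]
      exact hy

theorem fib1_dum (s : S1) (β : Bool)
    (h : ∀ a : List (V1 n k), Vd1 Adj (s, a) ↔ ∃ x, a = [x] ∧ kd x = cond β 2 0) :
    Nat.card (Fib1 Adj κ P s) = P β := by
  rw [← Nat.card_fin (P β)]
  symm
  refine Nat.card_eq_of_bijective (fun i : Fin (P β) =>
    (⟨[dum β i.1], (h _).2 ⟨_, rfl, kd_dum _ _⟩, by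
      intro x hx
      rw [one1 hx]
      exact i.2⟩ : Fib1 Adj κ P s)) ⟨?_, ?_⟩
  · intro i j hij
    have := congrArg Subtype.val hij
    simpa [Fin.ext_iff] using this
  · rintro ⟨a, ha, hd⟩
    obtain ⟨x, rfl, hx⟩ := (h a).1 ha
    cases x with
    | vx i j => rw [kd_vx] at hx; cases β <;> simp at hx
    | dum s' i =>
      have hs : s' = β := by
        cases s' <;> cases β <;> simp [kd_dum] at hx ⊢
      subst hs
      have hi : i < P s' := hd (dum s' i) List.mem_cons_self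
      exact ⟨⟨i, hi⟩, rfl⟩

theorem card_U1 : Nat.card ((fr1 Adj).U (D1 κ P)) =
    (Nat.card (Fib1 Adj κ (fun _ => 0) S1.g) + Nat.card (Fib1 Adj κ (fun _ => 0) S1.cl) +
      Nat.card (Fib1 Adj κ (fun _ => 0) S1.n1) + Nat.card (Fib1 Adj κ (fun _ => 0) S1.n2) +
      Nat.card (Fib1 Adj κ (fun _ => 0) S1.v)) + 2 * P false + 3 * P true := by
  rw [Nat.card_congr uEquiv1, Nat.card_sigma, sum_S1,
    fib1_core (P := P) (P' := fun _ => 0) S1.g (by decide),
    fib1_core (P := P) (P' := fun _ => 0) S1.cl (by decide),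
    fib1_core (P := P) (P' := fun _ => 0) S1.n1 (by decide),
    fib1_core (P := P) (P' := fun _ => 0) S1.n2 (by decide),
    fib1_core (P := P) (P' := fun _ => 0) S1.v (by decide),
    fib1_dum S1.d2n false, fib1_dum S1.d2v false, fib1_dum S1.d3o true, fib1_dum S1.d3n true,
    fib1_dum S1.d3v true]
  · ring
  · intro a
    constructor
    · intro h; cases h with | d3v x hx => exact ⟨x, rfl, hx⟩
    · rintro ⟨x, rfl, hx⟩; exact Vd1.d3v x hx
  · intro a
    constructor
    · intro h; cases h with | d3n x hx => exact ⟨x, rfl, hx⟩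
    · rintro ⟨x, rfl, hx⟩; exact Vd1.d3n x hx
  · intro a
    constructor
    · intro h; cases h with | d3o x hx => exact ⟨x, rfl, hx⟩
    · rintro ⟨x, rfl, hx⟩; exact Vd1.d3o x hx
  · intro a
    constructor
    · intro h; cases h with | d2v x hx => exact ⟨x, rfl, hx⟩
    · rintro ⟨x, rfl, hx⟩; exact Vd1.d2v x hx
  · intro a
    constructor
    · intro h; cases h with | d2n x hx => exact ⟨x, rfl, hx⟩
    · rintro ⟨x, rfl, hx⟩; exact Vd1.d2n x hx

theorem pads1 (S T : ℕ) (h : 5 * (S + 1) + 2 ≤ T) :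
    ∃ p q, S < p ∧ S < q ∧ 2 * p + 3 * q = T := by
  rcases Nat.even_or_odd (T - 5 * (S + 1)) with ⟨r, hr⟩ | ⟨r, hr⟩
  · exact ⟨S + 1 + r, S + 1, by omega, by omega, by omega⟩
  · exact ⟨S + r, S + 2, by omega, by omega, by omega⟩

/-- two source circuits of the same size -/
theorem exists_pads1 (Adj : V1 n k → V1 n k → Prop) (κ κ' S0 : ℕ) :
    ∃ P P' : Bool → ℕ, (∀ s, S0 < P s) ∧ (∀ s, S0 < P' s) ∧
      Nat.card ((fr1 Adj).U (D1 κ P)) = Nat.card ((fr1 Adj).U (D1 κ' P')) := by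
  set B := Nat.card (Fib1 Adj κ (fun _ => 0) S1.g) + Nat.card (Fib1 Adj κ (fun _ => 0) S1.cl) +
      Nat.card (Fib1 Adj κ (fun _ => 0) S1.n1) + Nat.card (Fib1 Adj κ (fun _ => 0) S1.n2) +
      Nat.card (Fib1 Adj κ (fun _ => 0) S1.v) with hB
  set B' := Nat.card (Fib1 Adj κ' (fun _ => 0) S1.g) +
      Nat.card (Fib1 Adj κ' (fun _ => 0) S1.cl) +
      Nat.card (Fib1 Adj κ' (fun _ => 0) S1.n1) + Nat.card (Fib1 Adj κ' (fun _ => 0) S1.n2) +
      Nat.card (Fib1 Adj κ' (fun _ => 0) S1.v) with hB'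
  obtain ⟨p, q, h1, h2, h3⟩ := pads1 S0 (B' + 5 * (S0 + 1) + 2) (by omega)
  obtain ⟨p', q', h1', h2', h3'⟩ := pads1 S0 (B + 5 * (S0 + 1) + 2) (by omega)
  refine ⟨fun s => cond s q p, fun s => cond s q' p', ?_, ?_, ?_⟩
  · intro s; cases s
    · exact h1
    · exact h2
  · intro s; cases s
    · exact h1'
    · exact h2'
  · rw [card_U1, card_U1]
    simp only [cond_true, cond_false]
    omega

end Cl

end Pool.Agent.WSatChain
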