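import Mathlib
import Pool.Agent.WSatChain.BaseFam
import Pool.Agent.WSatChain.Circuit

/-! The source circuits. -/

namespace Pool.Agent.WSatChain

open WW

/-- the shapes of the nodes -/
inductive SH : Type
  | g | nt | v | d2n | d2v | d3o | d3n | d3v
  deriving DecidableEq

instance : Fintype SH :=
  ⟨{SH.g, SH.nt, SH.v, SH.d2n, SH.d2v, SH.d3o, SH.d3n, SH.d3v}, by
    intro s
    cases s <;> decide⟩

section frame

variable {m n k : ℕ} (Adj : WW m n k → WW m n k → Prop) (b : Bool)

/-- the level of a list -/
def lvl : List (WW m n k) → ℕ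
  | [] => 0
  | x :: _ => lev x

/-- `x` is one level below the head of the list -/
def link : List (WW m n k) → WW m n k → Prop
  | [], x => lev x = 1
  | y :: _, x => EE Adj y x

/-- the part of the list that is remembered -/
def trim (a : List (WW m n k)) : List (WW m n k) := if b then a else []

/-- valid lists for gates -/
def vg : List (WW m n k) → Prop
  | [] => True
  | x :: a => 1 ≤ lev x ∧ lev x ≤ m + 1 ∧ (b = true → vg a ∧ link Adj a x) ∧ (b = false → a = [])

/-- valid nodes -/
inductive Vd : SH × List (WW m n k) → Prop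
  | g (a : List (WW m n k)) : vg Adj b a → Vd (SH.g, a)
  | nt (x : WW m n k) (a : List (WW m n k)) : b = true → vg Adj b a → link Adj a x →
      lev x = m + 2 → Even (m + 1) → Vd (SH.nt, x :: a)
  | v (x : WW m n k) : lev x = m + 2 → Vd (SH.v, [x])
  | d2n (x : WW m n k) : lev x = 0 → Vd (SH.d2n, [x])
  | d2v (x : WW m n k) : lev x = 0 → Vd (SH.d2v, [x])
  | d3o (x : WW m n k) : lev x = m + 3 → Vd (SH.d3o, [x])
  | d3n (x : WW m n k) : lev x = m + 3 → Vd (SH.d3n, [x])
  | d3v (x : WW m n k) : lev x = m + 3 → Vd (SH.d3v, [x])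

/-- wires -/
inductive Wr : SH × List (WW m n k) → SH × List (WW m n k) → Prop
  | gg (a : List (WW m n k)) (x : WW m n k) : link Adj a x → lev x ≤ m + 1 →
      Wr (SH.g, a) (SH.g, x :: trim b a)
  | gn (a : List (WW m n k)) (x : WW m n k) : link Adj a x → lev x = m + 2 → Even (m + 1) →
      Wr (SH.g, a) (SH.nt, x :: a)
  | gv (a : List (WW m n k)) (x : WW m n k) : link Adj a x → lev x = m + 2 → Odd (m + 1) →
      Wr (SH.g, a) (SH.v, [x])
  | nv (a : List (WW m n k)) (x : WW m n k) : Wr (SH.nt, x :: a) (SH.v, [x])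
  | g2 (x : WW m n k) : Wr (SH.g, []) (SH.d2n, [x])
  | n2 (x : WW m n k) : Wr (SH.d2n, [x]) (SH.d2v, [x])
  | g3 (x : WW m n k) : Wr (SH.g, []) (SH.d3o, [x])
  | o3 (x : WW m n k) : Wr (SH.d3o, [x]) (SH.d3n, [x])
  | n3 (x : WW m n k) : Wr (SH.d3n, [x]) (SH.d3v, [x])

/-- the circuit structure -/
def srcCir : Circ (SH × List (WW m n k)) where
  isVar e := e.1 = SH.v ∨ e.1 = SH.d2v ∨ e.1 = SH.d3v
  isAnd e := e.1 = SH.g ∧ Even (lvl e.2)
  isOr e := (e.1 = SH.g ∧ Odd (lvl e.2)) ∨ e.1 = SH.d3o
  isNot e := e.1 = SH.nt ∨ e.1 = SH.d2n ∨ e.1 = SH.d3n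
  isOut e := e.1 = SH.g ∧ e.2 = []
  wire := Wr Adj b

variable {Adj b}

theorem link_lev {a : List (WW m n k)} {x : WW m n k} (h : link Adj a x) :
    lev x = lvl a + 1 := by
  cases a with
  | nil => exact h
  | cons y a => exact (EE_lev Adj h).1

theorem vg_lvl {a : List (WW m n k)} (h : vg Adj b a) : lvl a ≤ m + 1 := by
  cases a with
  | nil => simp [lvl]
  | cons y a => exact h.2.1

theorem vg_length (hb : b = true) {a : List (WW m n k)} (h : vg Adj b a) :
    a.length = lvl a := by
  induction a with
  | nil => rfl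
  | cons y a ih =>
    obtain ⟨_, _, h3, _⟩ := h
    obtain ⟨h3, h4⟩ := h3 hb
    rw [List.length_cons, ih h3]
    exact (link_lev h4).symm

theorem good_lev {l : List (WW m n k × WW m n k)} (hl : Good (GG Adj) l) {x y : WW m n k}
    (h : (x, y) ∈ l) : lev x = lev y := (hl _ h _ h).1

theorem good_eq {l : List (WW m n k × WW m n k)} (hl : Good (GG Adj) l) {x y y' : WW m n k}
    (h : (x, y) ∈ l) (h' : (x, y') ∈ l) : y = y' := (hl _ h _ h').2.2.1.1 rfl

theorem good_lvl {l : List (WW m n k × WW m n k)} (hl : Good (GG Adj) l)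
    {a a' : List (WW m n k)} (h : List.Forall₂ (fun x y => (x, y) ∈ l) a a') :
    lvl a = lvl a' := by
  cases h with
  | nil => rfl
  | cons h _ => exact good_lev hl h

theorem good_link {l : List (WW m n k × WW m n k)} (hl : Good (GG Adj) l)
    {a a' : List (WW m n k)} (h : List.Forall₂ (fun x y => (x, y) ∈ l) a a') {x y : WW m n k}
    (hxy : (x, y) ∈ l) (hx : link Adj a x) : link Adj a' y := by
  cases h with
  | nil => exact (good_lev hl hxy).symm.trans hx
  | cons h _ => exact (hl _ h _ hxy).2.2.2.1.1 hx

theorem good_func {l : List (WW m n k × WW m n k)} (hl : Good (GG Adj) l)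
    {a a1 a2 : List (WW m n k)} (h1 : List.Forall₂ (fun x y => (x, y) ∈ l) a a1)
    (h2 : List.Forall₂ (fun x y => (x, y) ∈ l) a a2) : a1 = a2 := by
  induction h1 generalizing a2 with
  | nil => cases h2; rfl
  | cons hxy _ ih =>
    cases h2 with
    | cons hxy' h2' => rw [good_eq hl hxy hxy', ih h2']

theorem good_trim {l : List (WW m n k × WW m n k)}
    {a a' : List (WW m n k)} (h : List.Forall₂ (fun x y => (x, y) ∈ l) a a') :
    List.Forall₂ (fun x y => (x, y) ∈ l) (trim b a) (trim b a') := by
  unfold trim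
  cases b
  · exact List.Forall₂.nil
  · exact h

theorem good_vg {l : List (WW m n k × WW m n k)} (hl : Good (GG Adj) l)
    {a a' : List (WW m n k)} (h : List.Forall₂ (fun x y => (x, y) ∈ l) a a')
    (hv : vg Adj b a) : vg Adj b a' := by
  induction h with
  | nil => trivial
  | cons hxy hr ih =>
    obtain ⟨h1, h2, h3, h4⟩ := hv
    have hlev := good_lev hl hxy
    refine ⟨by omega, by omega, ?_, ?_⟩
    · intro hb
      obtain ⟨h5, h6⟩ := h3 hb
      exact ⟨ih h5, good_link hl hr hxy h6⟩
    · intro hb
      rw [h4 hb] at hr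
      cases hr
      rfl

theorem good_vd {l : List (WW m n k × WW m n k)} (hl : Good (GG Adj) l)
    {e e' : SH × List (WW m n k)} (h : Cov l e e') (hv : Vd Adj b e) : Vd Adj b e' := by
  obtain ⟨s', a'⟩ := e'
  obtain ⟨hs, ha⟩ := h
  cases hv with
  | g a hv =>
    simp only at hs ha
    subst hs
    exact Vd.g _ (good_vg hl ha hv)
  | nt x a hb hv hlink hx hev =>
    simp only at hs ha
    subst hs
    cases ha with
    | cons hxy hr =>
      exact Vd.nt _ _ hb (good_vg hl hr hv) (good_link hl hr hxy hlink)
        ((good_lev hl hxy).symm.trans hx) hev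
  | v x hx =>
    simp only at hs ha
    subst hs
    cases ha with
    | cons hxy hr =>
      cases hr
      exact Vd.v _ ((good_lev hl hxy).symm.trans hx)
  | d2n x hx =>
    simp only at hs ha
    subst hs
    cases ha with
    | cons hxy hr =>
      cases hr
      exact Vd.d2n _ ((good_lev hl hxy).symm.trans hx)
  | d2v x hx =>
    simp only at hs ha
    subst hs
    cases ha with
    | cons hxy hr =>
      cases hr
      exact Vd.d2v _ ((good_lev hl hxy).symm.trans hx)
  | d3o x hx =>
    simp only at hs ha
    subst hs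
    cases ha with
    | cons hxy hr =>
      cases hr
      exact Vd.d3o _ ((good_lev hl hxy).symm.trans hx)
  | d3n x hx =>
    simp only at hs ha
    subst hs
    cases ha with
    | cons hxy hr =>
      cases hr
      exact Vd.d3n _ ((good_lev hl hxy).symm.trans hx)
  | d3v x hx =>
    simp only at hs ha
    subst hs
    cases ha with
    | cons hxy hr =>
      cases hr
      exact Vd.d3v _ ((good_lev hl hxy).symm.trans hx)

theorem good_wr {l : List (WW m n k × WW m n k)} (hl : Good (GG Adj) l)
    {e e' h h' : SH × List (WW m n k)} (h1 : Cov l e e') (h2 : Cov l h h')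
    (hw : Wr Adj b e h) : Wr Adj b e' h' := by
  obtain ⟨s', a'⟩ := e'
  obtain ⟨t', c'⟩ := h'
  obtain ⟨hs, ha⟩ := h1
  obtain ⟨ht, hc⟩ := h2
  cases hw with
  | gg a x hlink hx =>
    simp only at hs ha ht hc
    subst hs; subst ht
    cases hc with
    | cons hxy hr =>
      rw [good_func hl hr (good_trim ha)]
      exact Wr.gg _ _ (good_link hl ha hxy hlink) (by rw [← good_lev hl hxy]; exact hx)
  | gn a x hlink hx hev =>
    simp only at hs ha ht hc
    subst hs; subst ht
    cases hc with
    | cons hxy hr =>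
      rw [good_func hl hr ha]
      exact Wr.gn _ _ (good_link hl ha hxy hlink) (by rw [← good_lev hl hxy]; exact hx) hev
  | gv a x hlink hx hev =>
    simp only at hs ha ht hc
    subst hs; subst ht
    cases hc with
    | cons hxy hr =>
      cases hr
      exact Wr.gv _ _ (good_link hl ha hxy hlink) (by rw [← good_lev hl hxy]; exact hx) hev
  | nv a x =>
    simp only at hs ha ht hc
    subst hs; subst ht
    cases hc with
    | cons hxy hr =>
      cases hr
      cases ha with
      | cons hxy' hr' =>
        rw [good_eq hl hxy hxy']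
        exact Wr.nv _ _
  | g2 x =>
    simp only at hs ha ht hc
    subst hs; subst ht
    cases ha
    cases hc with
    | cons hxy hr =>
      cases hr
      exact Wr.g2 _
  | g3 x =>
    simp only at hs ha ht hc
    subst hs; subst ht
    cases ha
    cases hc with
    | cons hxy hr =>
      cases hr
      exact Wr.g3 _
  | n2 x =>
    simp only at hs ha ht hc
    subst hs; subst ht
    cases hc with
    | cons hxy hr =>
      cases hr
      cases ha with
      | cons hxy' hr' =>
        cases hr'
        rw [good_eq hl hxy hxy']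
        exact Wr.n2 _
  | o3 x =>
    simp only at hs ha ht hc
    subst hs; subst ht
    cases hc with
    | cons hxy hr =>
      cases hr
      cases ha with
      | cons hxy' hr' =>
        cases hr'
        rw [good_eq hl hxy hxy']
        exact Wr.o3 _
  | n3 x =>
    simp only at hs ha ht hc
    subst hs; subst ht
    cases hc with
    | cons hxy hr =>
      cases hr
      cases ha with
      | cons hxy' hr' =>
        cases hr'
        rw [good_eq hl hxy hxy']
        exact Wr.n3 _

theorem vd_length {e : SH × List (WW m n k)} (h : Vd Adj b e) :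
    e.2.length ≤ cond b (m + 2) 1 := by
  have hL : 1 ≤ cond b (m + 2) 1 := by cases b <;> simp
  cases h with
  | g a hv =>
    cases b with
    | true =>
      have h1 := vg_length rfl hv
      have h2 := vg_lvl hv
      simp only [cond_true]
      omega
    | false =>
      cases a with
      | nil => simp
      | cons y a =>
        have := hv.2.2.2 rfl
        subst this
        simp
  | nt x a hb hv hlink hx hev =>
    subst hb
    have h1 := vg_length rfl hv
    have h2 := vg_lvl hv
    simp only [cond_true, List.length_cons]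
    omega
  | v x hx => simpa using hL
  | d2n x hx => simpa using hL
  | d2v x hx => simpa using hL
  | d3o x hx => simpa using hL
  | d3n x hx => simpa using hL
  | d3v x hx => simpa using hL

variable (Adj b)

/-- the frame of the source circuits -/
def srcFrame : Frame where
  W := WW m n k
  Sh := SH
  L := cond b (m + 2) 1
  G := GG Adj
  valid := Vd Adj b
  cir := srcCir Adj b
  G_inj := GG_inj Adj
  G_swap := GG_swap Adj
  G_refl := GG_refl Adj
  len _ := vd_length
  p_valid _ _ _ hl h hv := good_vd hl h hv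
  p_var := by
    rintro l ⟨s, a⟩ ⟨s', a'⟩ hl ⟨hs, ha⟩ h
    simp only at hs
    subst hs
    exact h
  p_and := by
    rintro l ⟨s, a⟩ ⟨s', a'⟩ hl ⟨hs, ha⟩ h
    simp only at hs
    subst hs
    refine ⟨h.1, ?_⟩
    have := h.2
    rw [good_lvl hl ha] at this
    exact this
  p_or := by
    rintro l ⟨s, a⟩ ⟨s', a'⟩ hl ⟨hs, ha⟩ h
    simp only at hs
    subst hs
    rcases h with h | h
    · refine Or.inl ⟨h.1, ?_⟩
      have := h.2
      rw [good_lvl hl ha] at this
      exact this
    · exact Or.inr h
  p_not := by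
    rintro l ⟨s, a⟩ ⟨s', a'⟩ hl ⟨hs, ha⟩ h
    simp only at hs
    subst hs
    exact h
  p_out := by
    rintro l ⟨s, a⟩ ⟨s', a'⟩ hl ⟨hs, ha⟩ ⟨h1, h2⟩
    simp only at hs ha h1 h2
    subst hs
    subst h2
    cases ha
    exact ⟨h1, rfl⟩
  p_wire _ _ _ _ _ hl h1 h2 hw := good_wr hl h1 h2 hw

end frame

end Pool.Agent.WSatChain
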