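import Mathlib
import Pool.Agent.WSatChain.Source

/-! Properties of the source circuits. -/

namespace Pool.Agent.WSatChain

open WW

section circuit

variable {m n k : ℕ} {Adj : WW m n k → WW m n k → Prop} {b : Bool} {κ : Option (Lab n k)}
  {P : Bool → ℕ} {S0 : ℕ} {X : WW m n k → Prop}

/-- the rank of a node -/
def rk : SH × List (WW m n k) → ℕ
  | (SH.g, a) => lvl a
  | (SH.nt, _) => m + 2
  | (SH.v, _) => m + 3
  | (SH.d2n, _) => 1
  | (SH.d2v, _) => 2
  | (SH.d3o, _) => 1
  | (SH.d3n, _) => 2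
  | (SH.d3v, _) => 3

theorem wr_rk {e h : SH × List (WW m n k)} (hw : Wr Adj b e h) : rk e < rk h := by
  cases hw with
  | gg a x hlink hx =>
    have := link_lev hlink
    show lvl a < lev x
    omega
  | gn a x hlink hx _ =>
    have := link_lev hlink
    show lvl a < m + 2
    omega
  | gv a x hlink hx _ =>
    have := link_lev hlink
    show lvl a < m + 3
    omega
  | nv a x => show m + 2 < m + 3; omega
  | g2 x => show 0 < 1; omega
  | n2 x => show 1 < 2; omega
  | g3 x => show 0 < 1; omega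
  | o3 x => show 1 < 2; omega
  | n3 x => show 2 < 3; omega

theorem src_acyclic (g : (srcFrame Adj b).U X) :
    ¬ Relation.TransGen ((srcFrame Adj b).C X).wire g g := by
  have key : ∀ g h : (srcFrame Adj b).U X,
      Relation.TransGen ((srcFrame Adj b).C X).wire g h → rk g.1 < rk h.1 := by
    intro g h hgh
    induction hgh with
    | single h => exact wr_rk h
    | tail _ h ih => exact ih.trans (wr_rk h)
  intro h
  exact lt_irrefl _ (key g g h)

/-- the output -/
def root : (srcFrame Adj b).U X := ⟨(SH.g, []), Vd.g _ trivial, by intro x hx; simp at hx⟩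

theorem root_out : ((srcFrame Adj b).C X).isOut root := ⟨rfl, rfl⟩

theorem out_root {g : (srcFrame Adj b).U X} (h : ((srcFrame Adj b).C X).isOut g) : g = root := by
  obtain ⟨⟨s, a⟩, hv, hd⟩ := g
  obtain ⟨h1, h2⟩ := h
  simp only at h1 h2
  subst h1
  subst h2
  rfl

theorem kind_aux (s : SH) (a : List (WW m n k)) :
    ((s = SH.v ∨ s = SH.d2v ∨ s = SH.d3v) ∧ ¬ (s = SH.g ∧ Even (lvl a)) ∧
        ¬ ((s = SH.g ∧ Odd (lvl a)) ∨ s = SH.d3o) ∧ ¬ (s = SH.nt ∨ s = SH.d2n ∨ s = SH.d3n)) ∨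
      (¬ (s = SH.v ∨ s = SH.d2v ∨ s = SH.d3v) ∧ (s = SH.g ∧ Even (lvl a)) ∧
        ¬ ((s = SH.g ∧ Odd (lvl a)) ∨ s = SH.d3o) ∧ ¬ (s = SH.nt ∨ s = SH.d2n ∨ s = SH.d3n)) ∨
      (¬ (s = SH.v ∨ s = SH.d2v ∨ s = SH.d3v) ∧ ¬ (s = SH.g ∧ Even (lvl a)) ∧
        ((s = SH.g ∧ Odd (lvl a)) ∨ s = SH.d3o) ∧ ¬ (s = SH.nt ∨ s = SH.d2n ∨ s = SH.d3n)) ∨
      (¬ (s = SH.v ∨ s = SH.d2v ∨ s = SH.d3v) ∧ ¬ (s = SH.g ∧ Even (lvl a)) ∧
        ¬ ((s = SH.g ∧ Odd (lvl a)) ∨ s = SH.d3o) ∧ (s = SH.nt ∨ s = SH.d2n ∨ s = SH.d3n)) := by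
  rcases Nat.even_or_odd (lvl a) with he | ho
  · have h2 : ¬ Odd (lvl a) := Nat.not_odd_iff_even.2 he
    cases s <;> simp [he, h2]
  · have h2 : ¬ Even (lvl a) := Nat.not_even_iff_odd.2 ho
    cases s <;> simp [ho, h2]

theorem mem_one {x y : WW m n k} (h : y ∈ [x]) : y = x := List.mem_singleton.1 h

theorem src_isCircuit : ((srcFrame Adj b).C X).IsCircuit where
  kind := by
    rintro ⟨⟨s, a⟩, hv, hd⟩
    exact kind_aux s a
  out := ⟨root, root_out, fun g hg => out_root hg⟩
  var_in := by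
    rintro ⟨⟨s, a⟩, hv, hd⟩ ⟨h, hh⟩ hvar hw
    change Wr Adj b (s, a) h at hw
    change s = SH.v ∨ s = SH.d2v ∨ s = SH.d3v at hvar
    rcases hvar with rfl | rfl | rfl <;> cases hw
  not_in := by
    rintro ⟨⟨s, a⟩, hv, hd⟩ hnot
    change s = SH.nt ∨ s = SH.d2n ∨ s = SH.d3n at hnot
    rcases hnot with rfl | rfl | rfl
    · cases hv with
      | nt x a hb hvg hlink hx hev =>
        refine ⟨⟨(SH.v, [x]), Vd.v x hx, ?_⟩, Wr.nv a x, ?_⟩
        · intro y hy
          rw [mem_one hy]
          exact hd x (List.mem_cons_self)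
        · rintro ⟨h, hh⟩ hw
          change Wr Adj b (SH.nt, x :: a) h at hw
          cases hw
          rfl
    · cases hv with
      | d2n x hx =>
        refine ⟨⟨(SH.d2v, [x]), Vd.d2v x hx, hd⟩, Wr.n2 x, ?_⟩
        rintro ⟨h, hh⟩ hw
        change Wr Adj b (SH.d2n, [x]) h at hw
        cases hw
        rfl
    · cases hv with
      | d3n x hx =>
        refine ⟨⟨(SH.d3v, [x]), Vd.d3v x hx, hd⟩, Wr.n3 x, ?_⟩
        rintro ⟨h, hh⟩ hw
        change Wr Adj b (SH.d3n, [x]) h at hw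
        cases hw
        rfl
  acyclic := src_acyclic

theorem parent_exists (hr : RichAdj Adj S0) (hS : k + 2 ≤ S0) {y : WW m n k}
    (hy : 2 ≤ lev y) (hy' : lev y ≤ m + 2) : ∃ x, Dom Adj κ P x ∧ EE Adj x y := by
  have hk := hr.two
  have hκ : κ.toList.length ≤ 1 := by cases κ <;> simp
  cases y with
  | vr v =>
    obtain ⟨i, _, hA⟩ := hr.leaf (vr v :: (κ.toList.flatMap fun q => q.1.toList.map vr)) (by
      rw [List.length_cons]
      cases κ with
      | none => simp only [Option.toList_none, List.flatMap_nil, List.length_nil]; omega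
      | some q =>
        simp only [Option.toList_some, List.flatMap_cons, List.flatMap_nil, List.append_nil,
          List.length_map, Finset.length_toList, q.2]
        omega) (fun _ => True)
    refine ⟨leaf i, ?_, (hA (vr v) (by simp) (by simp [core])).2 trivial⟩
    intro _ q hq
    have hne : q.1.Nonempty := by
      rw [← Finset.card_pos, q.2]
      omega
    obtain ⟨w, hw⟩ := hne
    refine ⟨w, hw, (hA (vr w) ?_ (by simp [core])).2 trivial⟩
    refine List.mem_cons_of_mem _ (List.mem_flatMap.2 ⟨q, by simpa using hq, ?_⟩)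
    exact List.mem_map.2 ⟨w, by simpa using hw, rfl⟩
  | leaf i =>
    rw [lev_leaf] at hy
    obtain ⟨v, _, hv⟩ := hr.vr [leaf i] (by simp only [List.length_singleton]; omega)
      (fun _ => True)
    obtain ⟨q, hq1, hq2⟩ := fresh_label hr κ.toList (by omega) v
    obtain ⟨i', _, hi'⟩ := hr.gate ⟨m - 1, by omega⟩ q [leaf i]
      (by simp only [List.length_singleton]; omega) (fun _ => True)
    refine ⟨gate ⟨m - 1, by omega⟩ q i', ?_, ?_⟩
    · intro _ hκq
      apply hq2
      rw [hκq]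
      simp
    · refine ⟨by simp only; omega, ⟨v, hq1, ?_⟩, (hi' _ (by simp) (by simp [core])).2 trivial⟩
      rw [hr.symm]
      exact (hv _ (by simp) (by simp [core])).2 trivial
  | gate j q i =>
    rw [lev_gate] at hy
    obtain ⟨v, _, _⟩ := hr.vr [] (by simp) (fun _ => True)
    obtain ⟨q', _, hq2⟩ := fresh_label hr (q :: κ.toList)
      (by rw [List.length_cons]; omega) v
    obtain ⟨i', _, hi'⟩ := hr.gate ⟨j.1 - 1, by omega⟩ q' [gate j q i]
      (by simp only [List.length_singleton]; omega) (fun _ => True)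
    refine ⟨gate ⟨j.1 - 1, by omega⟩ q' i', ?_, ?_⟩
    · intro _ hκq
      apply hq2
      rw [hκq]
      simp
    · refine ⟨by simp only; omega, ?_, (hi' _ (by simp) (by simp [core])).2 trivial⟩
      rintro rfl
      apply hq2
      simp
  | dum s i =>
    cases s
    · rw [lev_dumf] at hy; omega
    · rw [lev_dumt] at hy'; omega

theorem path_exists (hr : RichAdj Adj S0) (hS : k + 2 ≤ S0) :
    ∀ (r : ℕ) (y : WW m n k), lev y = r + 1 → r + 1 ≤ m + 2 →
      ∃ a : List (WW m n k), vg Adj true a ∧ link Adj a y ∧ ∀ x ∈ a, Dom Adj κ P x := by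
  intro r
  induction r with
  | zero => intro y hy _; exact ⟨[], trivial, hy, by simp⟩
  | succ r ih =>
    intro y hy hr'
    obtain ⟨x, hx, hxy⟩ := parent_exists (κ := κ) (P := P) hr hS (y := y) (by omega) (by omega)
    have h1 := EE_lev Adj hxy
    obtain ⟨a, ha1, ha2, ha3⟩ := ih x (by omega) (by omega)
    refine ⟨x :: a, ⟨by omega, by omega, fun _ => ⟨ha1, ha2⟩, fun h => by simp at h⟩, hxy, ?_⟩
    intro z hz
    rcases List.mem_cons.1 hz with rfl | hz
    · exact hx
    · exact ha3 z hz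

theorem src_isFormula (hr : RichAdj Adj S0) (hS : k + 2 ≤ S0) :
    ((srcFrame Adj true).C (Dom Adj κ P)).IsFormula where
  toIsCircuit := src_isCircuit
  used := by
    rintro ⟨⟨s, a⟩, hv, hd⟩
    cases hv with
    | g a hvg =>
      cases a with
      | nil => exact Or.inl ⟨rfl, rfl⟩
      | cons x a =>
        obtain ⟨h1, h2, h3, _⟩ := hvg
        obtain ⟨h3, h4⟩ := h3 rfl
        exact Or.inr ⟨⟨(SH.g, a), Vd.g _ h3, fun y hy => hd y (List.mem_cons_of_mem _ hy)⟩,
          Wr.gg a x h4 h2⟩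
    | nt x a hb hvg hlink hx hev =>
      exact Or.inr ⟨⟨(SH.g, a), Vd.g _ hvg, fun y hy => hd y (List.mem_cons_of_mem _ hy)⟩,
        Wr.gn a x hlink hx hev⟩
    | v x hx =>
      obtain ⟨a, ha1, ha2, ha3⟩ := path_exists (κ := κ) (P := P) hr hS (m + 1) x hx (by omega)
      rcases Nat.even_or_odd (m + 1) with he | ho
      · refine Or.inr ⟨⟨(SH.nt, x :: a), Vd.nt x a rfl ha1 ha2 hx he, ?_⟩, Wr.nv a x⟩
        intro y hy
        rcases List.mem_cons.1 hy with rfl | hy
        · exact hd y List.mem_cons_self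
        · exact ha3 y hy
      · exact Or.inr ⟨⟨(SH.g, a), Vd.g _ ha1, ha3⟩, Wr.gv a x ha2 hx ho⟩
    | d2n x hx => exact Or.inr ⟨root, Wr.g2 x⟩
    | d2v x hx => exact Or.inr ⟨⟨(SH.d2n, [x]), Vd.d2n x hx, hd⟩, Wr.n2 x⟩
    | d3o x hx => exact Or.inr ⟨root, Wr.g3 x⟩
    | d3n x hx => exact Or.inr ⟨⟨(SH.d3o, [x]), Vd.d3o x hx, hd⟩, Wr.o3 x⟩
    | d3v x hx => exact Or.inr ⟨⟨(SH.d3n, [x]), Vd.d3n x hx, hd⟩, Wr.n3 x⟩
  once := by
    rintro ⟨g, hg⟩ ⟨p, hp⟩ ⟨q, hq⟩ hvar hw1 hw2
    change Wr Adj true p g at hw1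
    change Wr Adj true q g at hw2
    change ¬ (g.1 = SH.v ∨ g.1 = SH.d2v ∨ g.1 = SH.d3v) at hvar
    apply Subtype.ext
    show p = q
    cases hw1 with
    | gg a x _ _ =>
      generalize hgen : x :: trim true a = z at hw2
      cases hw2 with
      | gg a' x' _ _ =>
        simp only [trim, if_true, List.cons.injEq] at hgen
        rw [hgen.2]
    | gn a x _ _ _ => cases hw2; rfl
    | gv a x _ _ _ => exact absurd (Or.inl rfl) hvar
    | nv a x => exact absurd (Or.inl rfl) hvar
    | g2 x => cases hw2; rfl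
    | n2 x => exact absurd (Or.inr (Or.inl rfl)) hvar
    | g3 x => cases hw2; rfl
    | o3 x => cases hw2; rfl
    | n3 x => exact absurd (Or.inr (Or.inr rfl)) hvar

theorem lit_level {U : Type} {C : Circ U} {d : ℕ} (hd : 1 ≤ d) {g : U} (h : C.IsLit g) :
    ∀ (t : ℕ) (β : Bool), C.InLevel d β t g := by
  intro t
  induction t with
  | zero => intro β; exact Or.inl ⟨hd, h⟩
  | succ t ih => intro β; exact Or.inl (ih _)

theorem src_lit {e : (srcFrame Adj b).U X} (h : e.1.1 ≠ SH.g) (h' : e.1.1 ≠ SH.d3o) :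
    ((srcFrame Adj b).C X).IsLit e := by
  obtain ⟨⟨s, a⟩, hv, hd⟩ := e
  cases s with
  | g => exact absurd rfl h
  | d3o => exact absurd rfl h'
  | v => exact Or.inl (Or.inl rfl)
  | d2v => exact Or.inl (Or.inr (Or.inl rfl))
  | d3v => exact Or.inl (Or.inr (Or.inr rfl))
  | nt =>
    refine Or.inr ⟨Or.inl rfl, ?_⟩
    rintro ⟨h, hh⟩ hw
    change Wr Adj b _ h at hw
    cases hw
    exact Or.inl rfl
  | d2n =>
    refine Or.inr ⟨Or.inr (Or.inl rfl), ?_⟩
    rintro ⟨h, hh⟩ hw
    change Wr Adj b _ h at hw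
    cases hw
    exact Or.inr (Or.inl rfl)
  | d3n =>
    refine Or.inr ⟨Or.inr (Or.inr rfl), ?_⟩
    rintro ⟨h, hh⟩ hw
    change Wr Adj b _ h at hw
    cases hw
    exact Or.inr (Or.inr rfl)

theorem src_level : ∀ (r : ℕ) (e : (srcFrame Adj b).U X), e.1.1 = SH.g →
    lvl e.1.2 + r = m + 1 →
    ((srcFrame Adj b).C X).InLevel 1 (decide (Even (lvl e.1.2))) (r + 1) e := by
  intro r
  induction r with
  | zero =>
    rintro ⟨⟨s, a⟩, hv, hd⟩ hs hl
    simp only at hs hl ⊢
    subst hs
    refine Or.inr ⟨?_, ?_⟩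
    · rcases Nat.even_or_odd (lvl a) with he | ho
      · simp only [he, decide_true]
        exact ⟨rfl, he⟩
      · simp only [Nat.not_even_iff_odd.2 ho, decide_false]
        exact Or.inl ⟨rfl, ho⟩
    · rintro ⟨h, hh⟩ hw
      change Wr Adj b _ h at hw
      refine Or.inl ⟨le_refl _, ?_⟩
      apply src_lit
      · rintro h0
        cases hw with
        | gg a x hlink hx =>
          have := link_lev hlink
          omega
        | _ => simp at h0
      · rintro h0
        cases hw with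
        | g3 x => simp [lvl] at hl
        | _ => simp at h0
  | succ r ih =>
    rintro ⟨⟨s, a⟩, hv, hd⟩ hs hl
    simp only at hs hl ⊢
    subst hs
    refine Or.inr ⟨?_, ?_⟩
    · rcases Nat.even_or_odd (lvl a) with he | ho
      · simp only [he, decide_true]
        exact ⟨rfl, he⟩
      · simp only [Nat.not_even_iff_odd.2 ho, decide_false]
        exact Or.inl ⟨rfl, ho⟩
    · rintro ⟨h, hh⟩ hw
      change Wr Adj b _ h at hw
      cases hw with
      | gg a x hlink hx =>
        have hlev := link_lev hlink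
        have h1 := ih ⟨(SH.g, x :: trim b a), hh⟩ rfl (by show lev x + r = m + 1; omega)
        have h2 : (decide (Even (lvl ((⟨(SH.g, x :: trim b a), hh⟩ :
            (srcFrame Adj b).U X).1.2 : List (WW m n k))))) = !decide (Even (lvl a)) := by
          show decide (Even (lev x)) = _
          rw [hlev]
          by_cases he : Even (lvl a)
          · simp [he, Nat.even_add_one]
          · simp [he, Nat.even_add_one]
        rw [h2] at h1
        exact h1
      | g3 x =>
        have : (!decide (Even (lvl ([] : List (WW m n k))))) = false := by simp [lvl]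
        rw [this]
        refine Or.inr ⟨Or.inr rfl, ?_⟩
        rintro ⟨h, hh⟩ hw
        change Wr Adj b _ h at hw
        cases hw
        exact lit_level (le_refl _) (src_lit (show SH.d3n ≠ SH.g by decide)
          (show SH.d3n ≠ SH.d3o by decide)) _ _
      | gn a x _ _ _ => exact lit_level (le_refl _) (src_lit (show SH.nt ≠ SH.g by decide)
          (show SH.nt ≠ SH.d3o by decide)) _ _
      | gv a x _ _ _ => exact lit_level (le_refl _) (src_lit (show SH.v ≠ SH.g by decide)
          (show SH.v ≠ SH.d3o by decide)) _ _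
      | g2 x => exact lit_level (le_refl _) (src_lit (show SH.d2n ≠ SH.g by decide)
          (show SH.d2n ≠ SH.d3o by decide)) _ _

theorem src_gamma (hr : RichAdj Adj S0) (hS : k + 2 ≤ S0) :
    GAMMA (m + 2) 1 _ ((srcFrame Adj true).C (Dom Adj κ P)) := by
  refine ⟨src_isFormula hr hS, ?_⟩
  intro g hg
  rw [out_root hg]
  have := src_level (Adj := Adj) (b := true) (X := Dom Adj κ P) (m + 1) root rfl
    (by show 0 + (m + 1) = m + 1; omega)
  simpa [lvl, root] using this

end circuit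

end Pool.Agent.WSatChain
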