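import Mathlib
import Pool.Agent.WSatChain.Source2

/-! Weighted satisfiability of the source circuits. -/

namespace Pool.Agent.WSatChain

open WW

set_option linter.unusedSimpArgs false

section sat

variable {m n k : ℕ} {Adj : WW m n k → WW m n k → Prop} {b : Bool} {κ : Option (Lab n k)}
  {P : Bool → ℕ} {S0 : ℕ}

variable (Adj) in
/-- the values of the elements under the assignment given by `K` -/
def gval (K : Lab n k) : WW m n k → Prop
  | vr v => if Odd (m + 1) then v ∈ K.1 else v ∉ K.1
  | leaf i => if Odd (m + 1) then hit Adj (leaf i) K else ¬ hit Adj (leaf i) K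
  | gate j q _ => if Even j.1 then q ≠ K else q = K
  | dum _ _ => True

/-- the variables that are true -/
def vval (K : Lab n k) (x : WW m n k) : Prop := ∃ v ∈ K.1, x = vr v

theorem sep_leaf (hr : RichAdj Adj S0) (hS : k + 2 ≤ S0) {q K : Lab n k} (h : q ≠ K)
    {x : WW m n k} (hx : core x) (hx' : lev x ≤ m + 1) :
    ∃ i, Adj x (leaf i) ∧ hit Adj (leaf i) q ∧ ¬ hit Adj (leaf i) K := by
  classical
  obtain ⟨v, hv, hvK⟩ : ∃ v ∈ q.1, v ∉ K.1 := by
    by_contra hcon
    push Not at hcon
    apply h
    apply Subtype.ext
    exact Finset.eq_of_subset_of_card_le hcon (by rw [q.2, K.2])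
  obtain ⟨i, _, hi⟩ := hr.leaf (x :: vr v :: K.1.toList.map vr) (by
    simp only [List.length_cons, List.length_map, Finset.length_toList, K.2]
    omega) (fun d => d = x ∨ d = vr v)
  refine ⟨i, ?_, ⟨v, hv, ?_⟩, ?_⟩
  · rw [hr.symm]
    exact (hi x (by simp) hx).2 (Or.inl rfl)
  · exact (hi _ (by simp) (by simp [core])).2 (Or.inr rfl)
  · rintro ⟨w, hw, hA⟩
    have h1 := (hi (vr w) (by simp [hw]) (by simp [core])).1 hA
    rcases h1 with h1 | h1
    · rw [← h1, lev_vr] at hx'
      omega
    · rw [vr.injEq] at h1
      subst h1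
      exact hvK hw

theorem gval_step (hr : RichAdj Adj S0) (hS : k + 2 ≤ S0) (K : Lab n k) {x : WW m n k}
    (hx : 1 ≤ lev x) (hx' : lev x ≤ m + 1) :
    (Even (lev x) → (gval Adj K x ↔ ∀ y, Dom Adj κ P y → EE Adj x y → gval Adj K y)) ∧
    (Odd (lev x) → (gval Adj K x ↔ ∃ y, Dom Adj κ P y ∧ EE Adj x y ∧ gval Adj K y)) := by
  cases x with
  | vr v => rw [lev_vr] at hx'; omega
  | dum s i =>
    cases s
    · rw [lev_dumf] at hx; omega
    · rw [lev_dumt] at hx'; omega
  | leaf i =>
    rw [lev_leaf]
    constructor
    · intro he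
      have ho : ¬ Odd (m + 1) := Nat.not_odd_iff_even.2 he
      simp only [gval, if_neg ho]
      constructor
      · intro h y _ hy
        cases y with
        | vr v =>
          simp only [gval, if_neg ho]
          intro hv
          exact h ⟨v, hv, hy⟩
        | leaf _ => exact absurd hy (by simp [EE])
        | gate _ _ _ => exact absurd hy (by simp [EE])
        | dum _ _ => trivial
      · rintro h ⟨v, hv, hA⟩
        have := h (vr v) trivial hA
        simp only [gval, if_neg ho] at this
        exact this hv
    · intro ho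
      simp only [gval, if_pos ho]
      constructor
      · rintro ⟨v, hv, hA⟩
        refine ⟨vr v, trivial, hA, ?_⟩
        simp only [gval, if_pos ho]
        exact hv
      · rintro ⟨y, _, hy, hv⟩
        cases y with
        | vr v =>
          simp only [gval, if_pos ho] at hv
          exact ⟨v, hv, hy⟩
        | leaf _ => exact absurd hy (by simp [EE])
        | gate _ _ _ => exact absurd hy (by simp [EE])
        | dum _ _ => exact absurd hy (by simp [EE])
  | gate j q i =>
    rw [lev_gate]
    have hj := j.2
    by_cases hlast : j.1 + 1 = m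
    · constructor
      · intro he
        have hoj : ¬ Even j.1 := by
          intro h
          exact (Nat.even_add_one.1 he) h
        have hom : Odd (m + 1) := by
          rw [← hlast]
          exact he.add_one
        simp only [gval, if_neg hoj]
        constructor
        · rintro rfl y _ hy
          cases y with
          | leaf i' =>
            simp only [gval, if_pos hom]
            exact hy.2.1
          | vr _ => exact absurd hy (by simp [EE])
          | gate j' q' i' =>
            have := hy.1
            have := j'.2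
            omega
          | dum _ _ => trivial
        · intro h
          by_contra hne
          obtain ⟨i', h1, h2, h3⟩ := sep_leaf hr hS hne (x := gate j q i) (by simp [core])
            (by rw [lev_gate]; omega)
          have := h (leaf i') (by intro h0; omega) ⟨hlast, h2, h1⟩
          simp only [gval, if_pos hom] at this
          exact h3 this
      · intro ho
        have hoj : Even j.1 := by
          rw [Nat.odd_add_one, Nat.not_odd_iff_even] at ho
          exact ho
        have hom : ¬ Odd (m + 1) := by
          rw [Nat.not_odd_iff_even, ← hlast]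
          exact ho.add_one
        simp only [gval, if_pos hoj]
        constructor
        · intro hne
          obtain ⟨i', h1, h2, h3⟩ := sep_leaf hr hS hne (x := gate j q i) (by simp [core])
            (by rw [lev_gate]; omega)
          refine ⟨leaf i', by intro h0; omega, ⟨hlast, h2, h1⟩, ?_⟩
          simp only [gval, if_neg hom]
          exact h3
        · rintro ⟨y, _, hy, hv⟩
          cases y with
          | leaf i' =>
            simp only [gval, if_neg hom] at hv
            rintro rfl
            exact hv hy.2.1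
          | vr _ => exact absurd hy (by simp [EE])
          | gate j' q' i' =>
            have := hy.1
            have := j'.2
            omega
          | dum _ _ => exact absurd hy (by simp [EE])
    · have hex : ∃ i' : Fin n, EE Adj (gate j q i) (gate ⟨j.1 + 1, by omega⟩ K i') ↔
          q ≠ K := by
        obtain ⟨i', _, hi'⟩ := hr.gate ⟨j.1 + 1, by omega⟩ K [gate j q i]
          (by simp only [List.length_singleton]; omega) (fun _ => True)
        refine ⟨i', ?_⟩
        constructor
        · intro h; exact h.2.1
        · intro h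
          refine ⟨rfl, h, ?_⟩
          rw [hr.symm]
          exact (hi' _ (by simp) (by simp [core])).2 trivial
      obtain ⟨i', hi'⟩ := hex
      constructor
      · intro he
        have hoj : ¬ Even j.1 := by
          intro h
          exact (Nat.even_add_one.1 he) h
        simp only [gval, if_neg hoj]
        constructor
        · rintro rfl y _ hy
          cases y with
          | leaf i' => exact absurd hy.1 hlast
          | vr _ => exact absurd hy (by simp [EE])
          | gate j' q' i'' =>
            have h1 : Even j'.1 := by rw [hy.1]; exact he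
            simp only [gval, if_pos h1]
            exact hy.2.1.symm
          | dum _ _ => trivial
        · intro h
          by_contra hne
          have := h (gate ⟨j.1 + 1, by omega⟩ K i') (by intro h0; simp at h0) (hi'.2 hne)
          have h1 : Even (j.1 + 1) := he
          simp only [gval, if_pos h1] at this
          exact this rfl
      · intro ho
        have hoj : Even j.1 := by
          rw [Nat.odd_add_one, Nat.not_odd_iff_even] at ho
          exact ho
        have h1 : ¬ Even (j.1 + 1) := Nat.not_even_iff_odd.2 ho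
        simp only [gval, if_pos hoj]
        constructor
        · intro hne
          refine ⟨gate ⟨j.1 + 1, by omega⟩ K i', by intro h0; simp at h0, hi'.2 hne, ?_⟩
          simp only [gval, if_neg h1]
        · rintro ⟨y, _, hy, hv⟩
          cases y with
          | leaf i' => exact absurd hy.1 hlast
          | vr _ => exact absurd hy (by simp [EE])
          | gate j' q' i'' =>
            have h2 : ¬ Even j'.1 := by rw [hy.1]; exact h1
            simp only [gval, if_neg h2] at hv
            rw [← hv]
            exact hy.2.1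
          | dum _ _ => exact absurd hy (by simp [EE])

variable (Adj κ P) in
/-- the values of the nodes -/
def vv (K : Lab n k) : SH × List (WW m n k) → Prop
  | (SH.g, []) => ∀ x, Dom Adj κ P x → lev x = 1 → gval Adj K x
  | (SH.g, x :: _) => gval Adj K x
  | (SH.nt, x :: _) => ¬ vval K x
  | (SH.v, x :: _) => vval K x
  | (SH.d2n, _) => True
  | (SH.d3o, _) => True
  | (SH.d3n, _) => True
  | _ => False

theorem gval_top_even (he : Even (m + 1)) (K : Lab n k) {x : WW m n k} (hx : lev x = m + 2) :
    gval Adj K x ↔ ¬ vval K x := by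
  have ho : ¬ Odd (m + 1) := Nat.not_odd_iff_even.2 he
  cases x with
  | vr v =>
    simp only [gval, if_neg ho, vval]
    constructor
    · rintro h ⟨w, hw, hwv⟩
      rw [vr.injEq] at hwv
      subst hwv
      exact h hw
    · intro h hv
      exact h ⟨v, hv, rfl⟩
  | leaf i => rw [lev_leaf] at hx; omega
  | gate j q i => rw [lev_gate] at hx; omega
  | dum s i => cases s; · rw [lev_dumf] at hx; omega
               · rw [lev_dumt] at hx; omega

theorem gval_top_odd (ho : Odd (m + 1)) (K : Lab n k) {x : WW m n k} (hx : lev x = m + 2) :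
    gval Adj K x ↔ vval K x := by
  cases x with
  | vr v =>
    simp only [gval, if_pos ho, vval]
    constructor
    · intro h
      exact ⟨v, h, rfl⟩
    · rintro ⟨w, hw, hwv⟩
      rw [vr.injEq] at hwv
      subst hwv
      exact hw
  | leaf i => rw [lev_leaf] at hx; omega
  | gate j q i => rw [lev_gate] at hx; omega
  | dum s i => cases s; · rw [lev_dumf] at hx; omega
               · rw [lev_dumt] at hx; omega

theorem vv_even (hr : RichAdj Adj S0) (hS : k + 2 ≤ S0) (K : Lab n k)
    {a : List (WW m n k)} (ha : vg Adj b a) (he : Even (lvl a)) :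
    vv Adj κ P K (SH.g, a) ↔ ∀ y, Dom Adj κ P y → link Adj a y → gval Adj K y := by
  cases a with
  | nil => exact Iff.rfl
  | cons x a => exact (gval_step hr hS K ha.1 ha.2.1).1 he

theorem vv_odd (hr : RichAdj Adj S0) (hS : k + 2 ≤ S0) (K : Lab n k)
    {a : List (WW m n k)} (ha : vg Adj b a) (ho : Odd (lvl a)) :
    vv Adj κ P K (SH.g, a) ↔ ∃ y, Dom Adj κ P y ∧ link Adj a y ∧ gval Adj K y := by
  cases a with
  | nil => simp [lvl] at ho
  | cons x a => exact (gval_step hr hS K ha.1 ha.2.1).2 ho

/-- the child given by an element -/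
theorem child_of (hb : b = true ∨ Odd (m + 1)) (K : Lab n k) {a : List (WW m n k)}
    (ha : vg Adj b a) (hd : ∀ x ∈ a, Dom Adj κ P x) {y : WW m n k} (hy : Dom Adj κ P y)
    (hl : link Adj a y) : ∃ h : (srcFrame Adj b).U (Dom Adj κ P),
      Wr Adj b (SH.g, a) h.1 ∧ (vv Adj κ P K h.1 ↔ gval Adj K y) := by
  have h1 := link_lev hl
  have h2 := vg_lvl ha
  by_cases hm : lev y ≤ m + 1
  · refine ⟨⟨(SH.g, y :: trim b a), Vd.g _ ⟨by omega, hm, ?_, ?_⟩, ?_⟩, Wr.gg a y hl hm, Iff.rfl⟩
    · rintro rfl
      exact ⟨ha, hl⟩
    · rintro rfl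
      rfl
    · intro z hz
      rcases List.mem_cons.1 hz with rfl | hz
      · exact hy
      · refine hd z ?_
        cases b
        · exact absurd hz List.not_mem_nil
        · exact hz
  · have hm' : lev y = m + 2 := by omega
    rcases Nat.even_or_odd (m + 1) with he | ho
    · have hbt : b = true := by
        rcases hb with h | h
        · exact h
        · exact absurd he (Nat.not_even_iff_odd.2 h)
      refine ⟨⟨(SH.nt, y :: a), Vd.nt y a hbt ha hl hm' he, ?_⟩, Wr.gn a y hl hm' he,
        (gval_top_even he K hm').symm⟩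
      intro z hz
      rcases List.mem_cons.1 hz with rfl | hz
      · exact hy
      · exact hd z hz
    · refine ⟨⟨(SH.v, [y]), Vd.v y hm', ?_⟩, Wr.gv a y hl hm' ho,
        (gval_top_odd ho K hm').symm⟩
      intro z hz
      rw [mem_one hz]
      exact hy

/-- the element given by a child -/
theorem of_child (K : Lab n k) {a : List (WW m n k)} {h : SH × List (WW m n k)}
    (hd : ∀ x ∈ h.2, Dom Adj κ P x) (hw : Wr Adj b (SH.g, a) h) :
    (∃ y, Dom Adj κ P y ∧ link Adj a y ∧ (vv Adj κ P K h ↔ gval Adj K y)) ∨
      (a = [] ∧ vv Adj κ P K h) := by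
  cases hw with
  | gg a x hlink hx => exact Or.inl ⟨x, hd x (by simp), hlink, Iff.rfl⟩
  | gn a x hlink hx he =>
    exact Or.inl ⟨x, hd x (by simp), hlink, (gval_top_even he K hx).symm⟩
  | gv a x hlink hx ho =>
    exact Or.inl ⟨x, hd x (by simp), hlink, (gval_top_odd ho K hx).symm⟩
  | g2 x => exact Or.inr ⟨rfl, trivial⟩
  | g3 x => exact Or.inr ⟨rfl, trivial⟩

theorem vv_eval (hr : RichAdj Adj S0) (hS : k + 2 ≤ S0) (hb : b = true ∨ Odd (m + 1))
    (K : Lab n k) : ((srcFrame Adj b).C (Dom Adj κ P)).IsEval fun e => vv Adj κ P K e.1 where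
  and := by
    rintro ⟨⟨s, a⟩, hv, hd⟩ ⟨hs, he⟩
    change s = SH.g at hs
    change Even (lvl a) at he
    subst hs
    cases hv with
    | g a ha =>
      show vv Adj κ P K (SH.g, a) ↔ _
      rw [vv_even hr hS K ha he]
      constructor
      · intro h c hw
        rcases of_child K c.2.2 hw with ⟨y, hy1, hy2, hy3⟩ | ⟨_, h2⟩
        · exact hy3.2 (h y hy1 hy2)
        · exact h2
      · intro h y hy hl
        obtain ⟨c, hc1, hc2⟩ := child_of hb K ha hd hy hl
        exact hc2.1 (h c hc1)
  or := by
    rintro ⟨⟨s, a⟩, hv, hd⟩ hs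
    change (s = SH.g ∧ Odd (lvl a)) ∨ s = SH.d3o at hs
    rcases hs with ⟨hs, ho⟩ | hs
    · subst hs
      cases hv with
      | g a ha =>
        show vv Adj κ P K (SH.g, a) ↔ _
        rw [vv_odd hr hS K ha ho]
        constructor
        · rintro ⟨y, hy, hl, h⟩
          obtain ⟨c, hc1, hc2⟩ := child_of hb K ha hd hy hl
          exact ⟨c, hc1, hc2.2 h⟩
        · rintro ⟨c, hc, h⟩
          rcases of_child K c.2.2 hc with ⟨y, hy1, hy2, hy3⟩ | ⟨h1, _⟩
          · exact ⟨y, hy1, hy2, hy3.1 h⟩
          · rw [h1] at ho
            simp [lvl] at ho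
    · subst hs
      cases hv with
      | d3o x hx =>
        constructor
        · intro _
          exact ⟨⟨(SH.d3n, [x]), Vd.d3n x hx, hd⟩, Wr.o3 x, trivial⟩
        · intro _
          trivial
  not := by
    rintro ⟨⟨s, a⟩, hv, hd⟩ hs
    change s = SH.nt ∨ s = SH.d2n ∨ s = SH.d3n at hs
    rcases hs with rfl | rfl | rfl
    · cases hv with
      | nt x a hbt ha hl hx he =>
        constructor
        · rintro h ⟨c, hc⟩ hw
          change Wr Adj b (SH.nt, x :: a) c at hw
          cases hw
          exact h
        · intro h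
          refine h ⟨(SH.v, [x]), Vd.v x hx, ?_⟩ (Wr.nv a x)
          intro z hz
          rw [mem_one hz]
          exact hd x List.mem_cons_self
    · cases hv with
      | d2n x hx =>
        constructor
        · rintro h ⟨c, hc⟩ hw
          change Wr Adj b (SH.d2n, [x]) c at hw
          cases hw
          exact id
        · intro _
          trivial
    · cases hv with
      | d3n x hx =>
        constructor
        · rintro h ⟨c, hc⟩ hw
          change Wr Adj b (SH.d3n, [x]) c at hw
          cases hw
          exact id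
        · intro _
          trivial

/-- the node of a variable -/
def vnode (v : Fin n) : (srcFrame Adj b).U (Dom Adj κ P) :=
  ⟨(SH.v, [vr v]), Vd.v _ rfl, by
    intro z hz
    rw [mem_one hz]
    trivial⟩

theorem card_true {val : (srcFrame Adj b).U (Dom Adj κ P) → Prop} {K : Finset (Fin n)}
    (h1 : ∀ v, val (vnode v) ↔ v ∈ K)
    (h2 : ∀ e : (srcFrame Adj b).U (Dom Adj κ P), (e.1.1 = SH.d2v ∨ e.1.1 = SH.d3v) → ¬ val e) :
    Nat.card {g // ((srcFrame Adj b).C (Dom Adj κ P)).isVar g ∧ val g} = K.card := by
  have : Nat.card {v // v ∈ K} = K.card := by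
    rw [Nat.card_eq_fintype_card, Fintype.card_coe]
  rw [← this]
  symm
  refine Nat.card_eq_of_bijective (fun v : {v // v ∈ K} =>
    (⟨vnode v.1, Or.inl rfl, (h1 v.1).2 v.2⟩ :
      {g // ((srcFrame Adj b).C (Dom Adj κ P)).isVar g ∧ val g})) ⟨?_, ?_⟩
  · intro v w hvw
    have h3 := congrArg (fun g => g.1.1) hvw
    change ((SH.v, [vr v.1]) : SH × List (WW m n k)) = (SH.v, [vr w.1]) at h3
    simp only [Prod.mk.injEq, List.cons.injEq, vr.injEq, and_true, true_and] at h3
    exact Subtype.ext h3
  · rintro ⟨⟨⟨s, a⟩, hv, hd⟩, hvar, hval⟩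
    change s = SH.v ∨ s = SH.d2v ∨ s = SH.d3v at hvar
    rcases hvar with rfl | rfl | rfl
    · cases hv with
      | v x hx =>
        cases x with
        | vr v => exact ⟨⟨v, (h1 v).1 hval⟩, rfl⟩
        | leaf i => rw [lev_leaf] at hx; omega
        | gate j q i => rw [lev_gate] at hx; omega
        | dum s i => cases s; · rw [lev_dumf] at hx; omega
                     · rw [lev_dumt] at hx; omega
    · exact absurd hval (h2 _ (Or.inl rfl))
    · exact absurd hval (h2 _ (Or.inr rfl))

theorem src_sat (hr : RichAdj Adj S0) (hS : k + 2 ≤ S0) (hb : b = true ∨ Odd (m + 1))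
    (K : Lab n k) : ((srcFrame Adj b).C (Dom Adj (some K) P)).WSat k := by
  refine ⟨_, vv_eval hr hS hb K, ?_, ?_⟩
  · intro g hg
    rw [out_root hg]
    show ∀ x, Dom Adj (some K) P x → lev x = 1 → gval Adj K x
    intro x hx hl
    cases x with
    | vr v => rw [lev_vr] at hl; omega
    | dum s i => trivial
    | leaf i =>
      rw [lev_leaf] at hl
      have hm : m = 0 := by omega
      have ho : Odd (m + 1) := by rw [hm]; decide
      simp only [gval, if_pos ho]
      exact hx hm K rfl
    | gate j q i =>
      rw [lev_gate] at hl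
      have hj : j.1 = 0 := by omega
      have he : Even j.1 := by rw [hj]; decide
      simp only [gval, if_pos he]
      intro h
      exact hx hj (by rw [h])
  · rw [card_true (K := K.1), K.2]
    · intro v
      show vval K (vr v) ↔ v ∈ K.1
      constructor
      · rintro ⟨w, hw, hwv⟩
        rw [vr.injEq] at hwv
        rwa [hwv]
      · intro h
        exact ⟨v, h, rfl⟩
    · rintro ⟨⟨s, a⟩, hv, hd⟩ hs
      change s = SH.d2v ∨ s = SH.d3v at hs
      rcases hs with rfl | rfl
      · exact id
      · exact id

theorem src_unsat [Finite ((srcFrame Adj b).U (Dom Adj none P))]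
    (hr : RichAdj Adj S0) (hS : k + 2 ≤ S0) (hb : b = true ∨ Odd (m + 1)) :
    ¬ ((srcFrame Adj b).C (Dom Adj none P)).WSat k := by
  classical
  rintro ⟨val, hval, hout, hcard⟩
  have hroot := hout root root_out
  have hall := (hval.and root ⟨rfl, by simp [lvl, root]⟩).1 hroot
  have h2 : ∀ e : (srcFrame Adj b).U (Dom Adj none P),
      (e.1.1 = SH.d2v ∨ e.1.1 = SH.d3v) → ¬ val e := by
    rintro ⟨⟨s, a⟩, hv, hd⟩ hs
    change s = SH.d2v ∨ s = SH.d3v at hs
    rcases hs with rfl | rfl
    · cases hv with
      | d2v x hx =>
        have h3 := hall ⟨(SH.d2n, [x]), Vd.d2n x hx, hd⟩ (Wr.g2 x)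
        exact (hval.not _ (Or.inr (Or.inl rfl))).1 h3 _ (Wr.n2 x)
    · cases hv with
      | d3v x hx =>
        have h3 := hall ⟨(SH.d3o, [x]), Vd.d3o x hx, hd⟩ (Wr.g3 x)
        obtain ⟨⟨c, hc⟩, hw, hcv⟩ := (hval.or _ (Or.inr rfl)).1 h3
        change Wr Adj b (SH.d3o, [x]) c at hw
        cases hw
        exact (hval.not _ (Or.inr (Or.inr rfl))).1 hcv _ (Wr.n3 x)
  let K0 : Finset (Fin n) := Finset.univ.filter fun v => val (vnode v)
  have hK0 : ∀ v, val (vnode v) ↔ v ∈ K0 := by intro v; simp [K0]
  rw [card_true hK0 h2] at hcard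
  let K : Lab n k := ⟨K0, hcard⟩
  have hu := eval_unique src_isCircuit hval (vv_eval hr hS hb K) (by
    rintro ⟨⟨s, a⟩, hv, hd⟩ hvar
    change s = SH.v ∨ s = SH.d2v ∨ s = SH.d3v at hvar
    rcases hvar with rfl | rfl | rfl
    · cases hv with
      | v x hx =>
        cases x with
        | vr v =>
          show val (vnode v) ↔ vval K (vr v)
          rw [hK0]
          constructor
          · intro h
            exact ⟨v, h, rfl⟩
          · rintro ⟨w, hw, hwv⟩
            rw [vr.injEq] at hwv
            rwa [hwv]
        | leaf i => rw [lev_leaf] at hx; omega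
        | gate j q i => rw [lev_gate] at hx; omega
        | dum s i => cases s; · rw [lev_dumf] at hx; omega
                     · rw [lev_dumt] at hx; omega
    · exact ⟨fun h => absurd h (h2 _ (Or.inl rfl)), fun h => h.elim⟩
    · exact ⟨fun h => absurd h (h2 _ (Or.inr rfl)), fun h => h.elim⟩) root
  have h3 : ∀ x, Dom Adj none P x → lev x = 1 → gval Adj K x := hu.1 hroot
  rcases Nat.eq_zero_or_pos m with hm | hm
  · obtain ⟨i, _, hi⟩ := hr.leaf (K.1.toList.map vr)
      (by rw [List.length_map, Finset.length_toList, K.2]; omega) (fun _ => False)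
    have h4 := h3 (leaf i) (by intro _ q hq; simp at hq) (by rw [lev_leaf]; omega)
    have ho : Odd (m + 1) := by rw [hm]; decide
    simp only [gval, if_pos ho] at h4
    obtain ⟨v, hv, hA⟩ := h4
    exact (hi (vr v) (List.mem_map.2 ⟨v, by simpa using hv, rfl⟩) (by simp [core])).1 hA
  · obtain ⟨i, _, _⟩ := hr.gate ⟨0, hm⟩ K [] (by simp) (fun _ => True)
    have h4 := h3 (gate ⟨0, hm⟩ K i) (by intro _; simp) (by rw [lev_gate])
    simp [gval] at h4

end sat

end Pool.Agent.WSatChain
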