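import Mathlib
import Pool.Agent.WSatChain.Source3

/-! Sizes of the source circuits. -/

namespace Pool.Agent.WSatChain

open WW

section size

variable {m n k : ℕ} {Adj : WW m n k → WW m n k → Prop} {b : Bool} {κ : Option (Lab n k)}
  {P P' : Bool → ℕ} {S0 : ℕ}

/-- the lists of a given shape -/
abbrev Fib (Adj : WW m n k → WW m n k → Prop) (b : Bool) (κ : Option (Lab n k)) (P : Bool → ℕ)
    (s : SH) : Type := {a : List (WW m n k) // Vd Adj b (s, a) ∧ ∀ x ∈ a, Dom Adj κ P x}

instance dom_finite : Finite {x : WW m n k // Dom Adj κ P x} := by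
  let f : {x : WW m n k // Dom Adj κ P x} →
      (Fin n ⊕ Fin n) ⊕ ((Fin m × Lab n k × Fin n) ⊕ (Σ s : Bool, Fin (P s))) := fun x =>
    match x with
    | ⟨vr v, _⟩ => Sum.inl (Sum.inl v)
    | ⟨leaf v, _⟩ => Sum.inl (Sum.inr v)
    | ⟨gate j q i, _⟩ => Sum.inr (Sum.inl (j, q, i))
    | ⟨dum s i, h⟩ => Sum.inr (Sum.inr ⟨s, ⟨i, h⟩⟩)
  refine Finite.of_injective f ?_
  rintro ⟨x, hx⟩ ⟨y, hy⟩ hxy
  cases x with
  | dum s i =>
    cases y with
    | dum s' i' =>
      simp only [f, Sum.inr.injEq, Sigma.mk.injEq] at hxy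
      obtain ⟨rfl, h2⟩ := hxy
      have h3 : i = i' := congrArg Fin.val (eq_of_heq h2)
      subst h3
      rfl
    | _ => simp [f] at hxy
  | _ => cases y <;> simp_all [f]

instance fib_finite (s : SH) : Finite (Fib Adj b κ P s) := by
  have h1 := (List.finite_length_le {x : WW m n k // Dom Adj κ P x} (cond b (m + 2) 1)).image
    (List.map Subtype.val)
  have h2 : {a : List (WW m n k) | Vd Adj b (s, a) ∧ ∀ x ∈ a, Dom Adj κ P x}.Finite := by
    refine h1.subset ?_
    rintro a ⟨ha, hx⟩
    refine ⟨a.attachWith _ hx, ?_, ?_⟩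
    · show (a.attachWith _ hx).length ≤ _
      rw [List.length_attachWith]
      exact vd_length ha
    · simp
  exact h2

/-- nodes by shapes -/
def uEquiv : (srcFrame Adj b).U (Dom Adj κ P) ≃ (Σ s : SH, Fib Adj b κ P s) where
  toFun e := ⟨e.1.1, ⟨e.1.2, e.2⟩⟩
  invFun p := ⟨(p.1, p.2.1), p.2.2⟩
  left_inv _ := rfl
  right_inv _ := rfl

instance u_finite : Finite ((srcFrame Adj b).U (Dom Adj κ P)) :=
  Finite.of_equiv _ uEquiv.symm

theorem sum_SH (f : SH → ℕ) : ∑ s, f s = f SH.g + f SH.nt + f SH.v + f SH.d2n + f SH.d2v +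
    f SH.d3o + f SH.d3n + f SH.d3v := by
  rw [show (Finset.univ : Finset SH) =
    {SH.g, SH.nt, SH.v, SH.d2n, SH.d2v, SH.d3o, SH.d3n, SH.d3v} from rfl]
  rw [Finset.sum_insert (by decide), Finset.sum_insert (by decide),
    Finset.sum_insert (by decide), Finset.sum_insert (by decide),
    Finset.sum_insert (by decide), Finset.sum_insert (by decide),
    Finset.sum_insert (by decide), Finset.sum_singleton]
  ring

theorem dom_core {x : WW m n k} (h : core x) : Dom Adj κ P x ↔ Dom Adj κ P' x := by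
  cases x with
  | vr v => exact Iff.rfl
  | leaf i => exact Iff.rfl
  | gate j q i => exact Iff.rfl
  | dum s i => exact absurd h (by simp [core])

theorem vg_core {a : List (WW m n k)} (ha : vg Adj b a) : ∀ x ∈ a, core x := by
  induction a with
  | nil => simp
  | cons y a ih =>
    obtain ⟨h1, h2, h3, h4⟩ := ha
    intro x hx
    rcases List.mem_cons.1 hx with rfl | hx
    · exact lev_core h1 (by omega)
    · cases b with
      | true => exact ih (h3 rfl).1 x hx
      | false =>
        rw [h4 rfl] at hx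
        exact absurd hx List.not_mem_nil

theorem fib_core (s : SH) (hs : s = SH.g ∨ s = SH.nt ∨ s = SH.v) :
    Nat.card (Fib Adj b κ P s) = Nat.card (Fib Adj b κ P' s) := by
  refine Nat.card_congr (Equiv.subtypeEquivRight ?_)
  intro a
  refine and_congr_right fun ha => forall₂_congr fun x hx => ?_
  refine dom_core ?_
  rcases hs with rfl | rfl | rfl
  · cases ha with
    | g a hvg => exact vg_core hvg x hx
  · cases ha with
    | nt y a hb hvg hl hy he =>
      rcases List.mem_cons.1 hx with rfl | hx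
      · exact lev_core (by omega) (by omega)
      · exact vg_core hvg x hx
  · cases ha with
    | v y hy =>
      rw [mem_one hx]
      exact lev_core (by omega) (by omega)

theorem fib_dum (s : SH) (β : Bool)
    (h : ∀ a : List (WW m n k), Vd Adj b (s, a) ↔ ∃ x, a = [x] ∧ lev x = cond β (m + 3) 0) :
    Nat.card (Fib Adj b κ P s) = P β := by
  rw [← Nat.card_fin (P β)]
  symm
  have hlev : ∀ i, lev (dum β i : WW m n k) = cond β (m + 3) 0 := by
    intro i
    cases β <;> rfl
  refine Nat.card_eq_of_bijective (fun i : Fin (P β) =>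
    (⟨[dum β i.1], (h _).2 ⟨_, rfl, hlev _⟩, by
      intro x hx
      rw [mem_one hx]
      exact i.2⟩ : Fib Adj b κ P s)) ⟨?_, ?_⟩
  · intro i j hij
    have := congrArg Subtype.val hij
    simpa [Fin.ext_iff] using this
  · rintro ⟨a, ha, hd⟩
    obtain ⟨x, rfl, hx⟩ := (h a).1 ha
    cases x with
    | vr v => rw [lev_vr] at hx; cases β <;> simp at hx
    | leaf i => rw [lev_leaf] at hx; cases β <;> simp at hx
    | gate j q i =>
      rw [lev_gate] at hx
      have := j.2
      cases β <;> simp at hx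
      omega
    | dum s' i =>
      have hs : s' = β := by
        cases s' <;> cases β <;> simp [lev_dumf, lev_dumt] at hx ⊢
      subst hs
      have hi : i < P s' := hd (dum s' i) List.mem_cons_self
      exact ⟨⟨i, hi⟩, rfl⟩

theorem card_U : Nat.card ((srcFrame Adj b).U (Dom Adj κ P)) =
    (Nat.card (Fib Adj b κ (fun _ => 0) SH.g) + Nat.card (Fib Adj b κ (fun _ => 0) SH.nt) +
      Nat.card (Fib Adj b κ (fun _ => 0) SH.v)) + 2 * P false + 3 * P true := by
  rw [Nat.card_congr uEquiv, Nat.card_sigma, sum_SH,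
    fib_core (P := P) (P' := fun _ => 0) SH.g (Or.inl rfl),
    fib_core (P := P) (P' := fun _ => 0) SH.nt (Or.inr (Or.inl rfl)),
    fib_core (P := P) (P' := fun _ => 0) SH.v (Or.inr (Or.inr rfl)),
    fib_dum SH.d2n false, fib_dum SH.d2v false, fib_dum SH.d3o true, fib_dum SH.d3n true,
    fib_dum SH.d3v true]
  · ring
  · intro a
    constructor
    · intro h; cases h with | d3v x hx => exact ⟨x, rfl, hx⟩
    · rintro ⟨x, rfl, hx⟩; exact Vd.d3v x hx
  · intro a
    constructor
    · intro h; cases h with | d3n x hx => exact ⟨x, rfl, hx⟩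
    · rintro ⟨x, rfl, hx⟩; exact Vd.d3n x hx
  · intro a
    constructor
    · intro h; cases h with | d3o x hx => exact ⟨x, rfl, hx⟩
    · rintro ⟨x, rfl, hx⟩; exact Vd.d3o x hx
  · intro a
    constructor
    · intro h; cases h with | d2v x hx => exact ⟨x, rfl, hx⟩
    · rintro ⟨x, rfl, hx⟩; exact Vd.d2v x hx
  · intro a
    constructor
    · intro h; cases h with | d2n x hx => exact ⟨x, rfl, hx⟩
    · rintro ⟨x, rfl, hx⟩; exact Vd.d2n x hx

theorem two_three (S T : ℕ) (h : 5 * (S + 1) + 2 ≤ T) :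
    ∃ p q, S < p ∧ S < q ∧ 2 * p + 3 * q = T := by
  rcases Nat.even_or_odd (T - 5 * (S + 1)) with ⟨r, hr⟩ | ⟨r, hr⟩
  · exact ⟨S + 1 + r, S + 1, by omega, by omega, by omega⟩
  · exact ⟨S + r, S + 2, by omega, by omega, by omega⟩

/-- two source circuits of the same size -/
theorem exists_pads (Adj : WW m n k → WW m n k → Prop) (b : Bool) (κ : Option (Lab n k))
    (S0 : ℕ) : ∃ P P' : Bool → ℕ, (∀ s, S0 < P s) ∧ (∀ s, S0 < P' s) ∧
      Nat.card ((srcFrame Adj b).U (Dom Adj κ P)) =
        Nat.card ((srcFrame Adj b).U (Dom Adj none P')) := by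
  set B := Nat.card (Fib Adj b κ (fun _ => 0) SH.g) + Nat.card (Fib Adj b κ (fun _ => 0) SH.nt)
    + Nat.card (Fib Adj b κ (fun _ => 0) SH.v) with hB
  set B' := Nat.card (Fib Adj b none (fun _ => 0) SH.g) +
    Nat.card (Fib Adj b none (fun _ => 0) SH.nt) +
    Nat.card (Fib Adj b none (fun _ => 0) SH.v) with hB'
  obtain ⟨p, q, h1, h2, h3⟩ := two_three S0 (B' + 5 * (S0 + 1) + 2) (by omega)
  obtain ⟨p', q', h1', h2', h3'⟩ := two_three S0 (B + 5 * (S0 + 1) + 2) (by omega)
  refine ⟨fun s => cond s q p, fun s => cond s q' p', ?_, ?_, ?_⟩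
  · intro s; cases s
    · exact h1
    · exact h2
  · intro s; cases s
    · exact h1'
    · exact h2'
  · rw [card_U, card_U]
    simp only [cond_true, cond_false]
    omega

end size

end Pool.Agent.WSatChain
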