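import Mathlib
import Pool.Agent.WSatChain.Source4
import Pool.Agent.WSatChain.Transfer

/-! The links with `Γ_{2,1}` and beyond on the left. -/

namespace Pool.Agent.WSatChain

open WW Pool.Agent.WSatChain.Frame

theorem univ_finite {U : Type} [Finite U] {c N : ℕ} (F : Interp c N) (C : Circ U) :
    Finite (F.Univ C) := by
  unfold Interp.Univ
  infer_instance

theorem two_le {c N : ℕ} (F : Interp c N) : 2 ≤ c := by
  have := F.a_pos
  have := F.two_a
  omega

/-- the bound on the sizes of all configurations -/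
def bigS (m k c N K L : ℕ) : ℕ :=
  (N + (K + 3) * c) * L + 2 * k + 1 + K * (c * L) + m * (2 * (c * L)) + (k + 2)

section setup

variable {m n k c N K : ℕ} {Adj : WW m n k → WW m n k → Prop} {b : Bool} {Kst : Lab n k}
  {P P' : Bool → ℕ}

theorem src_ext (hr : RichAdj Adj (bigS m k c N K (cond b (m + 2) 1)))
    {X : WW m n k → Prop} {κ : Option (Lab n k)} {P : Bool → ℕ}
    (hP : ∀ s, bigS m k c N K (cond b (m + 2) 1) < P s) :
    (srcFrame Adj b).Ext X (Dom Adj κ P) k ((N + (K + 3) * c) * cond b (m + 2) 1) := by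
  intro l hl hlk x hx hdom Z hZ
  exact base_ext hr (by unfold bigS; omega) hP l hl hlk x hx hdom Z hZ

theorem src_env (hr : RichAdj Adj (bigS m k c N K (cond b (m + 2) 1)))
    (hP : ∀ s, bigS m k c N K (cond b (m + 2) 1) < P s)
    (hP' : ∀ s, bigS m k c N K (cond b (m + 2) 1) < P' s)
    (hR : (2 * c + 1) * cond b (m + 2) 1 ≤ k) :
    Env (srcFrame Adj b) c N K k ((N + (K + 3) * c) * cond b (m + 2) 1)
      (Dom Adj (some Kst) P) (Dom Adj none P') where
  xx := src_ext hr hP
  xy := src_ext hr hP'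
  yx := src_ext hr hP
  yy := src_ext hr hP'
  hR := hR
  hS := le_refl _

theorem src_fam (hr : RichAdj Adj (bigS m k c N K (cond b (m + 2) 1)))
    (hP : ∀ s, bigS m k c N K (cond b (m + 2) 1) < P s)
    (hP' : ∀ s, bigS m k c N K (cond b (m + 2) 1) < P' s) :
    Fam (srcFrame Adj b) (Dom Adj (some Kst) P) (Dom Adj none P')
      (PP Adj (some Kst) none P P' (bigS m k c N K (cond b (m + 2) 1)) (c * cond b (m + 2) 1))
      (c * cond b (m + 2) 1) where
  pos _ _ h := h.2.1
  forth _ _ h _ hxs hα := fam_forth hr hP' h hxs hα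
  back _ _ h _ hys hα := fam_back hr hP h hys hα

theorem src_start
    (hP' : ∀ s, bigS m k c N K (cond b (m + 2) 1) < P' s) :
    ∀ xs : List (WW m n k), (∀ x ∈ xs, Dom Adj (some Kst) P x) →
      xs.length ≤ K * (c * cond b (m + 2) 1) →
      ∃ l, PP Adj (some Kst) none P P' (bigS m k c N K (cond b (m + 2) 1))
        (c * cond b (m + 2) 1) m l ∧
        (srcFrame Adj b).Pos (Dom Adj (some Kst) P) (Dom Adj none P') l ∧
        l.length ≤ xs.length ∧ ∀ x ∈ xs, ∃ y, (x, y) ∈ l := by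
  intro xs hxs hlen
  obtain ⟨l, h1, h2, h3, h4⟩ := base_start (Adj := Adj) hP' xs hxs
    (hlen.trans (by unfold bigS; omega))
  refine ⟨l, ⟨le_refl _, h1, fun p hp hc _ => h2 p hp hc, ?_⟩, h1, h3, h4⟩
  unfold bigS
  omega

end setup

/-- everything needed from the structures -/
theorem exists_structures (m k c N K : ℕ) (b : Bool) (hk : 2 ≤ k) :
    ∃ (n : ℕ) (Adj : WW m n k → WW m n k → Prop) (P P' : Bool → ℕ),
      RichAdj Adj (bigS m k c N K (cond b (m + 2) 1)) ∧
      (∀ s, bigS m k c N K (cond b (m + 2) 1) < P s) ∧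
      (∀ s, bigS m k c N K (cond b (m + 2) 1) < P' s) ∧
      ∃ Kst : Lab n k, Nat.card ((srcFrame Adj b).U (Dom Adj (some Kst) P)) =
        Nat.card ((srcFrame Adj b).U (Dom Adj none P')) := by
  obtain ⟨n, _, Adj, hr⟩ := rich_adj_exists m k (bigS m k c N K (cond b (m + 2) 1)) 0 hk
  obtain ⟨v, _, _⟩ := hr.vr [] (by simp) (fun _ => True)
  obtain ⟨Kst, _, _⟩ := fresh_label hr [] (by simp) v
  obtain ⟨P, P', h1, h2, h3⟩ := exists_pads Adj b (some Kst) (bigS m k c N K (cond b (m + 2) 1))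
  exact ⟨n, Adj, P, P', hr, h1, h2, Kst, h3⟩

theorem param_le_K {U : Type} {c N : ℕ} (F : Interp c N) (C : Circ U) : F.param C ≤ F.K := by
  unfold Interp.param
  have : Nat.card {j : Fin F.K // ∀ v, C.Sat (F.par j) v} ≤ Nat.card (Fin F.K) :=
    Nat.card_le_card_of_injective Subtype.val Subtype.val_injective
  rwa [Nat.card_fin] at this

/-- `Γ_{m+2,1}` does not reduce to `Γ_{m+1,d}`. -/
theorem not_reduces_gamma (m d : ℕ) (c : ℕ → ℕ) (hc : ∃ k, (2 * c k + 1) * (m + 2) ≤ k) :
    ¬ Reduces c (GAMMA (m + 2) 1) (GAMMA (m + 1) d) := by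
  rintro ⟨N, K, F, hFK, hF⟩
  obtain ⟨k, hk⟩ := hc
  have hc2 : 2 ≤ c k := two_le (F k 0)
  have hR : (2 * c k + 1) * cond true (m + 2) 1 ≤ k := hk
  have hk2 : 2 ≤ k := by
    have h1 : (2 * c k + 1) * 1 ≤ (2 * c k + 1) * (m + 2) := Nat.mul_le_mul_left _ (by omega)
    omega
  obtain ⟨n, Adj, P, P', hr, hP, hP', Kst, hcard⟩ :=
    exists_structures m k (c k) (N k) (K k + d) true hk2
  have hS : k + 2 ≤ bigS m k (c k) (N k) (K k + d) (cond true (m + 2) 1) := by
    unfold bigS; omega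
  set Fr := srcFrame Adj true with hFr
  set X := Dom Adj (some Kst) P with hX
  set Y := Dom Adj none P' with hY
  have hA := hF k (Fr.U X) (Fr.C X) (src_gamma hr hS)
  have hB := hF k (Fr.U Y) (Fr.C Y) (src_gamma hr hS)
  rw [hcard] at hA
  set F0 := F k (Nat.card (Fr.U Y)) with hF0
  have env : Env Fr (c k) (N k) (K k + d) k
      ((N k + (K k + d + 3) * c k) * cond true (m + 2) 1) X Y :=
    src_env hr hP hP' hR
  have fX : Finite (F0.Univ (Fr.C X)) := univ_finite F0 _
  have fY : Finite (F0.Univ (Fr.C Y)) := univ_finite F0 _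
  have h1 := hA.2.1 (src_sat hr hS (Or.inl rfl) Kst)
  have h2 : (F0.apply (Fr.C Y)).WSat (F0.param (Fr.C X)) := by
    refine transfer env hA.1.1.toIsCircuit hB.1.1.toIsCircuit
      ((param_le_K F0 (Fr.C X)).trans ((hFK k _).trans (by omega))) (src_start hP') ?_ h1
    intro val val' l ZX ZY hv hv' hl tc g g' hg hgg'
    exact gamma_main env hA.1.1.toIsCircuit hv hv' (src_fam hr hP hP') (le_refl _)
      (d := d) (by omega) m true g g' l
      hl tc hgg' (hA.1.2 g hg)
  rw [param_eq env F0] at h2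
  exact src_unsat hr hS (Or.inl rfl) (hB.2.2 h2)

/-- `CIRC` does not reduce to `PROP`. -/
theorem not_reduces_prop (c : ℕ → ℕ) (hc : ∃ k, 2 * c k < k) :
    ¬ Reduces c CIRC PROP := by
  classical
  rintro ⟨N, K, F, hFK, hF⟩
  obtain ⟨k, hk⟩ := hc
  have hc2 : 2 ≤ c k := two_le (F k 0)
  set m := 2 * c k with hm
  have hodd : Odd (m + 1) := ⟨c k, by omega⟩
  have hR : (2 * c k + 1) * cond false (m + 2) 1 ≤ k := by
    simp only [cond_false]
    omega
  have hk2 : 2 ≤ k := by omega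
  obtain ⟨n, Adj, P, P', hr, hP, hP', Kst, hcard⟩ :=
    exists_structures m k (c k) (N k) (K k) false hk2
  have hS : k + 2 ≤ bigS m k (c k) (N k) (K k) (cond false (m + 2) 1) := by
    unfold bigS; omega
  set Fr := srcFrame Adj false with hFr
  set X := Dom Adj (some Kst) P with hX
  set Y := Dom Adj none P' with hY
  have hA := hF k (Fr.U X) (Fr.C X) src_isCircuit
  have hB := hF k (Fr.U Y) (Fr.C Y) src_isCircuit
  rw [hcard] at hA
  set F0 := F k (Nat.card (Fr.U Y)) with hF0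
  have env : Env Fr (c k) (N k) (K k) k ((N k + (K k + 3) * c k) * cond false (m + 2) 1) X Y :=
    src_env hr hP hP' hR
  have fX : Finite (F0.Univ (Fr.C X)) := univ_finite F0 _
  have fY : Finite (F0.Univ (Fr.C Y)) := univ_finite F0 _
  have h1 := hA.2.1 (src_sat hr hS (Or.inr hodd) Kst)
  have h2 : (F0.apply (Fr.C Y)).WSat (F0.param (Fr.C X)) := by
    refine transfer env hA.1.toIsCircuit hB.1.toIsCircuit
      ((param_le_K F0 (Fr.C X)).trans (hFK k _)) (src_start hP') ?_ h1
    intro val val' l ZX ZY hv hv' hl tc g g' hg hgg'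
    refine prop_main env hA.1 hB.1 hv hv' (src_fam hr hP hP') (le_refl _) g m g' l
      hl tc hgg' ?_
    have h3 := F0.two_a
    show F0.a * 1 ≤ m + _
    omega
  rw [param_eq env F0] at h2
  exact src_unsat hr hS (Or.inr hodd) (hB.2.2 h2)

end Pool.Agent.WSatChain
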