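import Mathlib
import Pool.Agent.WSatChain.Clique2
import Pool.Agent.WSatChain.Forced
import Pool.Agent.WSatChain.Links

/-! The first link. -/

namespace Pool.Agent.WSatChain

open Cl

/-- `Γ_{1,2}` does not reduce to `Γ_{1,1}`. -/
theorem not_reduces_first (c : ℕ → ℕ) (hc : ∃ k, 4 * c k + 2 < k) :
    ¬ Reduces c (GAMMA 1 2) (GAMMA 1 1) := by
  rintro ⟨N, K, F, hFK, hF⟩
  obtain ⟨k, hk⟩ := hc
  have hc2 : 2 ≤ c k := two_le (F k 0)
  set S := (N k + (K k + 3) * c k) * 2 with hS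
  obtain ⟨n, Adj, hr⟩ := rich1_exists k (S + k + 1)
  obtain ⟨P, P', hP, hP', hcard⟩ := exists_pads1 Adj k (k - 1) (S + k + 1)
  set Fr := fr1 Adj with hFr
  set X := D1 (n := n) (k := k) k P with hX
  set Y := D1 (n := n) (k := k) (k - 1) P' with hY
  have hA := hF k (Fr.U X) (Fr.C X) (c1_gamma hr (by omega))
  have hB := hF k (Fr.U Y) (Fr.C Y) (c1_gamma hr (by omega))
  rw [hcard] at hA
  set F0 := F k (Nat.card (Fr.U Y)) with hF0
  have hext : ∀ (Z : V1 n k → Prop) (κ : ℕ) (Q : Bool → ℕ), κ ≤ k → k - 1 ≤ κ →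
      (∀ s, S + k + 1 < Q s) → Fr.Ext Z (D1 κ Q) (k - 1) S := by
    intro Z κ Q h1 h2 hQ l hl hlk x hx hdom Z' hZ'
    exact ext1 hr h1 (by omega) hQ l hl (lt_of_lt_of_le hlk h2) x hx hdom Z' hZ'
  have env : Frame.Env Fr (c k) (N k) (K k) (k - 1) S X Y :=
    ⟨hext X k P (le_refl _) (by omega) hP, hext X (k - 1) P' (by omega) (le_refl _) hP',
      hext Y k P (le_refl _) (by omega) hP, hext Y (k - 1) P' (by omega) (le_refl _) hP',
      by show (2 * c k + 1) * 2 ≤ k - 1; omega, le_refl _⟩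
  have fX : Finite (F0.Univ (Fr.C X)) := univ_finite F0 _
  have fY : Finite (F0.Univ (Fr.C Y)) := univ_finite F0 _
  have h1 := hA.2.1 (c1_sat hr (by omega))
  have h2 : (F0.apply (Fr.C Y)).WSat (F0.param (Fr.C X)) :=
    Frame.transfer11 env hA.1 hB.1 ((param_le_K F0 (Fr.C X)).trans (hFK k _)) h1
  rw [Frame.param_eq env F0] at h2
  exact c1_unsat (by omega) (hB.2.2 h2)

end Pool.Agent.WSatChain
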