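import Mathlib
import Pool.Agent.WSatChain.Forward
import Pool.Agent.WSatChain.Brute
import Pool.Agent.WSatChain.Links
import Pool.Agent.WSatChain.Link1

namespace Pool.Agent.WSatChain.ChainStrict

open Pool.Agent.WSatChain

/-- The chain of weighted satisfiability problems under definable reductions: all inequalities
hold already with two variables; all of them are strict for definable reductions with `c(k)`
variables as soon as `c` is small compared with `k` for one single value of the parameter `k`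
(for instance if `c` is bounded, or if `c(k) = o(k)`), and `Γ_{t+1,1}` is not reducible to any
`Γ_{t,d}`; with `k + 2` variables the chain collapses. -/
theorem chain_strict :
    (Reduces (fun _ => 2) (GAMMA 1 1) (GAMMA 1 2) ∧
      Reduces (fun _ => 2) (GAMMA 1 2) (GAMMA 2 1) ∧
      (∀ t, Reduces (fun _ => 2) (GAMMA t 1) (GAMMA (t + 1) 1)) ∧
      (∀ t, Reduces (fun _ => 2) (GAMMA t 1) PROP) ∧
      Reduces (fun _ => 2) PROP CIRC) ∧
    (∀ c : ℕ → ℕ,
      ((∃ k, 4 * c k + 2 < k) → ¬ Reduces c (GAMMA 1 2) (GAMMA 1 1)) ∧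
      (∀ t d, 1 ≤ t → (∃ k, (2 * c k + 1) * (t + 1) ≤ k) →
        ¬ Reduces c (GAMMA (t + 1) 1) (GAMMA t d) ∧ ¬ Reduces c PROP (GAMMA t d)) ∧
      ((∃ k, 2 * c k < k) → ¬ Reduces c CIRC PROP)) ∧
    Reduces (fun k => k + 2) CIRC (GAMMA 1 1) := by
  refine ⟨⟨?_, ?_, ?_, ?_, ?_⟩, ?_, reduces_brute⟩
  · exact reduces_of_sub (gamma_sub_d (by omega)) (isoInv_gamma 1 2)
  · exact reduces_of_sub gamma_sub_succ (isoInv_gamma 2 1)
  · intro t
    exact reduces_of_sub gamma_sub_succ (isoInv_gamma (t + 1) 1)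
  · intro t
    exact reduces_of_sub (fun U C h => h.1) isoInv_prop
  · exact reduces_of_sub (fun U C h => h.toIsCircuit) isoInv_circ
  · intro c
    refine ⟨not_reduces_first c, ?_, not_reduces_prop c⟩
    intro t d ht hc
    obtain ⟨m, rfl⟩ : ∃ m, t = m + 1 := ⟨t - 1, by omega⟩
    exact ⟨not_reduces_gamma m d c hc,
      fun h => not_reduces_gamma m d c hc (reduces_sub_left (fun U C h => h.1) h)⟩

end Pool.Agent.WSatChain.ChainStrict
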